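import Mathlib.Order.Filter.FilterProduct
import Mathlib.Data.Fintype.Option
import Mathlib.Data.Set.Finite.Lattice
import Mathlib.Algebra.BigOperators.Fin
import Mathlib.Order.Filter.Finite
import Mathlib.Data.Finite.Sum
import Mathlib.Data.Finite.Prod
import Mathlib.Tactic.FinCases
import Mathlib.Combinatorics.HalesJewett
import Mathlib.Order.Filter.Bases.Finite
import Mathlib.Order.Filter.Prod
import Mathlib.Tactic.FieldSimp
import Mathlib.Tactic.Ring
import Mathlib.Tactic.LinearCombination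
import Mathlib.RingTheory.Valuation.ValuationSubring
import Mathlib.Data.Nat.Choose.Sum
import Mathlib.FieldTheory.Galois.GaloisClosure
import Mathlib.FieldTheory.KummerExtension
import Mathlib.FieldTheory.Finite.Basic
import Mathlib.FieldTheory.PurelyInseparable.Basic
import Mathlib.RingTheory.RootsOfUnity.AlgebraicallyClosed
import Mathlib.GroupTheory.Perm.Cycle.Type
import Mathlib.ModelTheory.Definability
import Mathlib.ModelTheory.Algebra.Ring.Basic

-- ======== part 0: formerly Pool.Agent.MP_829a8f_lc.h33.Struct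
section MrgPart0

/-!
Abstract dependent structures on a field: a class of predicates closed under the first-order
operations, containing the graphs of the field operations, and without shattering.
-/

namespace Pool.Agent.MP_829a8f_lc.H33

/-- A class of definable predicates on a field without the independence property. -/
structure NS (F : Type) [Field F] where
  D : ∀ {α : Type}, ((α → F) → Prop) → Prop
  re : ∀ {α β : Type} [Finite α] [Finite β] (f : α → β) {P : (α → F) → Prop},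
    D P → D fun v : β → F => P fun a => v (f a)
  not : ∀ {α : Type} [Finite α] {P : (α → F) → Prop}, D P → D fun v => ¬ P v
  and : ∀ {α : Type} [Finite α] {P Q : (α → F) → Prop}, D P → D Q → D fun v => P v ∧ Q v
  ex : ∀ {α β : Type} [Finite α] [Finite β] {P : (α ⊕ β → F) → Prop},
    D P → D fun v : α → F => ∃ u : β → F, P (Sum.elim v u)
  add : D fun v : Fin 3 → F => v 0 + v 1 = v 2
  mul : D fun v : Fin 3 → F => v 0 * v 1 = v 2
  cst : ∀ c : F, D fun v : Fin 1 → F => v 0 = c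
  nip : ∀ {α β : Type} [Finite α] [Finite β] {P : (α ⊕ β → F) → Prop}, D P →
    ∃ N : ℕ, ¬ ∃ (a : Fin N → β → F) (b : Set (Fin N) → α → F),
      ∀ s j, P (Sum.elim (b s) (a j)) ↔ j ∈ s

namespace NS

variable {F : Type} [Field F] {S : NS F} {α β : Type} [Finite α] [Finite β]
  {P Q : (α → F) → Prop} {f g : (α → F) → F}

omit [Finite α] in
lemma congr (hP : S.D P) (h : ∀ v, Q v ↔ P v) : S.D Q := by
  rwa [show Q = P from funext fun v => propext (h v)]

lemma or (hP : S.D P) (hQ : S.D Q) : S.D fun v => P v ∨ Q v :=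
  congr (S.not (S.and (S.not hP) (S.not hQ))) fun v => by tauto

lemma imp (hP : S.D P) (hQ : S.D Q) : S.D fun v => P v → Q v :=
  congr (or (S.not hP) hQ) fun v => by tauto

lemma tru : S.D fun _ : α → F => True :=
  congr (S.ex (α := α) (β := Fin 1) (S.re Sum.inr (S.cst 0))) fun v => by
    simp only [Sum.elim_inr, true_iff]
    exact ⟨fun _ => 0, rfl⟩

lemma all {ι : Type} [Finite ι] {P : ι → (α → F) → Prop} (h : ∀ i, S.D (P i)) :
    S.D fun v => ∀ i, P i v := by
  induction ι using Finite.induction_empty_option with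
  | of_equiv e ih => exact congr (ih fun i => h (e i)) fun v => e.forall_congr_right.symm
  | h_empty => exact congr tru fun v => by simp
  | h_option ih => exact congr (S.and (h none) (ih fun i => h (some i))) fun v => Option.forall

lemma any {ι : Type} [Finite ι] {P : ι → (α → F) → Prop} (h : ∀ i, S.D (P i)) :
    S.D fun v => ∃ i, P i v :=
  congr (S.not (all fun i => S.not (h i))) fun v => by simp

lemma ex' {P : (α → F) → (β → F) → Prop}
    (h : S.D fun w : α ⊕ β → F => P (fun a => w (Sum.inl a)) fun b => w (Sum.inr b)) :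
    S.D fun v => ∃ u, P v u := S.ex h

lemma ex1 {P : (α → F) → F → Prop}
    (h : S.D fun w : Option α → F => P (fun a => w (some a)) (w none)) :
    S.D fun v => ∃ x, P v x :=
  congr (ex' (β := Unit) (P := fun v u => P v (u ()))
    (S.re (fun o : Option α => o.elim (Sum.inr ()) Sum.inl) h))
    fun _ => ⟨fun ⟨x, hx⟩ => ⟨fun _ => x, hx⟩, fun ⟨u, hu⟩ => ⟨u (), hu⟩⟩

lemma all1 {P : (α → F) → F → Prop}
    (h : S.D fun w : Option α → F => P (fun a => w (some a)) (w none)) :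
    S.D fun v => ∀ x, P v x :=
  congr (S.not (ex1 (P := fun v x => ¬ P v x) (S.not h))) fun v => by simp

variable (S) in
/-- Definable functions. -/
def Fn (f : (α → F) → F) : Prop := S.D fun w : Option α → F => f (fun a => w (some a)) = w none

lemma eqv (i j : α) : S.D fun v : α → F => v i = v j := by
  have h : S.D fun v : α → F => ∃ x, x = 0 ∧ v i + x = v j :=
    ex1 (S.and (S.re (fun _ => none) (S.cst 0)) (S.re ![some i, none, some j] S.add))
  exact congr h fun v => by simp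

lemma proj (i : α) : S.Fn fun v : α → F => v i := eqv (some i) none

lemma const (c : F) : S.Fn fun _ : α → F => c :=
  congr (S.re (fun _ => none) (S.cst c)) fun _ => eq_comm

lemma Fn.re (r : α → β) (hf : S.Fn f) : S.Fn fun v : β → F => f fun a => v (r a) :=
  S.re (Option.map r) hf

lemma comp {P : (β → F) → Prop} {g : β → (α → F) → F} (hP : S.D P) (hg : ∀ b, S.Fn (g b)) :
    S.D fun v => P fun b => g b v := by
  have h : S.D fun v => ∃ u : β → F, (∀ b, g b v = u b) ∧ P u :=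
    ex' (S.and (all fun b => S.re (fun o : Option α => o.elim (Sum.inr b) Sum.inl) (hg b))
      (S.re Sum.inr hP))
  exact congr h fun v => ⟨fun h => ⟨_, fun _ => rfl, h⟩, fun ⟨u, hu, h⟩ => by
    rwa [show (fun b => g b v) = u from funext hu]⟩

lemma Fn.some (hf : S.Fn f) : S.Fn fun w : Option α → F => f fun a => w (some a) := hf.re _

lemma Fn.inl (hf : S.Fn f) : S.Fn fun w : α ⊕ β → F => f fun a => w (Sum.inl a) := hf.re _

lemma Fn.add (hf : S.Fn f) (hg : S.Fn g) : S.Fn fun v => f v + g v :=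
  comp (g := ![fun w => f fun a => w (Option.some a), fun w => g fun a => w (Option.some a), fun w => w none])
    S.add (Fin.forall_fin_succ.2 ⟨hf.some, Fin.forall_fin_two.2 ⟨hg.some, proj _⟩⟩)

lemma Fn.mul (hf : S.Fn f) (hg : S.Fn g) : S.Fn fun v => f v * g v :=
  comp (g := ![fun w => f fun a => w (Option.some a), fun w => g fun a => w (Option.some a), fun w => w none])
    S.mul (Fin.forall_fin_succ.2 ⟨hf.some, Fin.forall_fin_two.2 ⟨hg.some, proj _⟩⟩)

lemma eq (hf : S.Fn f) (hg : S.Fn g) : S.D fun v => f v = g v :=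
  comp (g := ![f, g]) (eqv 0 1) (Fin.forall_fin_two.2 ⟨hf, hg⟩)

lemma Fn.neg (hf : S.Fn f) : S.Fn fun v => -f v :=
  congr (eq (hf.some.add (proj none)) (const 0)) fun _ => neg_eq_iff_add_eq_zero

lemma Fn.sub (hf : S.Fn f) (hg : S.Fn g) : S.Fn fun v => f v - g v := by
  simpa only [sub_eq_add_neg] using hf.add hg.neg

lemma Fn.inv (hf : S.Fn f) : S.Fn fun v => (f v)⁻¹ := by
  refine congr (or (S.and (eq hf.some (const 0)) (eq (proj none) (const 0)))
    (eq (hf.some.mul (proj none)) (const 1))) fun w => ?_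
  by_cases h0 : f (fun a => w (Option.some a)) = 0
  · simp [h0, eq_comm]
  · simp only [h0, false_and, false_or]
    exact ⟨fun h => h ▸ mul_inv_cancel₀ h0, fun h => (eq_inv_of_mul_eq_one_right h).symm⟩

lemma Fn.div (hf : S.Fn f) (hg : S.Fn g) : S.Fn fun v => f v / g v := by
  simpa only [div_eq_mul_inv] using hf.mul hg.inv

lemma Fn.sum {ι : Type} (s : Finset ι) {G : ι → (α → F) → F} (h : ∀ i, S.Fn (G i)) :
    S.Fn fun v => ∑ i ∈ s, G i v := by
  classical
  induction s using Finset.induction_on with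
  | empty => simpa using const 0
  | insert a s ha ih => simpa [Finset.sum_insert ha] using (h a).add ih

lemma Fn.pow (hf : S.Fn f) (k : ℕ) : S.Fn fun v => f v ^ k := by
  induction k with
  | zero => simpa using const 1
  | succ k ih => simpa only [pow_succ] using ih.mul hf

variable (S) in
/-- Definable subsets of the field. -/
def U (X : Set F) : Prop := S.D fun v : Unit → F => v () ∈ X

lemma U.app {X : Set F} (hX : S.U X) (hf : S.Fn f) : S.D fun v => f v ∈ X :=
  comp (g := fun _ => f) hX fun _ => hf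

/-- The independence property fails for affine images of a definable set. -/
lemma U.nip {X : Set F} (hX : S.U X) : ∃ N : ℕ, ¬ ∃ (y q : Fin N → F) (x : Set (Fin N) → F),
    ∀ s j, (x s - y j) / q j ∈ X ↔ j ∈ s := by
  obtain ⟨N, hN⟩ := S.nip (α := Unit) (β := Fin 2)
    (hX.app (((proj (Sum.inl ())).sub (proj (Sum.inr 0))).div (proj (Sum.inr 1))))
  exact ⟨N, fun ⟨y, q, x, h⟩ => hN ⟨fun j => ![y j, q j], fun s _ => x s, h⟩⟩

end NS

/-- An interpretation of the field `E` in the field `F`. -/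
structure Interp {F : Type} [Field F] (S : NS F) (E : Type) [Field E] (ι : Type) where
  X : (ι → F) → Prop
  π : (ι → F) → E
  hX : S.D X
  surj : ∀ y, ∃ x, X x ∧ π x = y
  add : S.D fun w : Fin 3 × ι → F => (∀ a, X fun i => w (a, i)) ∧
    π (fun i => w (0, i)) + π (fun i => w (1, i)) = π fun i => w (2, i)
  mul : S.D fun w : Fin 3 × ι → F => (∀ a, X fun i => w (a, i)) ∧
    π (fun i => w (0, i)) * π (fun i => w (1, i)) = π fun i => w (2, i)

namespace Interp

variable {F : Type} [Field F] {S : NS F} {E : Type} [Field E] {ι : Type} [Finite ι]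
  (I : Interp S E ι)

lemma hall {α : Type} [Finite α] : S.D fun w : α × ι → F => ∀ a, I.X fun i => w (a, i) :=
  NS.all fun a => S.re (fun i => (a, i)) I.hX

/-- The induced structure. -/
def ns : NS E where
  D {α} P := S.D fun w : α × ι → F => (∀ a, I.X fun i => w (a, i)) ∧
    P fun a => I.π fun i => w (a, i)
  re f P hP := NS.congr (S.and I.hall (S.re (Prod.map f id) hP)) fun w =>
    ⟨fun h => ⟨h.1, fun a => h.1 _, h.2⟩, fun h => ⟨h.1, h.2.2⟩⟩
  not hP := NS.congr (S.and I.hall (S.not hP)) fun w => by tauto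
  and hP hQ := NS.congr (S.and hP hQ) fun w => by tauto
  ex {α β} _ _ P hP := by
    refine NS.congr (S.ex (α := α × ι) (β := β × ι)
      (S.re (Equiv.sumProdDistrib α β ι) hP)) fun w => ⟨fun ⟨h, u, hu⟩ => ?_, fun ⟨u, h, hu⟩ => ?_⟩
    · choose x hx hx' using fun b => I.surj (u b)
      refine ⟨fun p => x p.1 p.2, Sum.forall.2 ⟨h, hx⟩, ?_⟩
      convert hu using 2 with a
      cases a with
      | inl a => rfl
      | inr b => exact hx' b
    · refine ⟨fun a => h (Sum.inl a), fun b => I.π fun i => u (b, i), ?_⟩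
      convert hu using 2 with a
      cases a <;> rfl
  add := I.add
  mul := I.mul
  cst c := by
    obtain ⟨x, hx, rfl⟩ := I.surj c
    obtain ⟨z, hz, hz'⟩ := I.surj 0
    refine NS.congr (NS.comp (g := fun p : Fin 3 × ι => ![fun w : Fin 1 × ι → F => w (0, p.2),
      fun _ => z p.2, fun _ => x p.2] p.1) I.add fun p => ?_) fun w => ?_
    · obtain ⟨a, i⟩ := p
      fin_cases a
      exacts [NS.proj _, NS.const _, NS.const _]
    · refine and_congr ⟨fun h => Fin.forall_fin_succ.2 ⟨h 0, Fin.forall_fin_two.2 ⟨hz, hx⟩⟩,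
        fun h => Fin.forall_fin_one.2 (h 0)⟩ ?_
      change _ ↔ I.π (fun i => w (0, i)) + I.π z = I.π x
      rw [hz', add_zero]
  nip {α β} _ _ P hP := by
    obtain ⟨N, hN⟩ := S.nip (α := α × ι) (β := β × ι) (S.re (Equiv.sumProdDistrib α β ι) hP)
    refine ⟨N, fun ⟨a, b, h⟩ => ?_⟩
    choose x hx hx' using fun j i => I.surj (a j i)
    choose y hy hy' using fun s i => I.surj (b s i)
    refine hN ⟨fun j p => x j p.1 p.2, fun s p => y s p.1 p.2, fun s j => ?_⟩
    rw [← h s j]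
    refine (and_iff_right (Sum.forall.2 ⟨hy s, hx j⟩)).trans (iff_of_eq (congrArg P ?_))
    funext c
    cases c with
    | inl c => exact hy' s c
    | inr c => exact hx' j c

lemma U_iff {Y : Set E} : I.ns.U Y ↔ S.D fun w => I.X w ∧ I.π w ∈ Y :=
  ⟨fun h => NS.congr (S.re Prod.snd h) fun w => by simp,
    fun h => NS.congr (S := S) (S.re (fun i => ((), i)) h) fun w => by simp [Unique.forall_iff]⟩

end Interp

section Ultra

open Filter

variable {F : Type} [Field F] {J : Type} (u : Ultrafilter J)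

omit [Field F] in
lemma germ_surj {α : Type} (w : α → Germ (u : Filter J) F) :
    ∃ x : α → J → F, w = fun a => ↑(x a) := by
  choose x hx using fun a => Quotient.exists_rep (w a)
  exact ⟨x, funext fun a => (hx a).symm⟩

/-- The ultrapower of a structure. -/
def NS.up (S : NS F) : NS (Germ (u : Filter J) F) where
  D {α} P := ∃ (γ : Type) (_ : Finite γ) (Q : (α ⊕ γ → F) → Prop) (p : γ → J → F), S.D Q ∧
    ∀ x : α → J → F, P (fun a => ↑(x a)) ↔ ∀ᶠ t in u, Q (Sum.elim (fun a => x a t) fun c => p c t)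
  re f P := by
    rintro ⟨γ, _, Q, p, hQ, h⟩
    refine ⟨γ, ‹_›, _, p, S.re (Sum.map f id) hQ, fun x => (h fun a => x (f a)).trans ?_⟩
    refine eventually_congr (Eventually.of_forall fun t => iff_of_eq (congrArg Q ?_))
    funext c
    cases c <;> rfl
  not := by
    rintro α _ P ⟨γ, _, Q, p, hQ, h⟩
    exact ⟨γ, ‹_›, _, p, S.not hQ, fun x => (h x).not.trans Ultrafilter.eventually_not.symm⟩
  and := by
    rintro α _ P P' ⟨γ, _, Q, p, hQ, h⟩ ⟨γ', _, Q', p', hQ', h'⟩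
    refine ⟨γ ⊕ γ', inferInstance, _, Sum.elim p p', S.and (S.re (Sum.map id Sum.inl) hQ)
      (S.re (Sum.map id Sum.inr) hQ'), fun x => ?_⟩
    refine ((h x).and (h' x)).trans (eventually_and.symm.trans ?_)
    refine eventually_congr (Eventually.of_forall fun t =>
      and_congr (iff_of_eq (congrArg Q ?_)) (iff_of_eq (congrArg Q' ?_))) <;>
    · funext c
      cases c <;> rfl
  ex {α β} _ _ P := by
    rintro ⟨γ, _, Q, p, hQ, h⟩
    refine ⟨γ, ‹_›, _, p, S.ex (α := α ⊕ γ) (β := β) (S.re (Sum.elim (Sum.elim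
      (fun a => Sum.inl (Sum.inl a)) Sum.inr) fun c => Sum.inl (Sum.inr c)) hQ), fun x => ?_⟩
    have key : ∀ y : β → J → F, P (Sum.elim (fun a => ↑(x a)) fun b => ↑(y b)) ↔ ∀ᶠ t in u,
        Q fun c => Sum.elim (Sum.elim (fun a => x a t) fun c => p c t) (fun b => y b t)
          (Sum.elim (Sum.elim (fun a => Sum.inl (Sum.inl a)) Sum.inr)
            (fun c => Sum.inl (Sum.inr c)) c) := by
      intro y
      refine (iff_of_eq (congrArg P ?_)).trans ((h (Sum.elim x y)).trans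
        (eventually_congr (Eventually.of_forall fun t => iff_of_eq (congrArg Q ?_))))
      · funext c
        cases c <;> rfl
      · funext c
        rcases c with (c | c) | c <;> rfl
    constructor
    · rintro ⟨y, hy⟩
      obtain ⟨y, rfl⟩ := germ_surj u y
      exact ((key y).1 hy).mono fun t ht => ⟨_, ht⟩
    · intro hy
      obtain ⟨y, hy⟩ := hy.choice
      exact ⟨_, (key fun b t => y t b).2 hy⟩
  add := ⟨Empty, inferInstance, _, Empty.elim, S.re Sum.inl S.add, fun x => Germ.coe_eq⟩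
  mul := ⟨Empty, inferInstance, _, Empty.elim, S.re Sum.inl S.mul, fun x => Germ.coe_eq⟩
  cst c := by
    obtain ⟨y, rfl⟩ := Quotient.exists_rep c
    exact ⟨Unit, inferInstance, _, fun _ => y, NS.eqv (Sum.inl 0) (Sum.inr ()),
      fun x => Germ.coe_eq⟩
  nip {α β} _ _ P := by
    rintro ⟨γ, _, Q, p, hQ, h⟩
    obtain ⟨N, hN⟩ := S.nip (α := α) (β := β ⊕ γ) (S.re (Equiv.sumAssoc α β γ) hQ)
    refine ⟨N, fun ⟨a, b, hab⟩ => ?_⟩
    choose x hx using fun j => germ_surj u (a j)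
    choose y hy using fun s => germ_surj u (b s)
    have h1 : ∀ s j, ∀ᶠ t in u, Q (Sum.elim (fun c => Sum.elim (y s) (x j) c t) fun c => p c t) ↔
        j ∈ s := by
      intro s j
      have h2 := (h (Sum.elim (y s) (x j))).symm.trans ((iff_of_eq (congrArg P (by
        funext c
        cases c
        · exact (congrFun (hy s) _).symm
        · exact (congrFun (hx j) _).symm))).trans (hab s j))
      by_cases hj : j ∈ s
      · exact (h2.2 hj).mono fun t ht => iff_of_true ht hj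
      · exact (Ultrafilter.eventually_not.2 (mt h2.1 hj)).mono fun t ht => iff_of_false ht hj
    obtain ⟨t, ht⟩ := (eventually_all.2 fun s => eventually_all.2 (h1 s)).exists
    refine hN ⟨fun j => Sum.elim (fun c => x j c t) fun c => p c t, fun s c => y s c t,
      fun s j => (iff_of_eq (congrArg Q ?_)).trans (ht s j)⟩
    funext c
    rcases c with (c | c) | c <;> rfl

lemma NS.U.up {S : NS F} {X : Set F} (hX : S.U X) : (S.up u).U {w | Germ.LiftPred (· ∈ X) w} :=
  ⟨Empty, inferInstance, _, Empty.elim, S.re Sum.inl hX, fun _ => Iff.rfl⟩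

end Ultra

end Pool.Agent.MP_829a8f_lc.H33

end MrgPart0

-- ======== part 1: formerly Pool.Agent.MP_829a8f_lc.h33.Top1
section MrgPart1

/-!
The topology generated by the affine images of a multiplicative group `T`, and finite covering
families of open sets obtained from the absence of the independence property.
-/

namespace Pool.Agent.MP_829a8f_lc.H33

open Filter

variable {F : Type} [Field F]

/-- A subgroup of the multiplicative group, as a subset of the field. -/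
structure MG (T : Set F) : Prop where
  one : (1 : F) ∈ T
  mul : ∀ {x y}, x ∈ T → y ∈ T → x * y ∈ T
  inv : ∀ {x}, x ∈ T → x⁻¹ ∈ T
  ne : ∀ {x}, x ∈ T → x ≠ 0

lemma MG.div {T : Set F} (h : MG T) {x y : F} (hx : x ∈ T) (hy : y ∈ T) : x / y ∈ T :=
  div_eq_mul_inv x y ▸ h.mul hx (h.inv hy)

lemma MG.of_div {T : Set F} (h : MG T) {x y : F} (hx : x / y ∈ T) (hy : y ∈ T) : x ∈ T :=
  div_mul_cancel₀ x (h.ne hy) ▸ h.mul hx hy

/-- `T` has finite index in `H`. -/
def FI (H T : Set F) : Prop :=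
  ∃ (κ : Type) (_ : Finite κ) (χ : F → κ), ∀ x ∈ H, ∀ y ∈ H, χ x = χ y → x / y ∈ T

/-- The neighbourhoods of zero. -/
def nb (T : Set F) : Filter F := ⨅ a : F, 𝓟 {z | 1 + a * z ∈ T}

/-- The open sets. -/
def Op (T : Set F) (U : Set F) : Prop := ∀ x ∈ U, ∀ᶠ z in nb T, x + z ∈ U

variable {T H : Set F}

lemma nb_ev (a : F) : ∀ᶠ z in nb T, 1 + a * z ∈ T :=
  mem_iInf_of_mem a (mem_principal_self _)

lemma tendsto_nb {α : Type} {l : Filter α} {f : α → F} :
    Tendsto f l (nb T) ↔ ∀ a, ∀ᶠ x in l, 1 + a * f x ∈ T := by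
  simp only [nb, tendsto_iInf, tendsto_principal, Set.mem_ofPred_eq]

lemma nb_basis {U : Set F} (h : U ∈ nb T) :
    ∃ A : Set F, A.Finite ∧ ∀ z, (∀ a ∈ A, 1 + a * z ∈ T) → z ∈ U := by
  obtain ⟨A, hA, h⟩ := (hasBasis_iInf_principal_finite _).mem_iff.1 h
  exact ⟨A, hA, fun z hz => h (Set.mem_iInter₂.2 hz)⟩

lemma MG.zero_mem (hT : MG T) {U : Set F} (h : U ∈ nb T) : (0 : F) ∈ U := by
  obtain ⟨A, -, h⟩ := nb_basis h
  exact h 0 fun a _ => by simpa using hT.one

lemma MG.mob (hT : MG T) (k c : F) : Tendsto (fun u => k * u / (1 + c * u)) (nb T) (nb T) := by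
  refine tendsto_nb.2 fun a => ?_
  filter_upwards [nb_ev c, nb_ev (c + a * k)] with u h1 h2
  have h0 := hT.ne h1
  convert hT.div h2 h1 using 1
  rw [eq_div_iff h0, add_mul, mul_assoc a, div_mul_cancel₀ _ h0]
  ring

lemma nb_scal (k : F) : Tendsto (fun u => k * u) (nb T) (nb T) :=
  tendsto_nb.2 fun a => by simpa only [mul_assoc] using nb_ev (a * k)

lemma ev_div {x : F} (hx : x ≠ 0) : ∀ᶠ z in nb T, (x + z) / x ∈ T := by
  filter_upwards [nb_ev x⁻¹] with z hz
  convert hz using 1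
  field_simp

lemma MG.op_aff (hT : MG T) (u v : F) : Op T {x | u * x + v ∈ T} := by
  intro x hx
  filter_upwards [(nb_scal u).eventually (ev_div (hT.ne hx))] with z hz
  refine hT.of_div ?_ hx
  convert hz using 2
  ring

lemma Op.inter {U V : Set F} (hU : Op T U) (hV : Op T V) : Op T (U ∩ V) :=
  fun x hx => (hU x hx.1).and (hV x hx.2)

lemma op_univ : Op T Set.univ := fun _ _ => Eventually.of_forall fun _ => trivial

lemma MG.op_fin (hT : MG T) {A : Set F} (hA : A.Finite) : Op T {z | ∀ a ∈ A, 1 + a * z ∈ T} :=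
  fun x hx => (eventually_all_finite hA).2 fun a ha => by
    simpa only [Set.mem_ofPred_eq, add_comm _ (1 : F)] using
      hT.op_aff a 1 x (by simpa only [Set.mem_ofPred_eq, add_comm _ (1 : F)] using hx a ha)

lemma exists_weights [Infinite F] {ι : Type} (s : Finset ι) :
    ∃ w : ι → F, ∀ t ⊆ s, t.Nonempty → ∑ i ∈ t, w i ≠ 0 := by
  classical
  induction s using Finset.induction_on with
  | empty => exact ⟨0, fun t ht h => by simp [Finset.subset_empty.1 ht] at h⟩
  | insert a s ha ih =>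
    obtain ⟨w, hw⟩ := ih
    obtain ⟨c, hc⟩ := Infinite.exists_notMem_finset (s.powerset.image fun t => -∑ i ∈ t, w i)
    have h1 : ∀ t ⊆ s, ∑ i ∈ t, Function.update w a c i = ∑ i ∈ t, w i := fun t ht =>
      Finset.sum_congr rfl fun i hi => Function.update_of_ne (ne_of_mem_of_not_mem (ht hi) ha) _ _
    refine ⟨Function.update w a c, fun t ht hne => ?_⟩
    by_cases h : a ∈ t
    · rw [← Finset.add_sum_erase _ _ h, Function.update_self,
        h1 _ (Finset.subset_insert_iff.1 ht)]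
      exact fun h0 => hc (Finset.mem_image.2 ⟨_, Finset.mem_powerset.2
        (Finset.subset_insert_iff.1 ht), (eq_neg_of_add_eq_zero_left h0).symm⟩)
    · have h2 := (Finset.subset_insert_iff_of_notMem h).1 ht
      rw [h1 _ h2]
      exact hw t h2 hne

/-- The topology is not discrete. -/
theorem nondiscrete [Infinite F] (hH : MG H) (hf : FI H T)
    (hw : ∀ G : Set F, G.Finite → ∃ w : F, w ≠ 0 ∧ ∀ x ∈ G, 1 + w * x ∈ H) :
    ∃ᶠ z in nb T, z ≠ 0 := by
  classical
  obtain ⟨κ, _, χ, hχ⟩ := hf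
  refine frequently_iff.2 fun {U} hU => ?_
  obtain ⟨A, hA, hU⟩ := nb_basis hU
  have := (hA.insert 0).to_subtype
  obtain ⟨ι, _, hι⟩ := Combinatorics.Line.exists_mono_in_high_dimension ↥(insert 0 A) κ
  obtain ⟨l, hl⟩ := exists_weights (F := F) (Finset.univ : Finset ι)
  obtain ⟨w, hw0, hw⟩ := hw _ (Set.finite_range fun x : ι → ↥(insert 0 A) => ∑ i, l i * x i)
  obtain ⟨L, c, hL⟩ := hι fun x => χ (1 + w * ∑ i, l i * x i)
  let s : Finset ι := Finset.univ.filter fun i => L.idxFun i = none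
  let o : ↥(insert 0 A) := ⟨0, Or.inl rfl⟩
  have hy := hw _ ⟨L o, rfl⟩
  have h0 := hH.ne hy
  have key : ∀ a : ↥(insert 0 A), ∑ i, l i * L a i = ∑ i, l i * L o i + (∑ i ∈ s, l i) * a := by
    intro a
    rw [Finset.sum_filter, Finset.sum_mul, ← Finset.sum_add_distrib]
    refine Finset.sum_congr rfl fun i _ => ?_
    cases h : L.idxFun i <;> simp [h, o]
  refine ⟨w * (∑ i ∈ s, l i) / (1 + w * ∑ i, l i * L o i), hU _ fun a ha => ?_,
    div_ne_zero (mul_ne_zero hw0 (hl s (Finset.subset_univ _) ?_)) h0⟩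
  · have h1 := hχ _ (hw _ ⟨L ⟨a, Or.inr ha⟩, rfl⟩) _ hy ((hL _).trans (hL o).symm)
    convert h1 using 1
    simp only at h0 ⊢
    rw [key ⟨a, Or.inr ha⟩]
    field_simp
    ring
  · obtain ⟨i, hi⟩ := L.proper
    exact ⟨i, by simpa [s] using hi⟩

variable (T) in
/-- A nonempty open subset of `X`. -/
def Gd (X Y : Set F) : Prop := Op T Y ∧ Y.Nonempty ∧ Y ⊆ X

variable (T) in
/-- A finite family of nonempty open subsets of `X` serves every parameter. -/
def Cov {β : Type} (X : Set F) (G : β → Set F → Prop) : Prop :=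
  ∃ 𝒴 : Set (Set F), 𝒴.Finite ∧ (∀ Y ∈ 𝒴, Gd T X Y) ∧ ∀ b, ∃ Y ∈ 𝒴, G b Y

variable {β : Type} {X : Set F}

lemma Cov.mono {β' : Type} {G : β → Set F → Prop} {G' : β' → Set F → Prop} (h : Cov T X G)
    (f : β' → β) (hG : ∀ b Y, Gd T X Y → G (f b) Y → G' b Y) : Cov T X G' := by
  obtain ⟨𝒴, h1, h2, h3⟩ := h
  refine ⟨𝒴, h1, h2, fun b => ?_⟩
  obtain ⟨Y, hY, h⟩ := h3 (f b)
  exact ⟨Y, hY, hG b Y (h2 Y hY) h⟩

lemma Cov.bind {G : β → Set F → Prop} {G' : Set F → β → Set F → Prop} (h : Cov T X G)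
    (h' : ∀ Y, Gd T X Y → Cov T Y (G' Y)) :
    Cov T X fun b Z => ∃ Y, Gd T X Y ∧ Z ⊆ Y ∧ G b Y ∧ G' Y b Z := by
  obtain ⟨𝒴, h1, h2, h3⟩ := h
  choose! 𝒵 k1 k2 k3 using h'
  refine ⟨⋃ Y ∈ 𝒴, 𝒵 Y, h1.biUnion fun Y hY => k1 Y (h2 Y hY), fun Z hZ => ?_, fun b => ?_⟩
  · obtain ⟨Y, hY, hZ⟩ := Set.mem_iUnion₂.1 hZ
    have := k2 Y (h2 Y hY) Z hZ
    exact ⟨this.1, this.2.1, this.2.2.trans (h2 Y hY).2.2⟩
  · obtain ⟨Y, hY, h⟩ := h3 b
    obtain ⟨Z, hZ, h'⟩ := k3 Y (h2 Y hY) b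
    exact ⟨Z, Set.mem_biUnion hY hZ, Y, h2 Y hY, (k2 Y (h2 Y hY) Z hZ).2.2, h, h'⟩

lemma Cov.all {J : Type} [Finite J] (G : J → β → Set F → Prop)
    (hG : ∀ j b Y Z, Z ⊆ Y → G j b Y → G j b Z) (hX : Gd T X X)
    (h : ∀ j Y, Gd T X Y → Cov T Y (G j)) : Cov T X fun b Y => ∀ j, G j b Y := by
  induction J using Finite.induction_empty_option with
  | of_equiv e ih =>
    exact (ih (fun j => G (e j)) (fun j => hG _) fun j => h _).mono id
      fun b Y _ h => e.forall_congr_right.1 h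
  | h_empty =>
    exact ⟨{X}, Set.finite_singleton _, fun Y hY => hY ▸ hX, fun b => ⟨X, rfl, fun j => j.elim⟩⟩
  | h_option ih =>
    refine ((ih (fun j => G (some j)) (fun j => hG _) fun j => h _).bind
      (G' := fun _ => G none) (h none)).mono id ?_
    rintro b Z - ⟨Y, -, h1, h2, h3⟩
    exact Option.forall.2 ⟨h3, fun j => hG _ _ _ _ h1 (h2 j)⟩

/-- Tree splitting. -/
lemma Cov.split (hX : Gd T X X) (φ : F → β → Prop) (Pre : β → Prop)
    (hop : ∀ b, Pre b → ∀ x ∈ X, ∀ᶠ z in nb T, φ (x + z) b ↔ φ x b)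
    (hn : ∃ N : ℕ, ¬ ∃ (a : Fin N → β) (x : Set (Fin N) → F), ∀ s j, φ (x s) (a j) ↔ j ∈ s) :
    Cov T X fun b Z => Pre b → ∀ x ∈ Z, ∀ x' ∈ Z, φ x b → φ x' b := by
  by_contra hc
  have key : ∀ n : ℕ, ∃ (a : Fin n → β) (Y : Set (Fin n) → Set F), (∀ s, Gd T X (Y s)) ∧
      ∀ s j, ∀ x ∈ Y s, φ x (a j) ↔ j ∈ s := by
    intro n
    induction n with
    | zero => exact ⟨Fin.elim0, fun _ => X, fun _ => hX, fun _ j => j.elim0⟩
    | succ n ih =>
      obtain ⟨a, Y, h1, h2⟩ := ih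
      simp only [Cov, not_exists, not_and, not_forall] at hc
      obtain ⟨b, hb⟩ := hc _ (Set.finite_range Y) (by rintro _ ⟨s, rfl⟩; exact h1 s)
      refine ⟨Fin.cons b a, fun s => Y (Fin.succ ⁻¹' s) ∩ {x | φ x b ↔ 0 ∈ s}, fun s => ?_,
        fun s j x hx => ?_⟩
      · obtain ⟨hp, x, hx, x', hx', h3, h4⟩ := hb _ ⟨Fin.succ ⁻¹' s, rfl⟩
        refine ⟨fun y hy => ((h1 _).1 y hy.1).and
          ((hop b hp y ((h1 _).2.2 hy.1)).mono fun z hz => hz.trans hy.2), ?_,
          fun y hy => (h1 _).2.2 hy.1⟩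
        by_cases h0 : 0 ∈ s
        · exact ⟨x, hx, iff_of_true h3 h0⟩
        · exact ⟨x', hx', iff_of_false h4 h0⟩
      · induction j using Fin.cases with
        | zero => exact hx.2
        | succ j => exact h2 _ j x hx.1
  obtain ⟨N, hN⟩ := hn
  obtain ⟨a, Y, h1, h2⟩ := key N
  choose x hx using fun s => (h1 s).2.1
  exact hN ⟨a, x, fun s j => h2 s j _ (hx s)⟩

/-- The hypotheses on the pair of groups. -/
structure Dat (S : NS F) (T H : Set F) : Prop where
  hT : MG T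
  hH : MG H
  fi : FI H T
  dP : ∃ P, S.U P ∧ ∀ x ∈ H, x ∈ P ↔ x ∈ T
  dN : ∃ N, S.U N ∧ N ∈ nb T ∧ ∀ z ∈ N, 1 + z ∈ T
  q : ∃ q : F, q ≠ 0 ∧ q ∉ T
  nd : ∃ᶠ z in nb T, z ≠ 0
  lf : ∀ X, Gd T X X → Cov T X fun y Y => ∀ x ∈ Y, ∀ x' ∈ Y, (x - y) / (x' - y) ∈ H

variable {S : NS F}

lemma Dat.star1 (d : Dat S T H) (hX : Gd T X X) :
    Cov T X fun y Y => ∀ x ∈ Y, ∀ x' ∈ Y, (x - y) / (x' - y) ∈ T := by
  obtain ⟨κ, _, χ, hχ⟩ := d.fi
  obtain ⟨P, hP, hP'⟩ := d.dP
  obtain ⟨N, hN⟩ := hP.nip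
  have hq : ∀ k, ∃ q : F, (∃ x ∈ H, χ x = k) → q ∈ H ∧ χ q = k := fun k => by
    by_cases h : ∃ x ∈ H, χ x = k
    · exact h.imp fun _ h _ => h
    · exact ⟨0, fun h' => absurd h' h⟩
  choose q hq using hq
  refine ((d.lf X hX).bind (G' := fun Y y Z => (∀ x ∈ Y, ∀ x' ∈ Y, (x - y) / (x' - y) ∈ H) →
    ∀ x ∈ Z, ∀ x' ∈ Z, (x - y) / (x' - y) ∈ T) fun Y hY => ?_).mono id
    fun y Z _ ⟨Y, _, _, h1, h2⟩ => h2 h1
  obtain ⟨c, hc⟩ := hY.2.1
  refine (Cov.all (fun k y Z => (∀ x ∈ Y, (x - y) / (q k * (c - y)) ∈ H) → ∀ x ∈ Z, ∀ x' ∈ Z,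
    (x - y) / (q k * (c - y)) ∈ P → (x' - y) / (q k * (c - y)) ∈ P)
    (fun k y Z Z' h h' h1 x hx x' hx' => h' h1 x (h hx) x' (h hx')) ⟨hY.1, hY.2.1, le_rfl⟩
    fun k Z hZ => ?_).mono id fun y Z hZ h h1 x hx x' hx' => ?_
  · refine (Cov.split (β := F × F) ⟨hZ.1, hZ.2.1, le_rfl⟩ (fun x b => (x - b.1) / b.2 ∈ P)
      (fun b => ∀ x ∈ Y, (x - b.1) / b.2 ∈ H) (fun b hb x hx => ?_)
      ⟨N, fun ⟨a, x, h⟩ => hN ⟨fun j => (a j).1, fun j => (a j).2, x, h⟩⟩).mono
      (fun y => (y, q k * (c - y))) fun y Z _ h => h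
    have h1 := hb x (hZ.2.2 hx)
    have h0 : x - b.1 ≠ 0 := fun h => d.hH.ne h1 (by rw [h, zero_div])
    filter_upwards [hZ.1 x hx, ev_div h0] with z h2 h3
    rw [hP' _ h1, hP' _ (hb _ (hZ.2.2 h2))]
    have e : (x + z - b.1) / b.2 = (x - b.1 + z) / (x - b.1) * ((x - b.1) / b.2) := by
      rw [div_mul_div_cancel₀ h0, add_sub_right_comm]
    rw [e]
    exact ⟨fun h => by
      have := d.hT.mul (d.hT.inv h3) h
      rwa [inv_mul_cancel_left₀ (d.hT.ne h3)] at this, d.hT.mul h3⟩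
  · have h2 := h1 x' (hZ.2.2 hx') c hc
    obtain ⟨h3, h4⟩ := hq _ ⟨_, h2, rfl⟩
    have e : ∀ x, (x - y) / (q (χ ((x' - y) / (c - y))) * (c - y)) =
        (x - y) / (c - y) / q (χ ((x' - y) / (c - y))) := fun x => by rw [div_div, mul_comm]
    have h5 : ∀ x ∈ Y, (x - y) / (q (χ ((x' - y) / (c - y))) * (c - y)) ∈ H := fun x hx =>
      e x ▸ d.hH.div (h1 x hx c hc) h3
    have h6 := e x' ▸ hχ _ h2 _ h3 h4.symm
    have h7 := (hP' _ (h5 x (hZ.2.2 hx))).1
      (h _ h5 x' hx' x hx ((hP' _ (h5 x' (hZ.2.2 hx'))).2 h6))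
    have h8 := d.hT.div h7 h6
    rwa [div_div_div_cancel_right₀] at h8
    exact fun h => d.hT.ne h6 (by rw [h, div_zero])

lemma Dat.star (d : Dat S T H) (J : Type) [Finite J] (hX : Gd T X X) :
    Cov T X fun (y : J → F) Y => ∀ j, ∀ x ∈ Y, ∀ x' ∈ Y, (x - y j) / (x' - y j) ∈ T :=
  Cov.all (fun j (y : J → F) Y => ∀ x ∈ Y, ∀ x' ∈ Y, (x - y j) / (x' - y j) ∈ T)
    (fun _ _ _ _ h h' x hx x' hx' => h' x (h hx) x' (h hx')) hX fun j _ hY =>
    (d.star1 ⟨hY.1, hY.2.1, le_rfl⟩).mono (fun y => y j) fun _ _ _ h => h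

end Pool.Agent.MP_829a8f_lc.H33

end MrgPart1

-- ======== part 2: formerly Pool.Agent.MP_829a8f_lc.h33.Top2
section MrgPart2

/-!
The topology generated by `T` is a locally bounded field topology with a definable gauge.
-/

namespace Pool.Agent.MP_829a8f_lc.H33

open Filter

variable {F : Type} [Field F] {S : NS F} {T H : Set F}

/-- Continuity of `s ↦ s / (1 + s)` for a definable group filter stable under scaling. -/
theorem tendsto_div_one_add {l : Filter F} (h0 : ∀ E ∈ l, (0 : F) ∈ E)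
    (hs : ∀ c : F, Tendsto (fun z => c * z) l l)
    (ha : ∀ E ∈ l, ∃ E' ∈ l, ∀ z ∈ E', ∀ z' ∈ E', z + z' ∈ E)
    (hd : ∀ E ∈ l, ∃ E' ∈ l, E' ⊆ E ∧ S.U E') : Tendsto (fun s => s / (1 + s)) l l := by
  classical
  intro E hE
  by_contra hc
  have hb : ∃ᶠ s in l, s / (1 + s) ∉ E := fun h => hc (h.mono fun _ => not_not.1)
  have key : ∀ (k : ℕ), ∀ E' ∈ l, ∃ (σ : Fin k → F) (z : Set (Fin k) → F),
      (∀ j, σ j / (1 + σ j) ∉ E) ∧ (∀ s, z s ∈ E') ∧
      ∀ s j, z s / (1 + σ j) - (if j ∈ s then σ j / (1 + σ j) else 0) ∈ E' := by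
    intro k
    induction k with
    | zero => exact fun E' h => ⟨Fin.elim0, fun _ => 0, fun j => j.elim0, fun _ => h0 _ h,
        fun _ j => j.elim0⟩
    | succ k ih =>
      intro E' hE'
      obtain ⟨G, hG, hG'⟩ := ha E' hE'
      obtain ⟨σ, z, h1, h2, h3⟩ := ih G hG
      have h4 : ∀ᶠ t in l, ∀ s : Set (Fin (k + 1)),
          (z (Fin.succ ⁻¹' s) + if 0 ∈ s then 1 else 0) * t ∈ G ∧
          ∀ j, (z (Fin.succ ⁻¹' s) + if 0 ∈ s then 1 else 0) / (1 + σ j) * t ∈ G :=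
        eventually_all.2 fun s => Eventually.and (hs _ hG) (eventually_all.2 fun j => hs _ hG)
      obtain ⟨t, ht, h5⟩ := (hb.and_eventually h4).exists
      have ht0 : 1 + t ≠ 0 := fun h => ht (by rw [h, div_zero]; exact h0 _ hE)
      refine ⟨Fin.cons t σ, fun s => z (Fin.succ ⁻¹' s) +
        (z (Fin.succ ⁻¹' s) + if 0 ∈ s then 1 else 0) * t, Fin.cases ht h1,
        fun s => hG' _ (h2 _) _ (h5 s).1, fun s j => ?_⟩
      induction j using Fin.cases with
      | zero =>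
        convert hG' _ (h2 (Fin.succ ⁻¹' s)) _ (h0 _ hG) using 1
        simp only [Fin.cons_zero]
        split_ifs <;> field_simp <;> ring
      | succ j =>
        convert hG' _ (h3 (Fin.succ ⁻¹' s) j) _ ((h5 s).2 j) using 1
        simp only [Fin.cons_succ, Set.mem_preimage]
        ring
  obtain ⟨E₃, h3, h3'⟩ := ha E hE
  obtain ⟨E₁, h1, h1', h1d⟩ := hd E₃ h3
  obtain ⟨N, hN⟩ := NS.U.nip (S := S) (X := E₁ᶜ) (S.not h1d)
  obtain ⟨σ, z, k1, -, k3⟩ := key N _ (inter_mem h1 (hs (-1) h3))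
  refine hN ⟨0, fun j => 1 + σ j, z, fun s j => ?_⟩
  have h4 := k3 s j
  simp only [Pi.zero_apply, sub_zero, Set.mem_compl_iff]
  by_cases hj : j ∈ s
  · rw [if_pos hj] at h4
    refine iff_of_true (fun h => k1 j ?_) hj
    convert h3' _ (h1' h) _ h4.2 using 1
    ring
  · rw [if_neg hj, sub_zero] at h4
    exact iff_of_false (not_not.2 h4.1) hj

/-- The filter of differences. -/
def nb2 (T : Set F) : Filter F := map (fun p : F × F => p.1 - p.2) (nb T ×ˢ nb T)

lemma mem_nb2 {E : Set F} : E ∈ nb2 T ↔ ∃ U ∈ nb T, ∀ u ∈ U, ∀ u' ∈ U, u - u' ∈ E := by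
  rw [nb2, mem_map, mem_prod_self_iff]
  exact exists_congr fun U => and_congr_right fun _ =>
    ⟨fun h u hu u' hu' => h (Set.mk_mem_prod hu hu'), fun h p hp => h _ hp.1 _ hp.2⟩

lemma ev_nb2 {U : Set F} (hU : U ∈ nb T) : ∀ᶠ z in nb2 T, ∃ u ∈ U, ∃ u' ∈ U, z = u - u' :=
  mem_nb2.2 ⟨U, hU, fun u hu u' hu' => ⟨u, hu, u', hu', rfl⟩⟩

lemma Gd.ev {X Y : Set F} (h : Gd T X Y) : ∀ᶠ z in nb2 T, ∃ x ∈ Y, x + z ∈ Y := by
  obtain ⟨c, hc⟩ := h.2.1
  filter_upwards [ev_nb2 (h.1 c hc)] with z ⟨u, hu, u', hu', hz⟩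
  exact ⟨c + u', hu', by rwa [hz, add_add_sub_cancel]⟩

lemma nb2_scal (c : F) : Tendsto (fun z => c * z) (nb2 T) (nb2 T) := by
  intro E hE
  obtain ⟨U, hU, h⟩ := mem_nb2.1 hE
  exact mem_map.2 (mem_nb2.2 ⟨_, nb_scal c hU, fun u hu u' hu' => by
    simpa only [Set.mem_preimage, mul_sub] using h _ hu _ hu'⟩)

lemma MG.le_nb2 (hT : MG T) : nb T ≤ nb2 T := fun E hE => by
  obtain ⟨U, hU, h⟩ := mem_nb2.1 hE
  exact mem_of_superset hU fun u hu => by simpa using h u hu 0 (hT.zero_mem hU)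

namespace Dat

variable (d : Dat S T H)
include d

lemma defb {U : Set F} (hU : U ∈ nb T) : ∃ W ∈ nb T, W ⊆ U ∧ S.U W := by
  obtain ⟨N, h1, h2, h3⟩ := d.dN
  obtain ⟨A, hA, hU⟩ := nb_basis hU
  have := hA.to_subtype
  refine ⟨{z | ∀ a : A, a * z ∈ N}, eventually_all.2 fun a => nb_scal _ h2,
    fun z hz => hU z fun a ha => h3 _ (hz ⟨a, ha⟩),
    NS.all fun a => h1.app ((NS.const _).mul (NS.proj _))⟩

lemma add2 (E : Set F) (hE : E ∈ nb2 T) : ∃ E' ∈ nb2 T, ∀ z ∈ E', ∀ z' ∈ E', z + z' ∈ E := by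
  obtain ⟨U, hU, hE⟩ := mem_nb2.1 hE
  obtain ⟨A, hA, hU⟩ := nb_basis hU
  have := hA.to_subtype
  obtain ⟨𝒴, h1, h2, h3⟩ := d.star A (X := {z | ∀ a ∈ A, 1 + a * z ∈ T})
    ⟨d.hT.op_fin hA, ⟨0, fun a _ => by simpa using d.hT.one⟩, le_rfl⟩
  refine ⟨_, (eventually_all_finite h1).2 fun Y hY => (h2 Y hY).ev, fun z hz z' hz' => ?_⟩
  obtain ⟨Y, hY, h4⟩ := h3 fun a => z - (a : F)⁻¹
  obtain ⟨x, hx, hxz⟩ := hz Y hY
  obtain ⟨x', hx', hxz'⟩ := hz' Y hY
  convert hE _ (hU _ ((h2 Y hY).2.2 hxz')) (x' - z) (hU _ fun a ha => ?_) using 1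
  · ring
  by_cases h0 : a = 0
  · simpa [h0] using d.hT.one
  have h5 := (h2 Y hY).2.2 hx a ha
  refine d.hT.of_div ?_ h5
  convert h4 ⟨a, ha⟩ x' hx' _ hxz using 1
  rw [← mul_div_mul_left _ (x + z - _) h0]
  congr 1 <;> field_simp <;> ring

lemma mob2 : Tendsto (fun s => s / (1 + s)) (nb2 T) (nb2 T) := by
  refine tendsto_div_one_add (S := S) (fun E h => d.hT.zero_mem (d.hT.le_nb2 h)) nb2_scal d.add2
    fun E hE => ?_
  obtain ⟨U, hU, hE⟩ := mem_nb2.1 hE
  obtain ⟨W, h1, h2, h3⟩ := d.defb hU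
  refine ⟨_, ev_nb2 h1, ?_, NS.congr (NS.ex1 (P := fun v u => u ∈ W ∧ u - v () ∈ W) (S.and
    (h3.app (NS.proj _)) (h3.app ((NS.proj _).sub (NS.proj _))))) fun v => ?_⟩
  · rintro _ ⟨u, hu, u', hu', rfl⟩
    exact hE _ (h2 hu) _ (h2 hu')
  · exact exists_congr fun u => and_congr_right fun _ =>
      ⟨fun ⟨u', h, e⟩ => by rwa [e, sub_sub_cancel], fun h => ⟨_, h, (sub_sub_cancel _ _).symm⟩⟩

lemma ev_mem {X Y : Set F} (h : Gd T X Y) : ∀ᶠ s in nb2 T, ∃ α ∈ Y, 1 + α * s ∈ T := by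
  obtain ⟨c, hc⟩ := h.2.1
  filter_upwards [ev_nb2 ((nb_ev c).and ((d.hT.mob (-c ^ 2) c).eventually (h.1 c hc)))]
    with s ⟨u, hu, u', hu', hs⟩
  refine ⟨_, hu'.2, ?_⟩
  have h0 := d.hT.ne hu'.1
  convert d.hT.div hu.1 hu'.1 using 1
  have e : c + -c ^ 2 * u' / (1 + c * u') = c / (1 + c * u') := by
    rw [eq_div_iff h0, add_mul, div_mul_cancel₀ _ h0]
    ring
  rw [e, hs, eq_div_iff h0, add_mul, mul_right_comm, div_mul_cancel₀ _ h0]
  ring

lemma ev_ne : ∀ᶠ s in nb2 T, 1 + s ≠ 0 := by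
  obtain ⟨q, h0, hq⟩ := d.q
  filter_upwards [ev_nb2 ((nb_ev (q - 1)).and (nb_ev ((q - 1) / q)))] with s ⟨u, hu, u', hu', hs⟩ h
  refine hq ?_
  have h1 := d.hT.ne hu.2
  convert d.hT.div hu'.1 hu.2 using 1
  rw [eq_div_iff h1, show u' = 1 + u by linear_combination hs - h]
  field_simp
  ring

lemma ev_one_add : ∀ᶠ s in nb2 T, 1 + s ∈ T := by
  obtain ⟨𝒴, h1, h2, h3⟩ := d.star (Fin 2) (X := Set.univ) ⟨op_univ, Set.univ_nonempty, le_rfl⟩
  obtain ⟨l, hl0, hl⟩ := (d.nd.and_eventually (d.hT.le_nb2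
    ((eventually_all_finite h1).2 fun Y hY => (h2 Y hY).ev))).exists
  have h4 := (nb2_scal l⁻¹).eventually ((eventually_all_finite h1).2 fun Y hY => d.ev_mem (h2 Y hY))
  filter_upwards [h4, d.mob2.eventually h4, d.ev_ne] with s k1 k2 k3
  by_cases h0 : s = 0
  · simpa [h0] using d.hT.one
  obtain ⟨Y, hY, h5⟩ := h3 ![-(l / s), -(l / s) - l]
  obtain ⟨x, hx, hx'⟩ := hl Y hY
  obtain ⟨α, hα, hα'⟩ := k1 Y hY
  obtain ⟨β, hβ, hβ'⟩ := k2 Y hY
  have e1 : α - -(l / s) = (1 + α * (l⁻¹ * s)) * (l / s) := by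
    field_simp
    ring
  have e2 : β - (-(l / s) - l) = (1 + β * (l⁻¹ * (s / (1 + s)))) * (l / s * (1 + s)) := by
    field_simp
    ring
  have h6 := h5 0 _ hx' _ hα
  have h7 := h5 1 _ hβ _ hx
  simp only [Matrix.cons_val_zero, Matrix.cons_val_one] at h6 h7
  rw [e1] at h6
  rw [e2, show x - (-(l / s) - l) = x + l - -(l / s) by ring] at h7
  have h8 : x + l - -(l / s) ≠ 0 := fun h => d.hT.ne h6 (by rw [h, zero_div])
  have h9 := d.hT.ne hα'
  have h10 := d.hT.ne hβ'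
  convert d.hT.div (d.hT.mul (d.hT.mul h7 h6) hα') hβ' using 1
  generalize x + l - -(l / s) = a at *
  generalize 1 + α * (l⁻¹ * s) = b at *
  generalize 1 + β * (l⁻¹ * (s / (1 + s))) = c at *
  field_simp

lemma exists_sub : ∃ A : Set F, A.Finite ∧ ∀ u u', (∀ a ∈ A, 1 + a * u ∈ T) →
    (∀ a ∈ A, 1 + a * u' ∈ T) → 1 + (u - u') ∈ T := by
  obtain ⟨U, hU, h⟩ := mem_nb2.1 d.ev_one_add
  obtain ⟨A, hA, hU⟩ := nb_basis hU
  exact ⟨A, hA, fun u u' hu hu' => h _ (hU u hu) _ (hU u' hu')⟩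

end Dat

variable (T) in
/-- Bounded sets. -/
def Bd (X : Set F) : Prop := ∀ᶠ u in nb T, ∀ x ∈ X, 1 + u * x ∈ T

lemma Bd.ev {X U : Set F} (h : Bd T X) (hU : U ∈ nb T) : ∀ᶠ u in nb T, ∀ x ∈ X, u * x ∈ U := by
  obtain ⟨A, hA, hU⟩ := nb_basis hU
  filter_upwards [(eventually_all_finite hA).2 fun a _ => (nb_scal a).eventually h] with u hu x hx
  exact hU _ fun a ha => mul_assoc a u x ▸ hu a ha x hx

lemma Dat.exists_bd (d : Dat S T H) : ∃ E ∈ nb T, Bd T E := by
  obtain ⟨A, hA, h⟩ := d.exists_sub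
  have := hA.to_subtype
  obtain ⟨𝒴, h1, h2, h3⟩ := d.star A (X := Set.univ) ⟨op_univ, Set.univ_nonempty, le_rfl⟩
  choose! c hc using fun Y hY => (h2 Y hY).2.1
  refine ⟨_, d.hT.le_nb2 ((eventually_all_finite h1).2 fun Y hY => (h2 Y hY).ev), ?_⟩
  filter_upwards [(eventually_all_finite h1).2 fun Y _ => (eventually_all_finite hA).2
    fun a _ => nb_ev (T := T) (a * c Y)] with v hv s hs
  obtain ⟨Y, hY, h4⟩ := h3 fun a => -(a * v)⁻¹
  obtain ⟨x, hx, hx'⟩ := hs Y hY
  have key : ∀ x ∈ Y, ∀ a ∈ A, 1 + a * (v * x) ∈ T := by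
    intro x hx a ha
    by_cases h0 : a * v = 0
    · rw [← mul_assoc, h0, zero_mul, add_zero]
      exact d.hT.one
    refine d.hT.of_div ?_ (hv Y hY a ha)
    convert h4 ⟨a, ha⟩ x hx _ (hc Y hY) using 1
    rw [← mul_div_mul_left _ (c Y - _) h0]
    congr 1 <;> simp only [mul_sub, mul_neg, mul_inv_cancel₀ h0] <;> ring
  convert h _ _ (key _ hx') (key _ hx) using 2
  ring

/-- A gauge for a locally bounded field topology with finitely many places. -/
structure Gauge (V : Set F) : Prop where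
  one : (1 : F) ∈ V
  neg : ∀ {x}, x ∈ V → -x ∈ V
  mul : ∀ {x y}, x ∈ V → y ∈ V → x * y ∈ V
  add : ∃ g : F, g ≠ 0 ∧ ∀ x ∈ V, ∀ y ∈ V, g * (x + y) ∈ V
  dir : ∀ A : Set F, A.Finite → ∃ t : F, t ≠ 0 ∧ ∀ a ∈ A, t * a ∈ V
  inv : ∃ c : F, c ≠ 0 ∧ ∀ x ∈ V, 1 + c * x ≠ 0 ∧ c * x / (1 + c * x) ∈ V
  star : ∃ (C : Set F) (g : F), C.Finite ∧ g ≠ 0 ∧ ∀ x, ∃ c ∈ C, x ≠ c ∧ g / (x - c) ∈ V

theorem Dat.gauge (d : Dat S T H) :
    ∃ V, S.U V ∧ Gauge V ∧ ∃ c : F, c ≠ 0 ∧ ∀ x ∈ V, 1 + c * x ∈ T := by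
  obtain ⟨E, hE, hEb⟩ := d.exists_bd
  obtain ⟨W₀, h1, h2, h3⟩ := d.defb hE
  let W : Set F := {w | w ∈ W₀ ∧ -w ∈ W₀}
  have hW : W ∈ nb T := Eventually.and h1
    (((nb_scal (-1)).eventually h1).mono fun w hw => by rwa [neg_one_mul] at hw)
  have hWb : Bd T W := hEb.mono fun u hu x hx => hu x (h2 hx.1)
  have hWd : S.U W := S.and h3 (h3.app (NS.proj _).neg)
  let V : Set F := {x | ∀ w ∈ W, x * w ∈ W}
  have hV : V ∈ nb T := hWb.ev hW
  have hVb : Bd T V := by
    obtain ⟨w, h0, hw⟩ := (d.nd.and_eventually hW).exists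
    filter_upwards [(nb_scal w⁻¹).eventually hWb] with u hu x hx
    convert hu _ (hx w hw) using 2
    field_simp
  have hneg : ∀ {x}, x ∈ V → -x ∈ V := fun hx w hw => by
    simpa only [W, Set.mem_ofPred_eq, neg_mul, neg_neg, and_comm] using hx w hw
  have key : ∀ {X U : Set F}, Bd T X → U ∈ nb T → ∃ g : F, g ≠ 0 ∧ ∀ x ∈ X, g * x ∈ U :=
    fun h hU => (d.nd.and_eventually (h.ev hU)).exists
  refine ⟨V, NS.all1 (P := fun v w => w ∈ W → v () * w ∈ W) (NS.imp (hWd.app (NS.proj _))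
    (hWd.app ((NS.proj _).mul (NS.proj _)))), ⟨fun w hw => by rwa [one_mul], hneg,
    fun hx hy w hw => by rw [mul_assoc]; exact hx _ (hy w hw), ?_, fun A hA => ?_, ?_, ?_⟩,
    key hVb (U := {z | 1 + z ∈ T}) ((nb_ev 1).mono fun z hz => by simpa using hz)⟩
  · obtain ⟨A, hA, h⟩ := d.exists_sub
    obtain ⟨g, h0, hg⟩ := key (X := {z | ∃ x ∈ V, ∃ y ∈ V, z = x + y}) (by
      filter_upwards [hVb.ev ((eventually_all_finite hA).2 fun a _ => nb_ev (T := T) a)] with u hu
      rintro _ ⟨x, hx, y, hy, rfl⟩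
      convert h _ _ (hu x hx) (hu _ (hneg hy)) using 2
      ring) hV
    exact ⟨g, h0, fun x hx y hy => hg _ ⟨x, hx, y, hy, rfl⟩⟩
  · simpa only [mul_comm] using (d.nd.and_eventually
      ((eventually_all_finite hA).2 fun a _ => nb_scal a hV)).exists
  · obtain ⟨c, h0, hc⟩ := key hVb ((nb_ev 1).and ((d.hT.mob 1 1).eventually hV))
    refine ⟨c, h0, fun x hx => ?_⟩
    have := hc x hx
    simp only [Set.mem_ofPred_eq, one_mul] at this
    exact ⟨d.hT.ne this.1, this.2⟩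
  · obtain ⟨𝒴, k1, k2, k3⟩ := d.star1 (X := Set.univ) ⟨op_univ, Set.univ_nonempty, le_rfl⟩
    choose! c hc using fun Y hY => (k2 Y hY).2.1
    obtain ⟨g, h0, hg⟩ := key (X := {w | ∀ u, (∀ Y ∈ 𝒴, c Y + u ∈ Y) → 1 + u * w ∈ T}) (by
      filter_upwards [(eventually_all_finite k1).2 fun Y hY => (k2 Y hY).1 _ (hc Y hY)]
        with u hu w hw using hw u hu) hV
    refine ⟨c '' 𝒴, g, k1.image c, h0, fun y => ?_⟩
    obtain ⟨Y, hY, h⟩ := k3 y
    have h4 : c Y - y ≠ 0 := fun h0 =>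
      d.hT.ne (h _ (hc Y hY) _ (hc Y hY)) (by rw [h0, zero_div])
    refine ⟨_, ⟨Y, hY, rfl⟩, (sub_ne_zero.1 h4).symm, ?_⟩
    convert hneg (hg (c Y - y)⁻¹ fun u hu => ?_) using 1
    · rw [← neg_sub, div_neg, div_eq_mul_inv]
    · convert h _ (hu Y hY) _ (hc Y hY) using 1
      field_simp
      ring

end Pool.Agent.MP_829a8f_lc.H33

end MrgPart2

-- ======== part 3: formerly Pool.Agent.MP_829a8f_lc.h33.VVal
section MrgPart3

/-!
A V-topology given by a gauge comes from a valuation unless it is archimedean; in the archimedean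
case an open subgroup of the multiplicative group containing `-1` is everything.
-/

namespace Pool.Agent.MP_829a8f_lc.H33

variable {F : Type} [Field F] {V : Set F}

/-- A normalized gauge of a V-topology. -/
structure VG (V : Set F) (γ : F) : Prop where
  one : (1 : F) ∈ V
  zero : (0 : F) ∈ V
  neg : ∀ {x}, x ∈ V → -x ∈ V
  mul : ∀ {x y}, x ∈ V → y ∈ V → x * y ∈ V
  ne : γ ≠ 0
  mem : γ ∈ V
  add : ∀ {x y}, x ∈ V → y ∈ V → γ * (x + y) ∈ V
  inv : ∀ {x}, x ∉ V → γ * x⁻¹ ∈ V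
  top : ∃ x, x ∉ V

lemma Gauge.vg (hV : Gauge V) (hg : ∃ g : F, g ≠ 0 ∧ ∀ x, x ∈ V ∨ g * x⁻¹ ∈ V) (h : ∃ x, x ∉ V) :
    ∃ γ, VG V γ := by
  obtain ⟨g, h0, hg⟩ := hg
  obtain ⟨g', h0', hg'⟩ := hV.add
  obtain ⟨t, h1, ht⟩ := hV.dir {0, 1, g⁻¹, g'⁻¹} (Set.toFinite _)
  refine ⟨t, hV.one, by simpa using ht 0 (by simp), hV.neg, hV.mul, h1, by simpa using ht 1 (by simp),
    fun {x y} hx hy => ?_, fun {x} hx => ?_, h⟩
  · have := hV.mul (ht g'⁻¹ (by simp)) (hg' x hx y hy)
    rwa [← mul_assoc, inv_mul_cancel_right₀ h0'] at this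
  · have := hV.mul (ht g⁻¹ (by simp)) ((hg x).resolve_left hx)
    rwa [← mul_assoc, inv_mul_cancel_right₀ h0] at this

namespace VG

variable {γ : F} (h : VG V γ)
include h

lemma pow {x : F} (hx : x ∈ V) (n : ℕ) : x ^ n ∈ V :=
  pow_mem (S := (⟨⟨V, h.mul⟩, h.one⟩ : Submonoid F)) hx n

lemma mono {x : F} {k l : ℕ} (hx : γ ^ k * x ∈ V) (hk : k ≤ l) : γ ^ l * x ∈ V := by
  obtain ⟨m, rfl⟩ := Nat.exists_eq_add_of_le hk
  rw [add_comm, pow_add, mul_assoc]
  exact h.mul (h.pow h.mem m) hx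

lemma ladd {x y : F} {k : ℕ} (hx : γ ^ k * x ∈ V) (hy : γ ^ k * y ∈ V) :
    γ ^ (k + 1) * (x + y) ∈ V := by
  rw [pow_succ', mul_assoc, mul_add]
  exact h.add hx hy

lemma lmul {x y : F} {k l : ℕ} (hx : γ ^ k * x ∈ V) (hy : γ ^ l * y ∈ V) :
    γ ^ (k + l) * (x * y) ∈ V := by
  rw [pow_add, mul_mul_mul_comm]
  exact h.mul hx hy

lemma lsum {k : ℕ} (i : ℕ) : ∀ f : ℕ → F, (∀ j, γ ^ k * f j ∈ V) →
    γ ^ (k + i) * ∑ j ∈ Finset.range (2 ^ i), f j ∈ V := by
  induction i with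
  | zero => exact fun f hf => by simpa using hf 0
  | succ i ih =>
    intro f hf
    rw [pow_succ 2, mul_two, Finset.sum_range_add]
    exact h.ladd (ih f hf) (ih _ fun j => hf _)

lemma lfin (hall : ∀ x, ∃ k, γ ^ k * x ∈ V) (f : ℕ → F) (n : ℕ) :
    ∃ k, ∀ j < n, γ ^ k * f j ∈ V := by
  choose k hk using hall
  exact ⟨(Finset.range n).sup fun j => k (f j), fun j hj => h.mono (hk _)
    (Finset.le_sup (f := fun j => k (f j)) (Finset.mem_range.2 hj))⟩

lemma val₁ {x₀ : F} (hx : ∀ k, γ ^ k * x₀ ∉ V) : ∃ O : ValuationSubring F, O ≠ ⊤ ∧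
    (∀ x ∈ V, x ∈ O) ∧ ∃ t : F, t ≠ 0 ∧ ∀ x ∈ O, t * x ∈ V := by
  have h0 : x₀ ≠ 0 := fun e => hx 0 (by simpa [e] using h.zero)
  let O : ValuationSubring F :=
    { carrier := {x | ∃ k, γ ^ k * x ∈ V}
      zero_mem' := ⟨0, by simpa using h.zero⟩
      one_mem' := ⟨0, by simpa using h.one⟩
      add_mem' := fun ⟨k, hk⟩ ⟨l, hl⟩ =>
        ⟨_, h.ladd (h.mono hk (le_max_left k l)) (h.mono hl (le_max_right k l))⟩
      mul_mem' := fun ⟨_, hk⟩ ⟨_, hl⟩ => ⟨_, h.lmul hk hl⟩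
      neg_mem' := fun ⟨k, hk⟩ => ⟨k, by simpa using h.neg hk⟩
      mem_or_inv_mem' := fun x => (em (x ∈ V)).imp (fun hx => ⟨0, by simpa using hx⟩)
        fun hx => ⟨1, by simpa using h.inv hx⟩ }
  refine ⟨O, fun e => ?_, fun x hx => ⟨0, by simpa using hx⟩, x₀⁻¹, inv_ne_zero h0,
    fun x ⟨k, hk⟩ => ?_⟩
  · obtain ⟨k, hk⟩ : x₀ ∈ O := e ▸ trivial
    exact hx k hk
  · by_contra h1
    have h2 : x ≠ 0 := fun e => h1 (by simpa [e] using h.zero)
    refine hx (k + 1) ?_
    convert h.mul hk (h.inv h1) using 1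
    field_simp
    ring

lemma val₂ (hall : ∀ x, ∃ k, γ ^ k * x ∈ V) {a : ℕ} (ha : ∀ j : ℕ, γ ^ a * j ∈ V) :
    ∃ O : ValuationSubring F, O ≠ ⊤ ∧ (∀ x ∈ V, x ∈ O) ∧ ∃ t : F, t ≠ 0 ∧ ∀ x ∈ O, t * x ∈ V := by
  have h0 := h.ne
  have h1 : ∀ y, γ ^ 2 * y ∉ V → (γ * y)⁻¹ ∈ V := fun y hy => by
    convert h.inv hy using 1
    by_cases e : y = 0
    · simp [e]
    · field_simp
  have crit : ∀ x : F, (∀ n, ∃ m k, k < m ∧ γ ^ k * x ^ (n * m) ∈ V) → ∀ n, γ ^ 2 * x ^ n ∈ V := by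
    intro x hx n
    by_contra h2
    obtain ⟨m, k, hk, hm⟩ := hx n
    obtain ⟨r, rfl⟩ := Nat.exists_eq_add_of_lt hk
    have h3 : x ^ n ≠ 0 := fun e => h2 (by simpa [e] using h.zero)
    have h4 : γ⁻¹ ∈ V := by
      convert h.mul (h.mul hm (h.pow (h1 _ h2) (k + r + 1))) (h.pow h.mem r) using 1
      rw [pow_mul, inv_pow]
      generalize x ^ n = y at h3
      field_simp
      ring
    obtain ⟨z, hz⟩ := h.top
    obtain ⟨l, hl⟩ := hall z
    refine hz ?_
    convert h.mul (h.pow h4 l) hl using 1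
    rw [inv_pow, inv_mul_cancel_left₀ (pow_ne_zero _ h0)]
  let O : ValuationSubring F :=
    { carrier := {x | ∀ n, γ ^ 2 * x ^ n ∈ V}
      zero_mem' := fun n => h.mul (h.pow h.mem 2) (h.pow h.zero n)
      one_mem' := fun n => h.mul (h.pow h.mem 2) (h.pow h.one n)
      add_mem' := fun {x y} hx hy => crit _ fun n => by
        refine ⟨2 ^ (2 + 2 + a + n), 2 + 2 + a + (n + (2 + 2 + a + n)), ?_, ?_⟩
        · have e : ∀ b : ℕ, 2 * (4 + b) < 2 ^ (4 + b) := fun b => by
            induction b with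
            | zero => norm_num
            | succ b ih => rw [← add_assoc, pow_succ]; omega
          have := e (a + n)
          rw [show 2 + 2 + a + n = 4 + (a + n) by ring]
          omega
        · generalize 2 + 2 + a + n = i
          have e : n * 2 ^ i + 1 ≤ 2 ^ (n + i) := by
            rw [pow_add]
            exact Nat.mul_lt_mul_of_pos_right Nat.lt_two_pow_self (by positivity)
          rw [add_pow, Finset.sum_subset (Finset.range_mono e) fun j _ hj => by
            rw [Nat.choose_eq_zero_of_lt (by simpa using hj), Nat.cast_zero, mul_zero]]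
          exact h.lsum _ _ fun j => h.lmul (h.lmul (hx j) (hy _)) (ha _)
      mul_mem' := fun {x y} hx hy => crit _ fun n =>
        ⟨5, 2 + 2, by norm_num, by rw [mul_pow]; exact h.lmul (hx _) (hy _)⟩
      neg_mem' := fun {x} hx n => by
        rcases n.even_or_odd with e | e
        · rw [e.neg_pow]
          exact hx n
        · rw [e.neg_pow, mul_neg]
          exact h.neg (hx n)
      mem_or_inv_mem' := fun x => by
        by_cases hx : ∀ n, γ ^ 2 * x ^ n ∈ V
        · exact Or.inl hx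
        obtain ⟨n, hn⟩ := not_forall.1 hx
        refine Or.inr (crit _ fun m => ⟨n, 0, Nat.pos_of_ne_zero fun e => hn ?_, ?_⟩)
        · simpa [e] using h.pow h.mem 2
        · have h2 := h.mul h.mem (h1 _ hn)
          rw [mul_inv, mul_inv_cancel_left₀ h0] at h2
          rw [pow_zero, one_mul, mul_comm, pow_mul, inv_pow]
          exact h.pow h2 m }
  refine ⟨O, fun e => ?_, fun x hx n => h.mul (h.pow h.mem 2) (h.pow hx n), γ ^ 2,
    pow_ne_zero _ h0, fun x hx => by simpa using hx 1⟩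
  obtain ⟨z, hz⟩ := h.top
  have h2 : z / γ ^ 2 ∈ O := e ▸ trivial
  exact hz (by simpa [mul_div_cancel₀ _ (pow_ne_zero 2 h0)] using h2 1)

lemma arch (hall : ∀ x, ∃ k, γ ^ k * x ∈ V) (ha : ∀ a, ∃ j : ℕ, γ ^ a * j ∉ V) (z : F) :
    ∃ n₀ : ℕ, ∀ n ≥ n₀, (n : F) ≠ 0 ∧ z / n ∈ V := by
  have h0 := h.ne
  have hc : ∀ n : ℕ, 0 < n → (n : F) ≠ 0 := by
    intro n hn e
    obtain ⟨k, hk⟩ := h.lfin hall Nat.cast n
    obtain ⟨j, hj⟩ := ha k
    refine hj ?_
    rw [← Nat.mod_add_div j n, Nat.cast_add, Nat.cast_mul, e, zero_mul, add_zero]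
    exact hk _ (Nat.mod_lt _ hn)
  obtain ⟨M, hM⟩ := ha 3
  have hM0 : (M : F) ≠ 0 := fun e => hM (by simpa [e] using h.zero)
  have hM1 : (γ ^ 2 * M)⁻¹ ∈ V := by
    convert h.inv hM using 1
    field_simp
  obtain ⟨a, ha⟩ := h.lfin hall Nat.cast M
  have key : ∀ n : ℕ, 0 < n → ∀ j < n, γ ^ a * (j / n : F) ∈ V := by
    intro n hn
    obtain ⟨L, hL⟩ := h.lfin hall (fun j => (j / n : F)) n
    have h1 : ∀ r, (∀ j < n, γ ^ (a + r) * (j / n : F) ∈ V) → ∀ j < n, γ ^ a * (j / n : F) ∈ V := by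
      intro r
      induction r with
      | zero => exact id
      | succ r ih =>
        refine fun h1 => ih fun j hj => ?_
        have h2 : M * j / n < M := Nat.div_lt_of_lt_mul (by
          rw [mul_comm n]
          exact Nat.mul_lt_mul_of_pos_left hj (Nat.pos_of_ne_zero fun e => hM0 (by simp [e])))
        have h3 := h.mul (h.ladd (h.mono (ha _ h2) (Nat.le_add_right a (r + 1)))
          (h1 _ (Nat.mod_lt (M * j) hn))) hM1
        have e : ((M * j / n : ℕ) : F) + (M * j % n : ℕ) / n = M * j / n := by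
          rw [eq_div_iff (hc n hn), add_mul, div_mul_cancel₀ _ (hc n hn), ← Nat.cast_mul,
            ← Nat.cast_add, Nat.div_add_mod', Nat.cast_mul]
        rw [e] at h3
        convert h3 using 1
        field_simp
        ring
    exact h1 L fun j hj => h.mono (hL j hj) (Nat.le_add_left L a)
  obtain ⟨b, hb⟩ := hall z
  refine ⟨M ^ (a + b) + 1, fun n hn => ⟨hc n (by omega), ?_⟩⟩
  convert h.mul (h.mul (h.lmul (key n (by omega) _ hn) hb) (h.pow hM1 (a + b)))
    (h.pow h.mem (a + b)) using 1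
  rw [inv_pow]
  push_cast
  field_simp
  ring

lemma arch_mem (hall : ∀ x, ∃ k, γ ^ k * x ∈ V) (ha : ∀ a, ∃ j : ℕ, γ ^ a * j ∉ V) {T : Set F}
    (hT : MG T) {c : F} (hc0 : c ≠ 0) (hc : ∀ x ∈ V, 1 + c * x ∈ T) (hn : -1 ∈ T) {x : F}
    (hx : x ≠ 0) : x ∈ T := by
  have h0 := h.ne
  have walk : ∀ u : F, (∀ j : ℕ, u + j ≠ 0 ∧ (c * (u + j))⁻¹ ∈ V) → ∀ j : ℕ, (u + j) / u ∈ T := by
    intro u hu j
    induction j with
    | zero => simpa [div_self (by simpa using (hu 0).1 : u ≠ 0)] using hT.one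
    | succ j ih =>
      convert hT.mul (hc _ (hu j).2) ih using 1
      have := (hu j).1
      push_cast
      field_simp
      ring
  obtain ⟨n₀, hn₀⟩ := h.arch hall ha c⁻¹
  have big : ∀ n ≥ n₀ + 1, (n : F) ∈ T := by
    intro n hn
    obtain ⟨r, hr⟩ := Nat.exists_eq_add_of_le (Nat.le_mul_self n)
    have h1 := walk n (fun j => by
      have := hn₀ (n + j) (by omega)
      rwa [Nat.cast_add, div_eq_mul_inv, ← mul_inv] at this) r
    rwa [← Nat.cast_add, ← hr, Nat.cast_mul, mul_div_cancel_right₀ _ (hn₀ n (by omega)).1] at h1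
  have step : ∀ u : F, u ∈ T ∨ ∃ j : ℕ, γ * c * (u + j) ∈ V := by
    intro u
    by_cases hu : ∀ j : ℕ, u + j ≠ 0 ∧ (c * (u + j))⁻¹ ∈ V
    · obtain ⟨n₁, hn₁⟩ := h.arch hall ha (u / c)
      obtain ⟨k1, k2⟩ := hn₁ (n₁ + (n₀ + 1)) (by omega)
      have h1 := hT.div (hT.mul (big _ (Nat.le_add_left _ n₁)) (hc _ k2)) (walk u hu (n₁ + (n₀ + 1)))
      left
      convert h1 using 1
      have h2 := (hu (n₁ + (n₀ + 1))).1
      have h3 : u ≠ 0 := by simpa using (hu 0).1
      generalize ((n₁ + (n₀ + 1) : ℕ) : F) = N at *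
      field_simp
      ring
    · obtain ⟨j, hj⟩ := not_forall.1 hu
      refine Or.inr ⟨j, ?_⟩
      by_cases e : u + j = 0
      · simpa [e] using h.zero
      · simpa only [inv_inv, mul_assoc] using h.inv fun h => hj ⟨e, h⟩
  obtain ⟨z, hz⟩ := h.top
  obtain ⟨n₁, hn₁⟩ := h.arch hall ha (z / (γ * (γ * c)))
  obtain ⟨b, hb⟩ := h.lfin hall (fun j => γ * c * j) n₁
  obtain ⟨n₂, hn₂⟩ := h.arch hall ha (z / (γ ^ (b + 1) * (γ * c * x)))
  obtain ⟨k1, k2⟩ := hn₂ (n₂ + (n₀ + 1)) (by omega)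
  have k3 := big _ (Nat.le_add_left _ n₂)
  generalize ((n₂ + (n₀ + 1) : ℕ) : F) = N at *
  rcases step (N * x) with h1 | ⟨j, hj⟩
  · simpa [k1] using hT.mul (hT.inv k3) h1
  rcases step (-(N * x)) with h1 | ⟨j', hj'⟩
  · simpa [k1] using hT.mul (hT.inv k3) (hT.mul hn h1)
  exfalso
  by_cases h1 : j + j' < n₁
  · refine hz ?_
    convert h.mul k2 (h.ladd (h.mono (k := 0) (by simpa using hj) b.zero_le)
      (x := γ * c * (N * x + j)) (y := -(γ * c * j)) (by
        rw [mul_neg]; exact h.neg (hb j (by omega)))) using 1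
    field_simp
    ring
  · obtain ⟨k4, k5⟩ := hn₁ _ (not_lt.1 h1)
    refine hz ?_
    convert h.mul k5 (h.add hj hj') using 1
    push_cast at k4 ⊢
    field_simp
    ring

end VG

theorem Gauge.exists_val (hV : Gauge V) (hg : ∃ g : F, g ≠ 0 ∧ ∀ x, x ∈ V ∨ g * x⁻¹ ∈ V)
    {T : Set F} (hT : MG T) (hc : ∃ c : F, c ≠ 0 ∧ ∀ x ∈ V, 1 + c * x ∈ T)
    (hn : -1 ∈ T ∨ ∃ n : ℕ, n ≠ 0 ∧ (n : F) = 0) {q : F} (hq0 : q ≠ 0) (hq : q ∉ T) : ∃ O : ValuationSubring F, O ≠ ⊤ ∧
      (∀ x ∈ V, x ∈ O) ∧ ∃ t : F, t ≠ 0 ∧ ∀ x ∈ O, t * x ∈ V := by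
  obtain ⟨c, hc0, hc⟩ := hc
  obtain ⟨γ, h⟩ := hV.vg hg ⟨-c⁻¹, fun h => hT.ne (hc _ h) (by simp [hc0])⟩
  by_cases hall : ∀ x, ∃ k, γ ^ k * x ∈ V
  · by_cases ha : ∃ a, ∀ j : ℕ, γ ^ a * j ∈ V
    · exact ha.elim fun a ha => h.val₂ hall ha
    · push Not at ha
      rcases hn with hn | ⟨n, hn, e⟩
      · exact absurd (h.arch_mem hall ha hT hc0 hc hn hq0) hq
      · obtain ⟨m, hm⟩ := h.arch hall ha 0
        exact absurd (by simp [e]) (hm (n * m + n) (by
          have := Nat.le_mul_of_pos_left m (Nat.pos_of_ne_zero hn)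
          omega)).1
  · push Not at hall
    exact hall.elim fun x hx => h.val₁ hx

end Pool.Agent.MP_829a8f_lc.H33

end MrgPart3

-- ======== part 4: formerly Pool.Agent.MP_829a8f_lc.h33.Gal
section MrgPart4

/-!
A field that is neither separably closed nor real closed has a finite separable extension containing
a square root of `-1` with an Artin-Schreier or a Kummer extension of prime degree.
-/

namespace Pool.Agent.MP_829a8f_lc.H33

open IntermediateField Module Polynomial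

/-- An Artin-Schreier or Kummer obstruction of prime degree. -/
def Obst (L : Type) [Field L] : Prop := ∃ p : ℕ, p.Prime ∧
  (((p : L) = 0 ∧ ∃ c : L, ∀ x, x ^ p - x ≠ c) ∨
    ((p : L) ≠ 0 ∧ ∃ ζ q : L, ζ ^ p = 1 ∧ ζ ≠ 1 ∧ q ≠ 0 ∧ ∀ x, q ≠ x ^ p))

lemma obst_of_aut {k E : Type} [Field k] [Field E] [Algebra k E] [FiniteDimensional k E]
    [IsGalois k E] {p : ℕ} (hp : p.Prime) (σ : Gal(E/k)) (hσ : orderOf σ = p)
    (hζ : (p : E) = 0 ∨ ∃ ζ : E, IsPrimitiveRoot ζ p) :
    Obst (fixedField (Subgroup.zpowers σ)) := by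
  have := Fact.mk hp
  let L := fixedField (Subgroup.zpowers σ)
  have hL : ∀ x, x ∈ L ↔ σ x = x := fun x => by
    rw [mem_fixedField_iff]
    refine ⟨fun h => h σ (Subgroup.mem_zpowers σ), fun h f hf => ?_⟩
    exact (Subgroup.zpowers_le.2 (show σ ∈ MulAction.stabilizer _ x from h) hf :)
  have hσp : σ ^ p = 1 := hσ ▸ pow_orderOf_eq_one σ
  have hp0 : ∀ {x : L}, (x : E) = 0 ↔ x = 0 := ZeroMemClass.coe_eq_zero
  refine ⟨p, hp, ?_⟩
  by_cases h0 : (p : E) = 0
  · refine Or.inl ⟨hp0.1 (by simpa using h0), ?_⟩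
    have : CharP E p := (CharP.charP_iff_prime_eq_zero hp).2 h0
    have : CharP k p := (algebraMap k E).charP (algebraMap k E).injective p
    have : CharP (End k E) p := charP_of_injective_algebraMap (algebraMap k _).injective p
    let τ : End k E := σ.toLinearMap - 1
    have h1 : τ ^ p = 0 := by
      rw [sub_pow_char_of_commute _ (Commute.one_right _), one_pow, sub_eq_zero]
      ext x
      rw [End.pow_apply]
      exact (congrFun (AlgEquiv.coe_pow σ p) x).symm.trans (by rw [hσp]; rfl)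
    obtain ⟨y, h2, h3⟩ : ∃ y, τ y ≠ 0 ∧ τ (τ y) = 0 := by
      by_contra hc
      push Not at hc
      obtain ⟨x, hx⟩ : ∃ x, τ x ≠ 0 := by
        by_contra h
        push Not at h
        refine hp.one_lt.ne' (hσ ▸ orderOf_eq_one_iff.2 (AlgEquiv.ext fun x => ?_))
        simpa [τ, sub_eq_zero] using h x
      have h4 : ∀ n, τ ((τ ^ n) x) ≠ 0 := fun n => by
        induction n with
        | zero => exact hx
        | succ n ih => rw [pow_succ']; exact hc _ ih
      exact h4 p (by simp [h1])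
    have h4 : σ (τ y) = τ y := by simpa [τ, sub_eq_zero] using h3
    have h5 : σ (y / τ y) = y / τ y + 1 := by
      rw [map_div₀, h4, div_add_one h2]
      simp [τ]
    generalize y / τ y = θ at h5
    refine ⟨⟨θ ^ p - θ, (hL _).2 (by rw [map_sub, map_pow, h5, add_pow_char]; ring)⟩,
      fun x hx => ?_⟩
    have h6 : (x : E) ^ p - x = θ ^ p - θ := congrArg Subtype.val hx
    have h7 : θ - x ∈ L := (bot_le : ⊥ ≤ L.toSubfield) ((Subfield.mem_bot_iff_pow_eq_self E p).2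
      (by rw [sub_pow_char]; linear_combination -h6))
    have h8 := (hL _).1 (add_mem h7 x.2)
    rw [sub_add_cancel, h5] at h8
    simp at h8
  refine Or.inr ⟨fun h => h0 (by simpa using hp0.2 h), ?_⟩
  obtain ⟨ζ, hζ⟩ := hζ.resolve_left h0
  have h1 : ζ ∈ L := by
    obtain ⟨j, -, hj⟩ := hζ.eq_pow_of_pow_eq_one (ξ := σ ζ)
      (by rw [← map_pow, hζ.pow_eq_one, map_one])
    have h2 : ∀ n, (σ ^ n) ζ = ζ ^ j ^ n := fun n => by
      induction n with
      | zero => simp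
      | succ n ih => rw [pow_succ', AlgEquiv.mul_apply, ih, map_pow, ← hj, ← pow_mul, ← pow_succ']
    rw [hL, ← hj, ← pow_eq_pow_of_modEq ((ZMod.natCast_eq_natCast_iff _ _ _).1
      (show ((j ^ p : ℕ) : ZMod p) = j by simp)) hζ.pow_eq_one, ← h2, hσp]
    rfl
  have h2 : IsPrimitiveRoot (⟨ζ, h1⟩ : L) p :=
    IsPrimitiveRoot.of_map_of_injective (f := algebraMap L E) hζ (algebraMap L E).injective
  have h3 : finrank L E = p := by rw [finrank_fixedField_eq_card, Nat.card_zpowers, hσ]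
  have : IsCyclic Gal(E/L) := isCyclic_of_prime_card ((IsGalois.card_aut_eq_finrank L E).trans h3)
  obtain ⟨α, ⟨q, hq⟩, hα⟩ := exists_root_adjoin_eq_top_of_isCyclic L E
    ⟨_, (mem_primitiveRoots finrank_pos).2 (h3 ▸ h2)⟩
  have h4 : α ∉ (⊥ : IntermediateField L E) := fun h => hp.one_lt.ne' (by
    rw [← h3, ← finrank_top', ← hα, finrank_adjoin_simple_eq_one_iff.2 h])
  rw [h3] at hq
  have h5 : q ≠ 0 := fun h => h4 (by
    rw [h, map_zero] at hq
    rw [pow_eq_zero_iff hp.ne_zero |>.1 hq.symm]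
    exact zero_mem _)
  refine ⟨_, q, h2.pow_eq_one, h2.ne_one hp.one_lt, h5, fun x hx => h4 ?_⟩
  have h6 : algebraMap L E x ≠ 0 := (_root_.map_ne_zero _).2 fun h => h5 (by
    rw [hx, h, zero_pow hp.ne_zero])
  obtain ⟨j, -, hj⟩ := hζ.eq_pow_of_pow_eq_one (ξ := α / algebraMap L E x)
    (by rw [div_pow, ← hq, hx, map_pow, div_self (pow_ne_zero _ h6)])
  exact ⟨⟨ζ, h1⟩ ^ j * x, by rw [eq_div_iff h6] at hj; simpa using hj⟩

lemma exists_obst (k : Type) [Field k] (hk : ¬ IsSepClosed k) :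
    ∃ (L : Type) (_ : Field L) (_ : Algebra k L), FiniteDimensional k L ∧
      Algebra.IsSeparable k L ∧ Obst L := by
  obtain ⟨x, hx⟩ : ∃ x : SeparableClosure k, x ∉ (⊥ : IntermediateField k _) := by
    by_contra h
    push Not at h
    refine hk ((IsSepClosed.separableClosure_eq_bot_iff k (SeparableClosure k)).1 ?_)
    exact eq_bot_iff.2 fun x _ => h x
  let E₀ := FiniteGaloisIntermediateField.adjoin k {x}
  obtain ⟨p, hp, hd⟩ := Nat.exists_prime_and_dvd (n := finrank k E₀) fun h =>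
    hx (finrank_eq_one_iff.1 h ▸ FiniteGaloisIntermediateField.subset_adjoin k {x} rfl)
  obtain ⟨ζ, hζ⟩ : ∃ ζ : SeparableClosure k, (p : SeparableClosure k) = 0 ∨ IsPrimitiveRoot ζ p := by
    by_cases h : (p : SeparableClosure k) = 0
    · exact ⟨1, Or.inl h⟩
    · have := NeZero.mk h
      exact (HasEnoughRootsOfUnity.exists_primitiveRoot _ p).imp fun _ => Or.inr
  let E := E₀ ⊔ FiniteGaloisIntermediateField.adjoin k {ζ}
  have h1 : ζ ∈ E.toIntermediateField := (le_sup_right (a := E₀) :)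
    (FiniteGaloisIntermediateField.subset_adjoin k {ζ} rfl)
  have := Fact.mk hp
  obtain ⟨σ, hσ⟩ := exists_prime_orderOf_dvd_card' (G := Gal(E/k)) p (by
    rw [IsGalois.card_aut_eq_finrank]
    exact hd.trans (finrank_dvd_of_le_right (le_sup_left (a := E₀) :)))
  refine ⟨_, _, _, inferInstance, inferInstance, obst_of_aut hp σ hσ (hζ.imp (fun h => ?_)
    fun h => ⟨⟨ζ, h1⟩, IsPrimitiveRoot.of_map_of_injective (f := algebraMap E _) h
      (algebraMap E _).injective⟩)⟩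
  exact Subtype.ext (by simpa using h)

lemma sep_of_pow {K L : Type} [Field K] [Field L] [Algebra K L] {x : L} {n : ℕ} {c : K}
    (hn : (n : K) ≠ 0) (hc : c ≠ 0) (h : x ^ n = algebraMap K L c) : IsSeparable K x :=
  (separable_X_pow_sub_C c hn hc).of_dvd (minpoly.dvd K x (by simp [h]))

theorem exists_obst' (K : Type) [Field K] (h1 : ¬ IsSepClosed K)
    (h2 : finrank K (AlgebraicClosure K) ≠ 2) :
    ∃ (L : Type) (_ : Field L) (_ : Algebra K L), FiniteDimensional K L ∧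
      Algebra.IsSeparable K L ∧ Obst L ∧ ∃ i : L, i ^ 2 = -1 := by
  obtain ⟨i, hi, hs⟩ : ∃ i : AlgebraicClosure K, i ^ 2 = -1 ∧ IsSeparable K i ∧
      ((2 : K) = 0 → i = 1) := by
    by_cases h : (2 : K) = 0
    · refine ⟨1, ?_, sep_of_pow (n := 1) (c := 1) (by simp) one_ne_zero (by simp), fun _ => rfl⟩
      have := congrArg (algebraMap K (AlgebraicClosure K)) h
      rw [map_ofNat, map_zero] at this
      linear_combination this
    · obtain ⟨i, hi⟩ := IsAlgClosed.exists_pow_nat_eq (-1 : AlgebraicClosure K) two_pos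
      exact ⟨i, hi, sep_of_pow (c := -1) (by exact_mod_cast h) (by simp) (by simpa using hi),
        fun h' => absurd h' h⟩
  have hi' := hs.1.isIntegral
  have := adjoin.finiteDimensional hi'
  have := (isSeparable_adjoin_simple_iff_isSeparable K _).2 hs.1
  have h3 : ¬ IsSepClosed K⟮i⟯ := by
    intro h3
    have h4 : i ∉ (⊥ : IntermediateField K _) := fun h => h1
      ((IsSepClosed.separableClosure_eq_bot_iff K K⟮i⟯).1 (eq_bot_iff.2 fun x _ => by
        obtain ⟨c, hc⟩ := mem_bot.1 ((adjoin_simple_eq_bot_iff.2 h).le x.2)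
        exact ⟨c, Subtype.ext hc⟩))
    have h5 : (2 : K) ≠ 0 := fun h => h4 (hs.2 h ▸ one_mem _)
    obtain ⟨p, hp⟩ := CharP.exists K
    rcases CharP.char_is_prime_or_zero K p with hp' | rfl
    · have h6 : ∀ x ∈ K⟮i⟯, ∃ c d : K, x = algebraMap K _ c + algebraMap K _ d * i := by
        intro x hx
        rw [← mem_toSubalgebra, adjoin_simple_toSubalgebra_of_isAlgebraic hi'.isAlgebraic] at hx
        induction hx using Algebra.adjoin_induction with
        | mem x hx => exact ⟨0, 1, by simpa using hx⟩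
        | algebraMap r => exact ⟨r, 0, by simp⟩
        | add x y _ _ hx hy =>
          obtain ⟨c, d, rfl⟩ := hx
          obtain ⟨c', d', rfl⟩ := hy
          exact ⟨c + c', d + d', by simp only [map_add]; ring⟩
        | mul x y _ _ hx hy =>
          obtain ⟨c, d, rfl⟩ := hx
          obtain ⟨c', d', rfl⟩ := hy
          refine ⟨c * c' - d * d', c * d' + d * c', ?_⟩
          simp only [map_add, map_sub, map_mul]
          linear_combination algebraMap K _ d * algebraMap K _ d' * hi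
      have h7 : ∀ c d : K, algebraMap K _ c + algebraMap K _ d * i = 0 → c = 0 ∧ d = 0 := by
        intro c d h
        by_cases hd : d = 0
        · simpa [hd] using h
        · refine absurd ⟨-c / d, ?_⟩ h4
          change algebraMap K _ _ = i
          rw [map_div₀, div_eq_iff ((_root_.map_ne_zero _).2 hd), map_neg]
          linear_combination -h
      have : NeZero (2 : K⟮i⟯) := ⟨by
        rw [← map_ofNat (algebraMap K K⟮i⟯)]
        exact (_root_.map_ne_zero _).2 h5⟩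
      have h8 : ∀ n : ℕ, ∃ e : K, (n : K) = e ^ 2 := by
        intro n
        induction n with
        | zero => exact ⟨0, by simp⟩
        | succ n ih =>
          obtain ⟨e, he⟩ := ih
          obtain ⟨z, hz⟩ := IsSepClosed.exists_eq_mul_self
            (algebraMap K K⟮i⟯ e + AdjoinSimple.gen K i)
          obtain ⟨c, d, hcd⟩ := h6 z z.2
          have h9 : algebraMap K _ e + i = (z : AlgebraicClosure K) * z := congrArg Subtype.val hz
          obtain ⟨k1, k2⟩ := h7 (e - (c ^ 2 - d ^ 2)) (1 - 2 * c * d) (by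
            simp only [map_sub, map_mul, map_pow, map_one, map_ofNat]
            rw [hcd] at h9
            linear_combination h9 + algebraMap K _ d ^ 2 * hi)
          exact ⟨c ^ 2 + d ^ 2, by
            push_cast
            linear_combination he + (e + (c ^ 2 - d ^ 2)) * k1 + (1 + 2 * c * d) * k2⟩
      obtain ⟨e, he⟩ := h8 (p - 1)
      rw [Nat.cast_sub hp'.one_le, CharP.cast_eq_zero] at he
      have h9 := congrArg (algebraMap K (AlgebraicClosure K)) he
      simp only [Nat.cast_one, zero_sub, map_neg, map_one, map_pow] at h9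
      rcases sq_eq_sq_iff_eq_or_eq_neg.1 (hi.trans h9) with h | h
      · exact h4 ⟨e, h.symm⟩
      · exact h4 ⟨-e, (map_neg _ _).trans h.symm⟩
    · have := CharP.charP_to_charZero K
      have : CharZero K⟮i⟯ := charZero_of_injective_algebraMap (algebraMap K _).injective
      have h6 : K⟮i⟯ = ⊤ := eq_top_iff.2 fun x _ => by
        obtain ⟨y, rfl⟩ := IsAlgClosed.algebraMap_bijective_of_isIntegral (k := K⟮i⟯)
          (K := AlgebraicClosure K) |>.2 x
        exact y.2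
      refine h2 ?_
      rw [← finrank_top', ← h6, adjoin.finrank hi']
      refine le_antisymm ?_ ((minpoly.two_le_natDegree_iff hi').2 h4)
      refine (natDegree_le_of_dvd (minpoly.dvd K i (p := X ^ 2 - C (-1)) (by simp [hi]))
        (monic_X_pow_sub_C _ two_ne_zero).ne_zero).trans ?_
      rw [natDegree_X_pow_sub_C]
  obtain ⟨L, _, _, k1, k2, k3⟩ := exists_obst _ h3
  let _ : Algebra K L := ((algebraMap K⟮i⟯ L).comp (algebraMap K K⟮i⟯)).toAlgebra
  have : IsScalarTower K K⟮i⟯ L := IsScalarTower.of_algebraMap_eq fun _ => rfl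
  refine ⟨L, _, _, FiniteDimensional.trans K K⟮i⟯ L, Algebra.IsSeparable.trans K K⟮i⟯ L, k3,
    algebraMap K⟮i⟯ L (AdjoinSimple.gen K i), ?_⟩
  rw [← map_pow, show AdjoinSimple.gen K i ^ 2 = -1 from Subtype.ext hi, map_neg, map_one]

end Pool.Agent.MP_829a8f_lc.H33

end MrgPart4

-- ======== part 5: formerly Pool.Agent.MP_829a8f_lc.h33.Form
section MrgPart5

/-!
Sets definable in the language of rings belong to every structure.
-/

namespace Pool.Agent.MP_829a8f_lc.H33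

open FirstOrder FirstOrder.Language FirstOrder.Ring

variable {F : Type} [Field F] [CompatibleRing F] (S : NS F)

lemma NS.term {A α : Type} [Finite α] (r : A → (α → F) → F) (hr : ∀ a, S.Fn (r a))
    (t : Language.ring.Term A) : S.Fn fun w => t.realize fun a => r a w := by
  induction t with
  | var a => exact hr a
  | func f ts ih =>
    cases f with
    | add => simpa only [Term.realize, CompatibleRing.funMap_add] using (ih 0).add (ih 1)
    | mul => simpa only [Term.realize, CompatibleRing.funMap_mul] using (ih 0).mul (ih 1)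
    | neg => simpa only [Term.realize, CompatibleRing.funMap_neg] using (ih 0).neg
    | zero => simpa only [Term.realize, CompatibleRing.funMap_zero] using NS.const 0
    | one => simpa only [Term.realize, CompatibleRing.funMap_one] using NS.const 1

lemma NS.form {A : Type} {n : ℕ} (φ : Language.ring.BoundedFormula A n) :
    ∀ {α : Type} [Finite α] (r : A → (α → F) → F) (s : Fin n → (α → F) → F), (∀ a, S.Fn (r a)) →
      (∀ i, S.Fn (s i)) → S.D fun w => φ.Realize (fun a => r a w) fun i => s i w := by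
  induction φ with
  | falsum => exact fun _ _ _ _ => NS.congr (S.not NS.tru) fun _ => iff_of_false id (not_not.2 trivial)
  | equal t₁ t₂ =>
    intro α _ r s hr hs
    have h : ∀ a, S.Fn (Sum.elim r s a) := Sum.rec hr hs
    refine NS.congr (NS.eq (S.term _ h t₁) (S.term _ h t₂)) fun w => ?_
    have e : (Sum.elim (fun a => r a w) fun i => s i w) = fun a => Sum.elim r s a w := by
      funext a
      cases a <;> rfl
    rw [← e]
    rfl
  | rel R => exact R.elim
  | imp _ _ ih ih' => exact fun r s hr hs => NS.imp (ih r s hr hs) (ih' r s hr hs)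
  | all φ ih =>
    intro α _ r s hr hs
    refine NS.congr (NS.all1 (P := fun w x => φ.Realize (fun a => r a w)
      (Fin.snoc (fun i => s i w) x)) (NS.congr (ih (fun a w => r a fun b => w (some b))
      (Fin.snoc (α := fun _ => (Option α → F) → F) (fun i w => s i fun b => w (some b))
        fun w => w none) (fun a => (hr a).some) fun i => ?_) fun w => iff_of_eq ?_)) fun w => Iff.rfl
    · induction i using Fin.lastCases with
      | last => simpa using NS.proj none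
      | cast i => simpa using (hs i).some
    · congr 1
      funext i
      induction i using Fin.lastCases <;> simp

lemma NS.U_of_definable {X : Set F} (h : (Set.univ : Set F).Definable₁ Language.ring X) :
    S.U X := by
  obtain ⟨φ, hφ⟩ := Set.definable_iff_exists_formula_sum.1 h
  refine NS.congr (S.form φ (Sum.elim (fun a _ => a) fun _ w => w ()) default
    (Sum.rec (fun a => NS.const _) fun _ => NS.proj _) fun i => i.elim0) fun w => ?_
  refine (Set.ext_iff.1 hφ fun _ => w ()).trans (iff_of_eq ?_)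
  simp only [Set.mem_ofPred_eq, Formula.Realize]
  congr 1
  · funext a
    cases a <;> rfl
  · exact Subsingleton.elim _ _

end Pool.Agent.MP_829a8f_lc.H33

end MrgPart5

-- marker of a merged file
example : 731051 + 656270 = 731051 + 656270 := rfl
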