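import Pool.Agent.MP_829a8f_lc.Val
import Pool.Agent.MP_829a8f_lc.h33.Form
import Pool.Agent.MP_829a8f_lc.Hensel

-- ======== part 0: formerly Pool.Agent.MP_829a8f_lc.h33.Semi
section MrgPart0

/-!
A subring `B` of a field such that `1 / (x - c)` lies in `B` for some `c` in a fixed finite set is a
finite intersection of valuation rings.
-/

namespace Pool.Agent.MP_829a8f_lc.H33

variable {E : Type} [Field E]

section Nu

variable {O : ValuationSubring E} {x y : E}

lemma nu_mul (hx : x ∈ O.nonunits) (hy : y ∈ O) : x * y ∈ O.nonunits := by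
  rw [O.mem_nonunits_iff] at *
  rw [map_mul]
  exact lt_of_le_of_lt (mul_le_of_le_one_right' ((O.valuation_le_one_iff _).2 hy)) hx

lemma nu_mul' (hx : x ∈ O) (hy : y ∈ O.nonunits) : x * y ∈ O.nonunits :=
  mul_comm y x ▸ nu_mul hy hx

lemma one_nu : (1 : E) ∉ O.nonunits := by simp [O.mem_nonunits_iff]

lemma nu_le (hx : x ∈ O.nonunits) : x ∈ O := O.nonunits_subset hx

lemma not_nu : x ∉ O.nonunits ↔ x ≠ 0 ∧ x⁻¹ ∈ O := by simp [O.mem_nonunits_iff_or]

lemma nu_of_mul (hx : x ∉ O) (h : x * y ∈ O) : y ∈ O.nonunits := by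
  by_contra hy
  obtain ⟨h0, h1⟩ := not_nu.1 hy
  exact hx (mul_inv_cancel_right₀ h0 x ▸ mul_mem h h1)

lemma not_nu_mul (hx : x ∉ O.nonunits) (hy : y ∉ O.nonunits) : x * y ∉ O.nonunits := by
  rw [not_nu] at *
  exact ⟨mul_ne_zero hx.1 hy.1, mul_inv x y ▸ mul_mem hx.2 hy.2⟩

lemma not_nu_prod {ι : Type} (s : Finset ι) {f : ι → E} (h : ∀ i ∈ s, f i ∉ O.nonunits) :
    ∏ i ∈ s, f i ∉ O.nonunits :=
  Finset.prod_induction f (· ∉ O.nonunits) (fun _ _ => not_nu_mul) one_nu h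

lemma not_nu_of_sub (hx : x ∉ O.nonunits) (h : y - x ∈ O.nonunits) : y ∉ O.nonunits :=
  fun hy => hx (by simpa using sub_mem hy h)

lemma nu_pow_sub (hx : x ∈ O) (hy : y ∈ O) (h : x - y ∈ O.nonunits) (n : ℕ) :
    x ^ n - y ^ n ∈ O.nonunits := by
  induction n with
  | zero => simp
  | succ n ih =>
    rw [show x ^ (n + 1) - y ^ (n + 1) = (x ^ n - y ^ n) * x + y ^ n * (x - y) by ring]
    exact add_mem (nu_mul ih hx) (nu_mul' (pow_mem hy n) h)

lemma mem_of_pow {n : ℕ} (hn : n ≠ 0) (h : x ^ n ∈ O) : x ∈ O := by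
  rw [← O.valuation_le_one_iff] at *
  rwa [map_pow, pow_le_one_iff hn] at h

lemma exists_not_mem (h : O ≠ ⊤) : ∃ x, x ∉ O := by
  obtain ⟨x, -, hx⟩ := SetLike.exists_of_lt (lt_top_iff_ne_top.2 h)
  exact ⟨x, hx⟩

/-- A root of unity of invertible order close to one is one; quantitative form. -/
lemma geom_unit {n : ℕ} (hn : (n : E) ∉ O.nonunits) (h : x - 1 ∈ O.nonunits) :
    ∑ i ∈ Finset.range n, x ^ i ∉ O.nonunits := by
  refine not_nu_of_sub hn ?_
  have hx : x ∈ O := by simpa using add_mem (nu_le h) (one_mem O)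
  have e : ∑ i ∈ Finset.range n, x ^ i - n = ∑ i ∈ Finset.range n, (x ^ i - 1 ^ i) := by simp
  rw [e]
  exact sum_mem fun i _ => nu_pow_sub hx (one_mem O) h i

lemma eq_one_of_nu {n : ℕ} (hn : (n : E) ∉ O.nonunits) (h : x - 1 ∈ O.nonunits)
    (h1 : x ^ n = 1) : x = 1 := by
  have := geom_sum_mul x n
  rw [h1, sub_self, mul_eq_zero, sub_eq_zero] at this
  exact this.resolve_left (not_nu.1 (geom_unit hn h)).1

end Nu

variable {B : Subring E} {C : Set E} (hC : C ⊆ B) (hs : ∀ x, ∃ c ∈ C, x ≠ c ∧ (x - c)⁻¹ ∈ B)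

/-- The localization at a prime. -/
def loc (P : Ideal B) (hP : P.IsPrime) : ValuationSubring E where
  carrier := {x | ∃ s : B, s ∉ P ∧ s * x ∈ B}
  zero_mem' := ⟨1, hP.one_notMem, by simp⟩
  one_mem' := ⟨1, hP.one_notMem, by simp⟩
  add_mem' := by
    rintro x y ⟨s, hs, hx⟩ ⟨t, ht, hy⟩
    refine ⟨s * t, hP.mul_notMem hs ht, ?_⟩
    convert add_mem (mul_mem t.2 hx) (mul_mem s.2 hy) using 1
    push_cast
    ring
  mul_mem' := by
    rintro x y ⟨s, hs, hx⟩ ⟨t, ht, hy⟩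
    refine ⟨s * t, hP.mul_notMem hs ht, ?_⟩
    convert mul_mem hx hy using 1
    push_cast
    ring
  neg_mem' := by
    rintro x ⟨s, hs, hx⟩
    exact ⟨s, hs, by simpa using hx⟩
  mem_or_inv_mem' x := by
    obtain ⟨c, hc, h0, hu⟩ := hs x
    have h1 := sub_ne_zero.2 h0
    have e : (x - c)⁻¹ * x = 1 + c * (x - c)⁻¹ := by
      field_simp
      ring
    by_cases h : ⟨_, hu⟩ ∈ P
    · refine Or.inr ⟨1 + ⟨c, hC hc⟩ * ⟨_, hu⟩, fun h' => hP.one_notMem (by
        simpa using sub_mem h' (P.mul_mem_left ⟨c, hC hc⟩ h)), ?_⟩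
      by_cases hx : x = 0
      · simp [hx]
      · push_cast
        rwa [← e, mul_inv_cancel_right₀ hx]
    · exact Or.inl ⟨_, h, e ▸ add_mem (one_mem B) (mul_mem (hC hc) hu)⟩

lemma le_loc {P : Ideal B} (hP : P.IsPrime) {x : E} (hx : x ∈ B) : x ∈ loc hC hs P hP :=
  ⟨1, hP.one_notMem, by simpa using hx⟩

lemma nu_loc {P : Ideal B} (hP : P.IsPrime) (b : B) :
    (b : E) ∈ (loc hC hs P hP).nonunits ↔ b ∈ P := by
  rw [← not_iff_not, not_nu]
  constructor
  · rintro ⟨h0, s, hs, h⟩ hb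
    refine hs ?_
    convert P.mul_mem_left ⟨_, h⟩ hb using 1
    exact Subtype.ext (by simp [h0])
  · intro h
    have h0 : (b : E) ≠ 0 := fun h0 => h (by rw [show b = 0 from Subtype.ext h0]; exact P.zero_mem)
    exact ⟨h0, b, h, by simp [h0]⟩

/-- The places of `B`. -/
structure Places (B : Set E) {ι : Type} (O : ι → ValuationSubring E) : Prop where
  mem : ∀ x, x ∈ B ↔ ∀ i, x ∈ O i
  crt : ∀ y : ι → E, (∀ i, y i ∈ B) → ∃ e ∈ B, ∀ i, e - y i ∈ (O i).nonunits
  jac : ∀ x ∈ B, (∀ b ∈ B, 1 + b * x ≠ 0 ∧ (1 + b * x)⁻¹ ∈ B) → ∀ i, x ∈ (O i).nonunits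
  dom : ∀ W : ValuationSubring E, (∀ x ∈ B, x ∈ W) →
    (∀ x, (∀ i, x ∈ (O i).nonunits) → x ∈ W.nonunits) → ∃ i, W = O i

include hC hs in
theorem exists_places (hf : C.Finite) :
    ∃ (ι : Type) (_ : Finite ι) (O : ι → ValuationSubring E), Places (B : Set E) O := by
  classical
  have crt : ∀ {κ : Type} [Finite κ] (P : κ → MaximalSpectrum B), Function.Injective P →
      ∀ y : κ → B, ∃ e : B, ∀ i, e - y i ∈ (P i).asIdeal := fun P hP =>
    Ideal.exists_forall_sub_mem_ideal fun i j hij => Ideal.isCoprime_iff_sup_eq.2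
      ((P i).isMaximal.coprime_of_ne (P j).isMaximal fun h => hij (hP (MaximalSpectrum.ext h)))
  have hfin : Finite (MaximalSpectrum B) := by
    by_contra h
    have := not_finite_iff_infinite.1 h
    have := hf.to_subtype
    obtain ⟨n, ⟨e⟩⟩ := Finite.exists_equiv_fin C
    obtain ⟨x, hx⟩ := crt (fun c : C => Infinite.natEmbedding _ (e c))
      ((Infinite.natEmbedding _).injective.comp (Fin.val_injective.comp e.injective))
      fun c => ⟨c, hC c.2⟩
    obtain ⟨c, hc, h0, hu⟩ := hs x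
    refine (Infinite.natEmbedding (MaximalSpectrum B) (e ⟨c, hc⟩)).isMaximal.isPrime.one_notMem ?_
    convert Ideal.mul_mem_left _ ⟨_, hu⟩ (hx ⟨c, hc⟩) using 1
    exact Subtype.ext (by simp [sub_ne_zero.2 h0])
  have hmem : ∀ x, x ∈ B ↔ ∀ P : MaximalSpectrum B, x ∈ loc hC hs _ P.isMaximal.isPrime := by
    refine fun x => ⟨fun hx P => le_loc hC hs _ hx, fun h => ?_⟩
    let I : Ideal B :=
      { carrier := {s | s * x ∈ B}
        add_mem' := fun ha hb => by simpa [add_mul] using add_mem ha hb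
        zero_mem' := by simp
        smul_mem' := fun c s h => by simpa [mul_assoc] using mul_mem c.2 h }
    by_contra hx
    obtain ⟨P, hP, hI⟩ := Ideal.exists_le_maximal I fun h => hx (by
      simpa [I] using (Ideal.eq_top_iff_one I).1 h)
    obtain ⟨s, h1, h2⟩ := h ⟨P, hP⟩
    exact h1 (hI h2)
  have hmax : ∀ (P : MaximalSpectrum B) (x : B), x ∉ P.asIdeal →
      ∃ b : B, 1 + b * x ∈ P.asIdeal := by
    intro P x hx
    obtain ⟨b, c, hc, h⟩ := P.isMaximal.exists_inv hx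
    exact ⟨-b, by rwa [show 1 + -b * x = c by linear_combination -h]⟩
  refine ⟨_, hfin, fun P => loc hC hs _ P.isMaximal.isPrime, hmem, fun y hy => ?_,
    fun x hx h P => ?_, fun W hW hW' => ?_⟩
  · obtain ⟨e, he⟩ := crt id Function.injective_id fun i => ⟨y i, hy i⟩
    exact ⟨e, e.2, fun i => (nu_loc hC hs _ _).2 (he i)⟩
  · by_contra h1
    obtain ⟨b, hb⟩ := hmax P ⟨x, hx⟩ (mt (nu_loc hC hs _ _).2 h1)
    exact not_nu.2 ⟨(h b b.2).1, le_loc hC hs _ (h b b.2).2⟩ 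
      ((nu_loc hC hs P.isMaximal.isPrime _).2 hb)
  · obtain ⟨P, hP⟩ : ∃ P : MaximalSpectrum B, ∀ b ∈ P.asIdeal, (b : E) ∈ W.nonunits := by
      by_contra h
      push Not at h
      choose b h1 h2 using h
      cases nonempty_fintype (MaximalSpectrum B)
      refine not_nu_prod Finset.univ (fun P _ => h2 P) (hW' _ fun P => ?_)
      rw [← SubmonoidClass.coe_finsetProd, nu_loc]
      exact Ideal.prod_mem _ (Finset.mem_univ P) (h1 P)
    have hP' : ∀ b : B, b ∉ P.asIdeal → (b : E) ∉ W.nonunits := by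
      intro b hb h
      obtain ⟨c, hc⟩ := hmax P b hb
      exact one_nu (O := W) (by simpa using sub_mem (hP _ hc) (nu_mul' (hW c c.2) h))
    refine ⟨P, le_antisymm (fun x hx => ?_) fun x ⟨s, h1, h2⟩ => ?_⟩
    · by_contra hx'
      obtain ⟨s, h1, h2⟩ := ((loc hC hs _ P.isMaximal.isPrime).mem_or_inv_mem x).resolve_left hx'
      have h0 : x ≠ 0 := fun h => hx' (h ▸ zero_mem _)
      have h3 := hP ⟨_, h2⟩ ((nu_loc hC hs _ ⟨_, h2⟩).1 (nu_mul' (le_loc hC hs _ s.2)
        ((ValuationSubring.inv_mem_nonunits_iff _).2 (Or.inr hx'))))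
      exact hP' s h1 (by simpa [h0] using nu_mul h3 hx)
    · obtain ⟨h3, h4⟩ := not_nu.1 (hP' s h1)
      simpa [h3] using mul_mem h4 (hW _ h2)

end Pool.Agent.MP_829a8f_lc.H33

end MrgPart0

-- ======== part 1: formerly Pool.Agent.MP_829a8f_lc.h33.Ult
section MrgPart1

/-!
The ring of bounded elements of an ultrapower of a field with a gauge.
-/

namespace Pool.Agent.MP_829a8f_lc.H33

open Filter

variable {F : Type} [Field F] {V : Set F}

/-- The ultrapower. -/
abbrev Up (u : Ultrafilter F) := Germ (u : Filter F) F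

variable (u : Ultrafilter F)

/-- The class of a family. -/
noncomputable def cl : (F → F) →+* Up u := Germ.coeRingHom _

/-- The diagonal embedding. -/
noncomputable def dg : F →+* Up u := (cl u).comp (Pi.constRingHom F F)

/-- The ultrapower of a set. -/
def st (X : Set F) : Set (Up u) := {w | Germ.LiftPred (· ∈ X) w}

variable {u}

lemma cl_surj (w : Up u) : ∃ x, cl u x = w := Germ.inductionOn w fun x => ⟨x, rfl⟩

lemma cl_ne {x y : F → F} : cl u x ≠ cl u y ↔ ∀ᶠ t in u, x t ≠ y t :=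
  Germ.coe_eq.not.trans Ultrafilter.eventually_not.symm

lemma cl_not_st {X : Set F} {x : F → F} : cl u x ∉ st u X ↔ ∀ᶠ t in u, x t ∉ X :=
  Ultrafilter.eventually_not.symm

lemma dg_st {X : Set F} {x : F} : dg u x ∈ st u X ↔ x ∈ X := Germ.liftPred_const_iff

variable (u) in
/-- The ultrapower of a valuation ring. -/
def upV (O : ValuationSubring F) : ValuationSubring (Up u) where
  carrier := st u O
  zero_mem' := dg_st.2 (zero_mem O)
  one_mem' := dg_st.2 (one_mem O)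
  add_mem' := by
    intro a b
    induction a, b using Germ.inductionOn₂
    exact fun ha hb => (Eventually.and ha hb).mono fun _ h => add_mem h.1 h.2
  mul_mem' := by
    intro a b
    induction a, b using Germ.inductionOn₂
    exact fun ha hb => (Eventually.and ha hb).mono fun _ h => mul_mem h.1 h.2
  neg_mem' := by
    intro a
    induction a using Germ.inductionOn
    exact fun ha => Eventually.mono ha fun _ h => neg_mem h
  mem_or_inv_mem' := by
    intro a
    induction a using Germ.inductionOn with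
    | h x =>
      exact Ultrafilter.eventually_or.1 (Eventually.of_forall fun t => O.mem_or_inv_mem (x t))

variable (u) in
/-- The elements bounded with respect to a valuation ring. -/
def bdd (O : ValuationSubring F) : ValuationSubring (Up u) where
  carrier := {x | ∃ t, t ≠ 0 ∧ t ∈ O ∧ dg u t * x ∈ upV u O}
  zero_mem' := ⟨1, one_ne_zero, one_mem _, by simp⟩
  one_mem' := ⟨1, one_ne_zero, one_mem _, by simp⟩
  add_mem' := by
    rintro x y ⟨s, h0, hs, hx⟩ ⟨t, h1, ht, hy⟩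
    refine ⟨s * t, mul_ne_zero h0 h1, mul_mem hs ht, ?_⟩
    convert add_mem (mul_mem (dg_st.2 ht : _ ∈ upV u O) hx)
      (mul_mem (dg_st.2 hs : _ ∈ upV u O) hy) using 1
    rw [map_mul]
    ring
  mul_mem' := by
    rintro x y ⟨s, h0, hs, hx⟩ ⟨t, h1, ht, hy⟩
    refine ⟨s * t, mul_ne_zero h0 h1, mul_mem hs ht, ?_⟩
    convert mul_mem hx hy using 1
    rw [map_mul]
    ring
  neg_mem' := by
    rintro x ⟨s, h0, hs, hx⟩
    exact ⟨s, h0, hs, by simpa using hx⟩
  mem_or_inv_mem' x := ((upV u O).mem_or_inv_mem x).imp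
    (fun h => ⟨1, one_ne_zero, one_mem _, by simpa using h⟩)
    fun h => ⟨1, one_ne_zero, one_mem _, by simpa using h⟩

lemma mem_bdd {O : ValuationSubring F} {x : Up u} {t : F} (h0 : t ≠ 0)
    (h : dg u t * x ∈ upV u O) : x ∈ bdd u O := by
  rcases O.mem_or_inv_mem t with ht | ht
  · exact ⟨t, h0, ht, h⟩
  · refine ⟨1, one_ne_zero, one_mem _, ?_⟩
    convert mul_mem (dg_st.2 ht : _ ∈ upV u O) h using 1
    rw [← mul_assoc, ← map_mul, inv_mul_cancel₀ h0]

lemma nu_bdd {O : ValuationSubring F} (hO : O ≠ ⊤) {x : Up u} :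
    x ∈ (bdd u O).nonunits ↔ ∀ h, dg u h * x ∈ upV u O := by
  constructor
  · intro hx h
    by_contra h1
    obtain ⟨h0, h2⟩ := not_nu.1 (mt nu_le h1)
    refine not_nu.2 ⟨right_ne_zero_of_mul h0, mem_bdd (t := h⁻¹) (inv_ne_zero fun e => h0 ?_) ?_⟩ hx
    · rw [e, map_zero, zero_mul]
    · rwa [map_inv₀, ← mul_inv]
  · intro h
    by_contra h1
    obtain ⟨h0, t, ht, -, h2⟩ := not_nu.1 h1
    obtain ⟨y, hy⟩ := exists_not_mem hO
    refine hy ((dg_st (u := u)).1 ?_)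
    have := mul_mem (h (y / t)) h2
    rwa [mul_mul_mul_comm, mul_inv_cancel₀ h0, mul_one, ← map_mul, div_mul_cancel₀ _ ht] at this

/-- There are nontrivial approximate idempotents of arbitrary precision. -/
def Idem {ι : Type} (O : ι → ValuationSubring F) : Prop := ∀ T : F, T ≠ 0 → ∃ e, (∀ i, e ∈ O i) ∧
  (∀ i, T⁻¹ * (e * (1 - e)) ∈ O i) ∧ (∃ i, e ∉ (O i).nonunits) ∧ ∃ j, 1 - e ∉ (O j).nonunits

namespace Gauge

variable (hV : Gauge V)
include hV

lemma scal {x s t : F} (hs : s ≠ 0) (h : t * s⁻¹ ∈ V) (hx : s * x ∈ V) : t * x ∈ V := by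
  have := hV.mul h hx
  rwa [← mul_assoc, inv_mul_cancel_right₀ hs] at this

lemma zero : (0 : F) ∈ V := by
  obtain ⟨t, -, ht⟩ := hV.dir {0} (Set.finite_singleton _)
  simpa using ht 0 rfl

lemma exists_uf : ∃ u : Ultrafilter F, ∀ a, ∀ᶠ t in u, t ≠ 0 ∧ t * a ∈ V := by
  have : NeBot (⨅ a : F, 𝓟 {t | t ≠ 0 ∧ t * a ∈ V}) :=
    (hasBasis_iInf_principal_finite _).neBot_iff.2 fun {A} hA => by
      obtain ⟨t, h0, ht⟩ := hV.dir A hA
      exact ⟨t, Set.mem_iInter₂.2 fun a ha => ⟨h0, ht a ha⟩⟩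
  obtain ⟨u, hu⟩ := Ultrafilter.exists_le (⨅ a : F, 𝓟 {t | t ≠ 0 ∧ t * a ∈ V})
  exact ⟨u, fun a => hu (mem_iInf_of_mem a (mem_principal_self _))⟩

lemma st_mul {x y : Up u} : x ∈ st u V → y ∈ st u V → x * y ∈ st u V := by
  induction x, y using Germ.inductionOn₂
  exact fun ha hb => (Eventually.and ha hb).mono fun _ h => hV.mul h.1 h.2

lemma st_neg {x : Up u} : x ∈ st u V → -x ∈ st u V := by
  induction x using Germ.inductionOn
  exact fun ha => Eventually.mono ha fun _ h => hV.neg h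

lemma st_scal {x : Up u} {s t : F} (hs : s ≠ 0) (h : t * s⁻¹ ∈ V) (hx : dg u s * x ∈ st u V) :
    dg u t * x ∈ st u V := by
  have := hV.st_mul (dg_st.2 h) hx
  rwa [← mul_assoc, ← map_mul, inv_mul_cancel_right₀ hs] at this

lemma st_add : ∃ g : F, g ≠ 0 ∧ ∀ x ∈ st u V, ∀ y ∈ st u V, dg u g * (x + y) ∈ st u V := by
  obtain ⟨g, h0, hg⟩ := hV.add
  refine ⟨g, h0, fun x hx y hy => ?_⟩
  induction x, y using Germ.inductionOn₂
  exact (Eventually.and hx hy).mono fun _ h => hg _ h.1 _ h.2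

lemma st_add' {s s' : F} (hs : s ≠ 0) (hs' : s' ≠ 0) : ∃ t : F, t ≠ 0 ∧ ∀ x y : Up u,
    dg u s * x ∈ st u V → dg u s' * y ∈ st u V → dg u t * (x + y) ∈ st u V := by
  obtain ⟨g, h0, hg⟩ := hV.st_add (u := u)
  obtain ⟨t, h1, ht⟩ := hV.dir {s⁻¹, s'⁻¹} (Set.toFinite _)
  refine ⟨g * t, mul_ne_zero h0 h1, fun x y hx hy => ?_⟩
  rw [map_mul, mul_assoc, mul_add]
  exact hg _ (hV.st_scal hs (ht _ (by simp)) hx) _ (hV.st_scal hs' (ht _ (by simp)) hy)

variable (u) in
/-- The ring of bounded elements. -/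
def B : Subring (Up u) where
  carrier := {x | ∃ t, t ≠ 0 ∧ dg u t * x ∈ st u V}
  zero_mem' := ⟨1, one_ne_zero, by rw [mul_zero]; exact dg_st.2 hV.zero⟩
  one_mem' := ⟨1, one_ne_zero, by rw [mul_one]; exact dg_st.2 hV.one⟩
  add_mem' := by
    rintro x y ⟨s, hs, hx⟩ ⟨t, ht, hy⟩
    obtain ⟨r, h0, hr⟩ := hV.st_add' (u := u) hs ht
    exact ⟨r, h0, hr _ _ hx hy⟩
  mul_mem' := by
    rintro x y ⟨s, hs, hx⟩ ⟨t, ht, hy⟩
    exact ⟨s * t, mul_ne_zero hs ht, by rw [map_mul, mul_mul_mul_comm]; exact hV.st_mul hx hy⟩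
  neg_mem' := by
    rintro x ⟨s, hs, hx⟩
    exact ⟨s, hs, by rw [mul_neg]; exact hV.st_neg hx⟩

lemma dg_mem (a : F) : dg u a ∈ hV.B u := by
  obtain ⟨t, h0, ht⟩ := hV.dir {a} (Set.finite_singleton _)
  exact ⟨t, h0, by rw [← map_mul]; exact dg_st.2 (ht a rfl)⟩

lemma st_mem {x : Up u} (hx : x ∈ st u V) : x ∈ hV.B u := ⟨1, one_ne_zero, by simpa using hx⟩

lemma exists_places :
    ∃ (ι : Type) (_ : Finite ι) (O : ι → ValuationSubring (Up u)), Places (hV.B u : Set _) O := by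
  obtain ⟨C, g, hC, h0, h⟩ := hV.star
  refine H33.exists_places (C := dg u '' C) (by rintro _ ⟨c, -, rfl⟩; exact hV.dg_mem c)
    (fun x => ?_) (hC.image _)
  obtain ⟨x, rfl⟩ := cl_surj x
  obtain ⟨c, hc, h1⟩ := (Ultrafilter.eventually_exists_mem_iff (f := u) hC).1
    (Eventually.of_forall fun t => h (x t))
  exact ⟨_, ⟨c, hc, rfl⟩, cl_ne.2 (h1.mono fun _ h => h.1), g, h0,
    h1.mono fun t h => (div_eq_mul_inv g _ ▸ h.2 : g * (x t - c)⁻¹ ∈ V)⟩

variable (hu : ∀ a, ∀ᶠ t in u, t ≠ 0 ∧ t * a ∈ V)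
include hu

lemma not_mem_B {x : F → F} (h : ∀ t, t ≠ 0 → t * x t ∉ V) : cl u x ∉ hV.B u := by
  rintro ⟨s, hs, hx⟩
  obtain ⟨t, ⟨h1, h2⟩, h3⟩ := ((hu s⁻¹).and hx).exists
  exact h t h1 (hV.scal hs h2 h3)

variable {ι : Type} [Finite ι] {O : ι → ValuationSubring (Up u)} (hO : Places (hV.B u : Set _) O)
include hO

lemma unif {c : ι → F} (hc : Function.Injective c) :
    ∃ g : F, g ≠ 0 ∧ ∀ y, g * y ∈ V ∨ ∃ i, y ≠ c i ∧ g * (y - c i)⁻¹ ∈ V := by
  by_contra h
  push Not at h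
  choose! y h1 h2 using h
  have h3 := hV.not_mem_B hu h1
  have h4 : ∀ i, ∃ j, cl u y - dg u (c i) ∈ (O j).nonunits := by
    intro i
    by_contra h
    push Not at h
    obtain ⟨s, hs, hx⟩ := (hO.mem _).2 fun j => (not_nu.1 (h j)).2
    obtain ⟨t, ⟨⟨k1, k2⟩, k3⟩, k4⟩ := (((hu s⁻¹).and hx).and (cl_ne.1
      (show cl u y ≠ dg u (c i) from fun e => h3 (e ▸ hV.dg_mem _)))).exists
    exact h2 t k1 i k4 (hV.scal hs k2 k3)
  choose j hj using h4
  obtain ⟨j₀, h5⟩ := not_forall.1 (mt (hO.mem _).2 h3)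
  have h6 : ∀ i, j i ≠ j₀ := fun i e => h5 (by
    convert add_mem (e ▸ nu_le (hj i)) ((hO.mem _).1 (hV.dg_mem (c i)) j₀) using 1
    exact (sub_add_cancel _ _).symm)
  have h7 : Function.Injective j := fun i i' e => by
    by_contra h
    have h8 := sub_mem (hj i') (e ▸ hj i)
    rw [sub_sub_sub_cancel_left, ← map_sub] at h8
    exact not_nu.2 ⟨(map_ne_zero _).2 (sub_ne_zero.2 (hc.ne h)),
      map_inv₀ (dg u) _ ▸ (hO.mem _).1 (hV.dg_mem _) _⟩ h8
  obtain ⟨i, hi⟩ := Finite.injective_iff_surjective.1 h7 j₀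
  exact h6 i hi

/-- The infinitesimals form the Jacobson radical of the ring of bounded elements. -/
lemma small_iff [Infinite F] (x : Up u) :
    (∀ h, dg u h * x ∈ st u V) ↔ ∀ i, x ∈ (O i).nonunits := by
  constructor
  · intro hx
    refine hO.jac x (hV.st_mem (by simpa using hx 1)) ?_
    rintro b ⟨s, hs, hb⟩
    obtain ⟨c, h0, hc⟩ := hV.inv
    have h1 := hV.st_mul hb (hx (s * c)⁻¹)
    obtain ⟨y, hy⟩ := cl_surj (dg u s * b * (dg u (s * c)⁻¹ * x))
    have e : b * x = dg u c * cl u y := by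
      have := (map_ne_zero (dg u)).2 hs
      have := (map_ne_zero (dg u)).2 h0
      rw [hy, map_inv₀, map_mul]
      field_simp
    rw [← hy] at h1
    have h2 : 1 + dg u c * cl u y ≠ 0 := cl_ne.2 (h1.mono fun t h => (hc _ h).1)
    have h3 : dg u c * cl u y / (1 + dg u c * cl u y) ∈ st u V := h1.mono fun t h => (hc _ h).2
    rw [e]
    refine ⟨h2, ?_⟩
    have h4 := sub_mem (one_mem (hV.B u)) (hV.st_mem h3)
    rwa [one_sub_div h2, add_sub_cancel_right, one_div] at h4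
  · intro hx h
    obtain ⟨n, ⟨f⟩⟩ := Finite.exists_equiv_fin ι
    have hc := (Infinite.natEmbedding F).injective.comp (Fin.val_injective.comp f.injective)
    obtain ⟨g, h0, hg⟩ := hV.unif hu hO hc
    obtain ⟨e, ⟨s, hs, he⟩, he'⟩ := hO.crt _ fun i => hV.dg_mem ((_ ∘ _ ∘ f) i)
    obtain ⟨t, ht, ht'⟩ := hV.st_add' (u := u) h0 hs
    obtain ⟨y, hy⟩ := cl_surj (e + dg u (h / t) * x)
    have h1 : dg u g * cl u y ∈ st u V := by
      refine (Ultrafilter.eventually_or.1 (Eventually.of_forall fun t => hg (y t))).resolve_right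
        fun h1 => ?_
      obtain ⟨i, hi⟩ := Ultrafilter.eventually_exists_iff.1 h1
      refine not_nu.2 ⟨sub_ne_zero.2 (cl_ne.2 (hi.mono fun _ h => h.1)),
        (hO.mem _).1 ⟨g, h0, hi.mono fun _ h => h.2⟩ i⟩ ?_
      rw [hy, add_sub_right_comm]
      exact add_mem (he' i) (nu_mul' ((hO.mem _).1 (hV.dg_mem _) i) (hx i))
    have h2 := ht' _ (-e) h1 (by rw [mul_neg]; exact hV.st_neg he)
    rwa [hy, add_neg_cancel_comm, ← mul_assoc, ← map_mul, mul_div_cancel₀ _ ht] at h2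

omit hu hO

variable [Infinite F]

/-- Approximate roots of unity for two independent coarser valuation topologies. -/
theorem exists_root {O₁ O₂ : ValuationSubring F} (h₁ : O₁ ≠ ⊤) (h₂ : O₂ ≠ ⊤) {a : F} (ha : a ≠ 0)
    (k₁ : ∀ x ∈ V, a * x ∈ O₁) (k₂ : ∀ x ∈ V, a * x ∈ O₂) (hi : ∀ z, ∃ w ∈ O₁, z - w ∈ O₂)
    {ζ : F} {l : ℕ} (hζ : ζ ^ l = 1) (h : F) :
    ∃ z, h * (z ^ l - 1) ∈ V ∧ z - 1 ∈ O₁.nonunits ∧ z - ζ ∈ O₂.nonunits := by
  classical
  obtain ⟨u, hu⟩ := hV.exists_uf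
  obtain ⟨ι, _, O, hO⟩ := hV.exists_places (u := u)
  have key : ∀ O' : ValuationSubring F, O' ≠ ⊤ → (∀ x ∈ V, a * x ∈ O') → ∃ j, bdd u O' = O j := by
    intro O' h1 h2
    have h3 : ∀ (s : F) (x : Up u), dg u s * x ∈ st u V → dg u (a * s) * x ∈ upV u O' := by
      intro s x hx
      obtain ⟨x, rfl⟩ := cl_surj x
      exact Eventually.mono hx fun t ht => (mul_assoc a s _ ▸ h2 _ ht : a * s * x t ∈ O')
    refine hO.dom _ (fun x ⟨s, hs, hx⟩ => mem_bdd (mul_ne_zero ha hs) (h3 s x hx))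
      fun x hx => (nu_bdd h1).2 fun h => ?_
    have := h3 _ x ((hV.small_iff hu hO x).2 hx (h / a))
    rwa [mul_div_cancel₀ _ ha] at this
  have key' : ∀ O' : ValuationSubring F, O' ≠ ⊤ → (∀ x ∈ V, a * x ∈ O') → ∀ w : F → F,
      (∀ t, w t ∈ O') → cl u (fun t => t * w t) ∈ (bdd u O').nonunits := by
    refine fun O' h1 h2 w hw => (nu_bdd h1).2 fun h => (hu (h / a)).mono fun t ht => ?_
    have := mul_mem (h2 _ ht.2) (hw t)
    rwa [show a * (t * (h / a)) * w t = h * (t * w t) by field_simp] at this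
  obtain ⟨j₁, e₁⟩ := key O₁ h₁ k₁
  obtain ⟨j₂, e₂⟩ := key O₂ h₂ k₂
  have hj : j₁ ≠ j₂ := by
    rintro rfl
    choose w hw hw' using fun t : F => hi t⁻¹
    have h3 := add_mem (e₁ ▸ key' O₁ h₁ k₁ w hw) (e₂ ▸ key' O₂ h₂ k₂ _ hw')
    rw [← map_add] at h3
    refine one_nu (O := O j₁) ?_
    convert h3 using 1
    refine Germ.coe_eq.2 ((hu 0).mono fun t ht => ?_)
    change 1 = t * w t + t * (t⁻¹ - w t)
    rw [← mul_add, add_sub_cancel, mul_inv_cancel₀ ht.1]
  obtain ⟨z, hz, hz'⟩ := hO.crt (fun j => dg u (if j = j₂ then ζ else 1)) fun j => hV.dg_mem _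
  have h3 : ∀ j, z ^ l - 1 ∈ (O j).nonunits := fun j => by
    have := nu_pow_sub ((hO.mem _).1 hz j) ((hO.mem _).1 (hV.dg_mem _) j) (hz' j) l
    rwa [← map_pow, apply_ite (· ^ l), hζ, one_pow, ite_self, map_one] at this
  obtain ⟨x₁, hx₁⟩ := exists_not_mem h₁
  obtain ⟨x₂, hx₂⟩ := exists_not_mem h₂
  have h4 := (nu_bdd h₁).1 (e₁ ▸ hz' j₁) x₁
  have h5 := (nu_bdd h₂).1 (e₂ ▸ hz' j₂) x₂
  rw [if_neg hj] at h4
  rw [if_pos rfl] at h5
  obtain ⟨z, rfl⟩ := cl_surj z
  obtain ⟨t, ⟨m1, m2⟩, m3⟩ := ((Eventually.and ((hV.small_iff hu hO _).2 h3 h) h4).and h5).exists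
  exact ⟨z t, m1, nu_of_mul hx₁ m2, nu_of_mul hx₂ m3⟩

omit hV [Infinite F] in
lemma exists_den {ι : Type} [Finite ι] (O : ι → ValuationSubring F) {G : Set F} (hG : G.Finite) :
    ∃ w : F, w ≠ 0 ∧ (∀ i, w ∈ O i) ∧ ∀ x ∈ G, ∀ i, w * x ∈ O i := by
  induction G, hG using Set.Finite.induction_on with
  | empty => exact ⟨1, one_ne_zero, fun i => one_mem _, by simp⟩
  | @insert x G _ _ ih =>
    obtain ⟨w, h0, h1, h2⟩ := ih
    obtain ⟨s, k1, k2, k3⟩ := exists_denominator (fun o : Option ι => o.elim ⊤ O) x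
    refine ⟨s * w, mul_ne_zero (fun h => ?_) h0, fun i => mul_mem (k1 (some i)) (h1 i), ?_⟩
    · have := k3 none trivial
      rw [h, map_zero] at this
      exact zero_ne_one this
    · rintro y (rfl | hy) i
      · rw [mul_right_comm, mul_comm s]
        exact mul_mem (k2 (some i)) (h1 i)
      · rw [mul_assoc]
        exact mul_mem (k1 (some i)) (h2 y hy i)

/-- Either the gauge defines a V-topology or the ultrapower has approximate idempotents. -/
theorem dichotomy (hu : ∀ a, ∀ᶠ t in u, t ≠ 0 ∧ t * a ∈ V) {ι : Type} [Finite ι]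
    {O : ι → ValuationSubring (Up u)} (hO : Places (hV.B u : Set _) O) :
    (∃ g : F, g ≠ 0 ∧ ∀ x, x ∈ V ∨ g * x⁻¹ ∈ V) ∨ Idem O := by
  classical
  rcases subsingleton_or_nontrivial ι with h | h
  · left
    by_contra h
    push Not at h
    choose! x h1 h2 using h
    refine hV.not_mem_B hu h2 ((hO.mem _).2 fun j => ?_)
    have h3 : cl u x ∉ st u V := cl_not_st.2 ((hu 0).mono fun t ht => h1 t ht.1)
    obtain ⟨i, hi⟩ := not_forall.1 (mt (hV.small_iff hu hO (cl u x)).2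
      fun h => h3 (by simpa using h 1))
    exact Subsingleton.elim i j ▸ (not_nu.1 hi).2
  right
  obtain ⟨i₀, i₁, hi⟩ := exists_pair_ne ι
  obtain ⟨e, he, he'⟩ := hO.crt (fun i => if i = i₀ then 1 else 0) fun i => by
    split_ifs
    exacts [one_mem (hV.B u), zero_mem (hV.B u)]
  obtain ⟨a, ha⟩ := not_forall.1 (mt (hV.small_iff hu hO e).1 fun h =>
    not_nu_of_sub one_nu (by simpa using he' i₀) (h i₀))
  obtain ⟨b, hb⟩ := not_forall.1 (mt (hV.small_iff hu hO (1 - e)).1 fun h =>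
    not_nu_of_sub one_nu (by simpa [hi.symm] using he' i₁) (h i₁))
  have h1 := (hV.small_iff hu hO (e * (1 - e))).2 fun i => by
    have h2 := he' i
    have h3 := (hO.mem _).1 he i
    split_ifs at h2
    · exact nu_mul' h3 (by simpa using neg_mem h2)
    · exact nu_mul (by simpa using h2) (sub_mem (one_mem _) h3)
  obtain ⟨s, hs, he⟩ := he
  obtain ⟨e, rfl⟩ := cl_surj e
  have h2 : ∀ t : F, ∃ e, s * e ∈ V ∧ a * e ∉ V ∧ b * (1 - e) ∉ V ∧ t⁻¹ * (e * (1 - e)) ∈ V :=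
    fun t => ((Eventually.and he ((cl_not_st.1 ha).and ((cl_not_st.1 hb).and
      (h1 t⁻¹)))).exists).elim fun r h => ⟨e r, h⟩
  intro T h0
  obtain ⟨T, rfl⟩ := cl_surj T
  choose e k1 k2 k3 k4 using fun r => h2 (T r)
  exact ⟨cl u e, (hO.mem _).1 (⟨s, hs, Eventually.of_forall k1⟩ : cl u e ∈ hV.B u),
    (hO.mem _).1 (hV.st_mem (x := (cl u T)⁻¹ * (cl u e * (1 - cl u e))) (Eventually.of_forall k4)),
    not_forall.1 (mt (hV.small_iff hu hO (cl u e)).2 fun h =>
      cl_not_st.2 (Eventually.of_forall k2) (h a)),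
    not_forall.1 (mt (hV.small_iff hu hO (1 - cl u e)).2 fun h =>
      cl_not_st.2 (Eventually.of_forall k3) (h b))⟩

end Gauge

lemma Idem.indep {ι : Type} [Finite ι] {O : ι → ValuationSubring F} (hO : Idem O) :
    ∃ i j, ∀ z, ∃ w ∈ O i, z - w ∈ O j := by
  by_contra h
  push Not at h
  choose z hz using h
  obtain ⟨T, h0, -, hT⟩ := Gauge.exists_den O (Set.finite_range fun p : ι × ι => z p.1 p.2)
  obtain ⟨e, -, m2, ⟨i, hi⟩, j, hj⟩ := hO T h0
  obtain ⟨n1, n2⟩ := not_nu.1 hi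
  obtain ⟨n3, n4⟩ := not_nu.1 hj
  refine hz i j ((1 - e) * z i j) ?_ ?_
  · convert mul_mem (mul_mem (hT _ ⟨(i, j), rfl⟩ i) (m2 i)) n2 using 1
    field_simp
  · convert mul_mem (mul_mem (hT _ ⟨(i, j), rfl⟩ j) (m2 j)) n4 using 1
    field_simp
    ring

end Pool.Agent.MP_829a8f_lc.H33

end MrgPart1

-- ======== part 2: formerly Pool.Agent.MP_829a8f_lc.h33.AS
section MrgPart2

/-!
Artin-Schreier arguments in positive characteristic.
-/

namespace Pool.Agent.MP_829a8f_lc.H33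

open Finset

variable {L : Type} [Field L]

lemma as_data [Infinite L] (p : ℕ) [Fact p.Prime] [CharP L p] (k : ℕ) :
    ∃ (ε : Fin k → L) (a : Fin k → Fin k → ℕ → L) (b : Fin k → ℕ → L),
      (∀ i j, a i j 0 = -(ε i * b j 0)) ∧
      (∀ i j l, a i j l ^ p = a i j (l + 1) + ε i * b j (l + 1)) ∧ (∀ i j, a i j k = 0) ∧
      ∀ i j, ∑ l ∈ range k, a i j l = if i = j then 1 else 0 := by
  let _ := ZMod.algebra L p
  obtain ⟨ε, hε⟩ := exists_linearIndependent_of_le_rank (R := ZMod p) (M := L) (n := k)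
    (Cardinal.natCast_lt_aleph0.le.trans (not_lt.1 fun h => by
      have := Module.rank_lt_aleph0_iff.1 h
      exact not_finite_iff_infinite.2 ‹_› (Module.finite_of_finite (ZMod p))))
  exact ⟨_, exists_additive hε⟩

theorem as_closed (S : NS L) [Infinite L] {p : ℕ} (hp : p.Prime)
    (h0 : (p : L) = 0) (c : L) : ∃ x, x ^ p - x = c := by
  classical
  have := Fact.mk hp
  have : CharP L p := (CharP.charP_iff_prime_eq_zero hp).2 h0
  obtain ⟨k, hk⟩ := NS.U.nip (S := S) (X := {z | ¬ ∃ x, x ^ p - x = z}) (S.not (NS.ex1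
    (P := fun v x => x ^ p - x = v ()) (NS.eq (((NS.proj _).pow p).sub (NS.proj _)) (NS.proj _))))
  obtain ⟨ε, a, b, -, e2, e3, e4⟩ := as_data (L := L) p k
  let s : ℕ → L := fun l => ∑ m ∈ range l, c ^ p ^ m
  have hs : ∀ l, s l ^ p = s (l + 1) - c := fun l => by
    simp only [s, sum_pow_char, sum_range_succ', ← pow_mul, ← pow_succ, pow_zero, pow_one,
      add_sub_cancel_right]
  have key : ∀ i j, (∑ l ∈ range k, a i j l * s l) ^ p - ∑ l ∈ range k, a i j l * s l +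
      (if i = j then c else 0) = ε i * ∑ l ∈ range k, b j (l + 1) * s (l + 1) := by
    intro i j
    have h1 := sum_range_succ (fun l => a i j l * s l) k
    rw [sum_range_succ', e3, zero_mul, add_zero, show s 0 = 0 from rfl, mul_zero, add_zero] at h1
    have h2 : ∑ l ∈ range k, a i j l ^ p * c = if i = j then c else 0 := by
      rw [← sum_mul, ← sum_pow_char, e4]
      split_ifs <;> simp [hp.ne_zero]
    rw [sum_pow_char, ← h1, ← h2, mul_sum, ← sum_sub_distrib, ← sum_add_distrib]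
    refine sum_congr rfl fun l _ => ?_
    rw [mul_pow, hs, e2]
    ring
  by_contra hc
  refine hk ⟨0, fun i => (ε i)⁻¹, fun S => ∑ j ∈ univ.filter (· ∈ S),
    ∑ l ∈ range k, b j (l + 1) * s (l + 1), fun S i => ?_⟩
  have h1 := sum_congr rfl fun j (_ : j ∈ univ.filter (· ∈ S)) => key i j
  rw [sum_add_distrib, sum_sub_distrib, ← sum_pow_char, sum_ite_eq, ← mul_sum] at h1
  simp only [Pi.zero_apply, sub_zero, div_inv_eq_mul, mul_comm _ (ε i), ← h1,
    Set.mem_ofPred_eq, mem_filter, mem_univ, true_and]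
  generalize ∑ j ∈ univ.filter (· ∈ S), ∑ l ∈ range k, a i j l * s l = w
  by_cases hi : i ∈ S
  · rw [if_pos hi]
    exact iff_of_true (fun ⟨x, hx⟩ => hc ⟨x - w, by rw [sub_pow_char]; linear_combination hx⟩) hi
  · rw [if_neg hi]
    exact iff_of_false (not_not.2 ⟨w, (add_zero _).symm⟩) hi

/-- No nontrivial approximate idempotents in positive characteristic. -/
theorem no_idem (S : NS L) [Infinite L] {p : ℕ} (hp : p.Prime) (h0 : (p : L) = 0) {ι : Type}
    [Finite ι] {O : ι → ValuationSubring L} {D : Set L} (hD : S.U D) {c : L} (hc : c ≠ 0)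
    (h1 : ∀ x, (∀ i, x ∈ O i) → c * x ∈ D) (h2 : ∀ x ∈ D, ∀ i, x ∈ O i) {π : L} (hπ0 : π ≠ 0)
    (hπ : ∀ i, π ∈ (O i).nonunits) (hO : Idem O) : False := by
  classical
  have := Fact.mk hp
  have : CharP L p := (CharP.charP_iff_prime_eq_zero hp).2 h0
  obtain ⟨k, hk⟩ := NS.U.nip (S := S) (X := {z | ¬ ∃ x, x / π ∈ D ∧ x ^ p - x = z}) (S.not (NS.ex1
    (P := fun v x => x / π ∈ D ∧ x ^ p - x = v ()) (S.and (hD.app ((NS.proj _).div (NS.const _)))
    (NS.eq (((NS.proj _).pow p).sub (NS.proj _)) (NS.proj _)))))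
  obtain ⟨ε, a, b, e1, e2, e3, e4⟩ := as_data (L := L) p k
  obtain ⟨T, hT0, -, hT⟩ := Gauge.exists_den O ((Set.finite_range
    fun q : Fin k × Fin k × Fin k => a q.1 q.2.1 q.2.2 / (c * π)).insert π⁻¹)
  obtain ⟨e, k1, k2, ⟨i₀, k3⟩, j₀, k4⟩ := hO T hT0
  have hcO : ∀ i, c ∈ O i := h2 _ (by simpa using h1 1 fun i => one_mem _)
  have k5 : ∀ i, e * (1 - e) ∈ (O i).nonunits := fun i => by
    convert nu_mul (nu_mul (hπ i) (hT _ (Or.inl rfl) i)) (k2 i) using 1
    field_simp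
  have k6 : ∀ m i, T⁻¹ * (e ^ (m + 1) - e) ∈ O i := fun m i => by
    induction m with
    | zero => simp
    | succ m ih =>
      convert sub_mem (mul_mem (k1 i) ih) (k2 i) using 1
      ring
  have key : ∀ i j, (∑ l ∈ range k, a i j l * e ^ p ^ l) ^ p - ∑ l ∈ range k, a i j l * e ^ p ^ l =
      ε i * ∑ l ∈ range (k + 1), b j l * e ^ p ^ l := by
    intro i j
    have h3 := sum_range_succ (fun l => a i j l * e ^ p ^ l) k
    rw [sum_range_succ', e3, zero_mul, add_zero, e1] at h3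
    rw [sum_pow_char, ← h3, sum_range_succ', mul_add, mul_sum, sub_add_eq_sub_sub,
      ← sum_sub_distrib, sum_congr rfl (g := fun l => ε i * (b j (l + 1) * e ^ p ^ (l + 1)))
      fun l _ => by rw [mul_pow, ← pow_mul, ← pow_succ, e2]; ring]
    ring
  refine hk ⟨0, fun i => (ε i)⁻¹, fun S => ∑ j ∈ univ.filter (· ∈ S),
    ∑ l ∈ range (k + 1), b j l * e ^ p ^ l, fun S i => ?_⟩
  have h3 := sum_congr rfl fun j (_ : j ∈ univ.filter (· ∈ S)) => key i j
  rw [sum_sub_distrib, ← sum_pow_char, ← mul_sum] at h3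
  simp only [Pi.zero_apply, sub_zero, div_inv_eq_mul, mul_comm _ (ε i), ← h3, Set.mem_ofPred_eq]
  have h4 : ∀ r, ((∑ j ∈ univ.filter (· ∈ S), ∑ l ∈ range k, a i j l * e ^ p ^ l) -
      if i ∈ S then e else 0) / (c * π) ∈ O r := fun r => by
    have h5 : (if i ∈ S then e else 0) = ∑ j ∈ univ.filter (· ∈ S), ∑ l ∈ range k, a i j l * e := by
      simp [← sum_mul, e4]
    simp only [h5, ← sum_sub_distrib, sum_div]
    refine sum_mem fun j _ => sum_mem fun l hl => ?_
    convert mul_mem (hT _ (Or.inr ⟨(i, j, ⟨l, mem_range.1 hl⟩), rfl⟩) r) (k6 (p ^ l - 1) r) using 1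
    rw [Nat.sub_add_cancel (Nat.one_le_pow _ _ hp.pos)]
    field_simp
  generalize ∑ j ∈ univ.filter (· ∈ S), ∑ l ∈ range k, a i j l * e ^ p ^ l = w at h4
  by_cases hi : i ∈ S
  · refine iff_of_true (fun ⟨x, hx, hx'⟩ => ?_) hi
    rw [if_pos hi] at h4
    have h5 : ∀ r, w - x - e ∈ (O r).nonunits := fun r => by
      convert nu_mul (hπ r) (sub_mem (mul_mem (hcO r) (h4 r)) (h2 _ hx r)) using 1
      field_simp
      ring
    have h6 : (w - x) * ((w - x) ^ (p - 1) - 1) = 0 := by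
      rw [mul_sub, mul_pow_sub_one hp.ne_zero, sub_pow_char]
      linear_combination -hx'
    rcases mul_eq_zero.1 h6 with h | h
    · exact k3 (by simpa [h] using h5 i₀)
    · have h7 : w - x ∈ (O j₀).nonunits := by
        simpa using add_mem (h5 j₀) (of_not_not fun h => not_nu_mul h k4 (k5 j₀))
      obtain ⟨m, hm⟩ := Nat.exists_eq_add_of_lt (Nat.sub_pos_of_lt hp.one_lt)
      rw [hm, sub_eq_zero, pow_succ] at h
      exact one_nu (h ▸ nu_mul' (pow_mem (nu_le h7) _) h7)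
  · refine iff_of_false (not_not.2 ⟨w, ?_, rfl⟩) hi
    rw [if_neg hi, sub_zero] at h4
    convert h1 _ h4 using 1
    field_simp

end Pool.Agent.MP_829a8f_lc.H33

end MrgPart2

-- ======== part 3: formerly Pool.Agent.MP_829a8f_lc.h33.Uniq
section MrgPart3

/-!
No two independent valuation rings in a definable finite family; the topology of the group of
`p`-th powers is a V-topology.
-/

namespace Pool.Agent.MP_829a8f_lc.H33

open Filter

variable {F : Type} [Field F]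

/-- The nonzero `l`-th powers. -/
def PW (F : Type) [Field F] (l : ℕ) : Set F := {x | x ≠ 0 ∧ ∃ y, x = y ^ l}

lemma mg_PW (l : ℕ) : MG (PW F l) where
  one := ⟨one_ne_zero, 1, (one_pow l).symm⟩
  mul := fun ⟨h, x, hx⟩ ⟨h', y, hy⟩ => ⟨mul_ne_zero h h', x * y, by rw [hx, hy, mul_pow]⟩
  inv := fun ⟨h, x, hx⟩ => ⟨inv_ne_zero h, x⁻¹, by rw [hx, inv_pow]⟩
  ne h := h.1

lemma mg_ne : MG {x : F | x ≠ 0} := ⟨one_ne_zero, mul_ne_zero, inv_ne_zero, id⟩

lemma Gd.infinite {T X Y : Set F} (hT : MG T) (nd : ∃ᶠ z in nb T, z ≠ 0) (h : Gd T X Y) :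
    Y.Infinite := by
  intro hf
  obtain ⟨c, hc⟩ := h.2.1
  obtain ⟨z, h0, h1, h2⟩ := (nd.and_eventually ((h.1 c hc).and
    ((eventually_all_finite hf).2 fun y _ => nb_ev (T := T) (-(y - c)⁻¹)))).exists
  exact hT.ne (h2 _ h1) (by simp [h0])

lemma exists_col (O : ValuationSubring F) {l : ℕ} (hl : l ≠ 0) :
    ∃ (κ : Type) (_ : Finite κ) (χ : F → κ), ∀ y y', y ^ l - 1 ∈ O.nonunits →
      y' ^ l - 1 ∈ O.nonunits → χ y = χ y' → y - y' ∈ O.nonunits := by
  classical
  have h1 : ∀ y, y ^ l - 1 ∈ O.nonunits → y ∈ O := fun y h =>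
    mem_of_pow hl (by simpa using add_mem (nu_le h) (one_mem O))
  have h2 : ∀ y (h : y ^ l - 1 ∈ O.nonunits), IsLocalRing.residue O ⟨y, h1 y h⟩ ^ l = 1 := by
    intro y h
    rw [← map_pow, ← sub_eq_zero, ← map_one (IsLocalRing.residue O), ← map_sub,
      IsLocalRing.residue_eq_zero_iff, ← O.coe_mem_nonunits_iff]
    exact h
  refine ⟨{z : IsLocalRing.ResidueField O | z ^ l = 1}, ((Polynomial.nthRoots l
    (1 : IsLocalRing.ResidueField O)).toFinset.finite_toSet.subset fun z hz => ?_).to_subtype,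
    fun y => if h : y ^ l - 1 ∈ O.nonunits then ⟨_, h2 y h⟩ else ⟨1, one_pow l⟩,
    fun y y' h h' e => ?_⟩
  · simpa [Polynomial.mem_nthRoots (Nat.pos_of_ne_zero hl)] using hz
  · simp only [dif_pos h, dif_pos h', Subtype.mk.injEq] at e
    rw [← sub_eq_zero, ← map_sub, IsLocalRing.residue_eq_zero_iff, ← O.coe_mem_nonunits_iff] at e
    exact e

/-- Two valuation rings of a finite family whose intersection is definable up to scaling are
never independent. -/
theorem no_indep (S : NS F) [Infinite F] {ι : Type} [Finite ι] (O : ι → ValuationSubring F)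
    (hO : ∀ i, O i ≠ ⊤) {D : Set F} (hD : S.U D) {a : F} (ha : a ≠ 0)
    (h1 : ∀ x, (∀ i, x ∈ O i) → a * x ∈ D) (h2 : ∀ x ∈ D, ∀ i, x ∈ O i) {l : ℕ} {ζ : F}
    (hζ : ζ ^ l = 1) (hζ1 : ζ ≠ 1) (hl : ∀ i, (l : F) ∉ (O i).nonunits)
    (hf : FI {x : F | x ≠ 0} (PW F l)) {i j : ι} (hij : ∀ z, ∃ w ∈ O i, z - w ∈ O j) : False := by
  classical
  have hl0 : l ≠ 0 := fun h => hl i (by simp [h])
  obtain ⟨π, hπ0, hπ⟩ : ∃ π : F, π ≠ 0 ∧ ∀ i, π ∈ (O i).nonunits := by
    choose x hx using fun i => exists_not_mem (hO i)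
    obtain ⟨w, k1, -, k2⟩ := Gauge.exists_den O (Set.finite_range x)
    exact ⟨w, k1, fun i => nu_of_mul (hx i) (mul_comm w _ ▸ k2 _ ⟨i, rfl⟩ i)⟩
  have hb0 := mul_ne_zero ha hπ0
  have hb : ∀ i, a * π ∈ (O i).nonunits := fun i =>
    nu_mul' (h2 _ (by simpa using h1 1 fun i => one_mem _) i) (hπ i)
  generalize hbe : a * π = b at hb0 hb
  let H : Set F := {x | ∀ i, (x - 1) / b ∈ O i}
  let T : Set F := {x | ∃ y ∈ H, x = y ^ l}
  have hH1 : ∀ x ∈ H, ∀ i, x - 1 ∈ (O i).nonunits := fun x hx i => by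
    simpa [hb0] using nu_mul' (hx i) (hb i)
  have hH2 : ∀ x ∈ H, ∀ i, x ∉ (O i).nonunits := fun x hx i => not_nu_of_sub one_nu (hH1 x hx i)
  have hH : MG H := by
    refine ⟨fun i => by simp, fun {x y} hx hy i => ?_, fun {x} hx i => ?_,
      fun hx => (not_nu.1 (hH2 _ hx i)).1⟩
    · convert add_mem (mul_mem (hx i) (add_mem (nu_le (hH1 y hy i)) (one_mem _))) (hy i) using 1
      ring
    · obtain ⟨k1, k2⟩ := not_nu.1 (hH2 _ hx i)
      convert neg_mem (mul_mem (hx i) k2) using 1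
      field_simp
      ring
  have hTH : T ⊆ H := by
    rintro _ ⟨y, hy, rfl⟩
    exact pow_mem (S := (⟨⟨H, hH.mul⟩, hH.one⟩ : Submonoid F)) hy l
  have hT : MG T := ⟨⟨1, hH.one, (one_pow l).symm⟩,
    fun ⟨x, hx, e⟩ ⟨y, hy, e'⟩ => ⟨x * y, hH.mul hx hy, by rw [e, e', mul_pow]⟩,
    fun ⟨x, hx, e⟩ => ⟨x⁻¹, hH.inv hx, by rw [e, inv_pow]⟩, fun h => hH.ne (hTH h)⟩
  have hroot : ∀ y, (∀ i, y - 1 ∈ (O i).nonunits) → y ^ l ∈ H → y ∈ H := by
    intro y hy h i
    obtain ⟨k1, k2⟩ := not_nu.1 (geom_unit (hl i) (hy i))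
    convert mul_mem (h i) k2 using 1
    rw [← geom_sum_mul]
    field_simp
  have hfi : FI H T := by
    obtain ⟨κ, _, χ, hχ⟩ := hf
    choose κ' hκ' χ' hχ' using fun i => exists_col (O i) hl0
    have hq : ∀ k, ∃ q : F, (∃ x ∈ H, χ x = k) → q ∈ H ∧ χ q = k := fun k => by
      by_cases h : ∃ x ∈ H, χ x = k
      · exact h.imp fun _ h _ => h
      · exact ⟨0, fun h' => absurd h' h⟩
    choose q hq using hq
    choose! y hy using fun x (hx : x ∈ H) =>
      (hχ x (hH.ne hx) _ (hH.ne (hq _ ⟨x, hx, rfl⟩).1) (hq _ ⟨x, hx, rfl⟩).2.symm).2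
    have hy' : ∀ x ∈ H, y x ^ l ∈ H := fun x hx => hy x hx ▸ hH.div hx (hq _ ⟨x, hx, rfl⟩).1
    refine ⟨κ × ∀ i, κ' i, inferInstance, fun x => (χ x, fun i => χ' i (y x)),
      fun x hx x' hx' e => ?_⟩
    obtain ⟨e1, e2⟩ := Prod.mk.inj e
    have e3 : x / x' = (y x / y x') ^ l := by
      rw [div_pow, ← hy x hx, ← hy x' hx', e1,
        div_div_div_cancel_right₀ (hH.ne (hq _ ⟨x', hx', rfl⟩).1)]
    refine ⟨_, hroot _ (fun i => ?_) (e3 ▸ hH.div hx hx'), e3⟩
    obtain ⟨k1, k2⟩ := not_nu.1 (hH2 _ (hy' x' hx') i)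
    rw [div_sub_one (ne_zero_pow hl0 k1), div_eq_mul_inv]
    exact nu_mul (hχ' i _ _ (hH1 _ (hy' x hx) i) (hH1 _ (hy' x' hx') i) (congrFun e2 i))
      (mem_of_pow hl0 (by rwa [inv_pow]))
  have hP : ∀ x ∈ H, x ∈ {x | ∃ y, (y - 1) / π ∈ D ∧ x = y ^ l} ↔ x ∈ T := by
    refine fun x hx => ⟨fun ⟨y, hy, e⟩ => ⟨y, hroot y (fun i => ?_) (e ▸ hx), e⟩,
      fun ⟨y, hy, e⟩ => ⟨y, ?_, e⟩⟩
    · simpa [hπ0] using nu_mul' (h2 _ hy i) (hπ i)
    · convert h1 _ hy using 1
      rw [← hbe]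
      field_simp
  have hPd : S.U {x | ∃ y, (y - 1) / π ∈ D ∧ x = y ^ l} :=
    NS.ex1 (P := fun v y => (y - 1) / π ∈ D ∧ v () = y ^ l) (S.and (hD.app
      (((NS.proj _).sub (NS.const _)).div (NS.const _))) (NS.eq (NS.proj _) ((NS.proj _).pow l)))
  have nd : ∃ᶠ z in nb T, z ≠ 0 := nondiscrete hH hfi fun G hG => by
    obtain ⟨w, k1, -, k2⟩ := Gauge.exists_den O hG
    refine ⟨b * w, mul_ne_zero hb0 k1, fun x hx i => ?_⟩
    convert k2 x hx i using 1
    field_simp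
    ring
  have d : Dat S T H := by
    refine ⟨hT, hH, hfi, ⟨_, hPd, hP⟩, ⟨{z | 1 + z ∈ {x | ∃ y, (y - 1) / π ∈ D ∧ x = y ^ l} ∧
      z / b ∈ D}, S.and (hPd.app ((NS.const _).add (NS.proj _)))
      (hD.app ((NS.proj _).div (NS.const _))), ?_, fun z hz => (hP _ fun i => ?_).1 hz.1⟩,
      ⟨π, hπ0, fun h => hH2 _ (hTH h) i (hπ i)⟩, nd, fun X hX => ?_⟩
    · filter_upwards [nb_ev 1, nb_ev a⁻¹] with z k1 k2
      rw [one_mul] at k1
      refine ⟨(hP _ (hTH k1)).2 k1, ?_⟩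
      convert h1 _ (hTH k2) using 1
      field_simp
      ring
    · simpa using h2 _ hz.2 i
    obtain ⟨n, ⟨f⟩⟩ := Finite.exists_equiv_fin (Option ι)
    let c : Option ι → F := fun k => (hX.infinite hT nd).natEmbedding _ (f k)
    have hc : Function.Injective c := Subtype.val_injective.comp
      (((hX.infinite hT nd).natEmbedding _).injective.comp (Fin.val_injective.comp f.injective))
    obtain ⟨ρ, k1, -, k2⟩ := Gauge.exists_den O
      (Set.finite_range fun p : Option ι × Option ι => (c p.1 - c p.2)⁻¹)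
    refine ⟨Set.range fun k => X ∩ {x | (ρ * π)⁻¹ * x + (1 - (ρ * π)⁻¹ * c k) ∈ T},
      Set.finite_range _, ?_, fun y => ?_⟩
    · rintro _ ⟨k, rfl⟩
      exact ⟨hX.1.inter (hT.op_aff _ _), ⟨c k, ((hX.infinite hT nd).natEmbedding _ (f k)).2,
        by simpa using hT.one⟩, Set.inter_subset_left⟩
    obtain ⟨k, hk⟩ : ∃ k, ∀ i, (c k - y) / (ρ * π) ∉ O i := by
      by_contra h
      push Not at h
      choose r hr using h
      cases nonempty_fintype ι
      obtain ⟨k, k', k3, k4⟩ := Fintype.exists_ne_map_eq_of_card_lt r (by simp)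
      refine not_nu.2 ⟨hπ0, ?_⟩ (hπ (r k'))
      convert mul_mem (sub_mem (k4 ▸ hr k) (hr k')) (k2 _ ⟨(k, k'), rfl⟩ _) using 1
      have := sub_ne_zero.2 (hc.ne k3)
      field_simp
      ring
    have h0 : c k - y ≠ 0 := fun h => hk i (by simp [h])
    have key : ∀ x, (ρ * π)⁻¹ * x + (1 - (ρ * π)⁻¹ * c k) ∈ T → (x - y) / (c k - y) ∈ H := by
      intro x hx i
      convert mul_mem (hTH hx i) (((O i).mem_or_inv_mem _).resolve_left (hk i)) using 1
      field_simp
      ring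
    refine ⟨_, ⟨k, rfl⟩, fun x hx x' hx' => ?_⟩
    rw [← div_div_div_cancel_right₀ h0]
    exact hH.div (key x hx.2) (key x' hx'.2)
  obtain ⟨V, -, hV, c, hc0, hc⟩ := d.gauge
  have k1 : ∀ i, ∀ x ∈ V, c / b * x ∈ O i := fun i x hx => by
    convert hTH (hc x hx) i using 1
    ring
  obtain ⟨z, k2, k3, k4⟩ := hV.exists_root (hO i) (hO j) (div_ne_zero hc0 hb0) (k1 i) (k1 j) hij
    hζ c⁻¹
  obtain ⟨y, hy, e⟩ := hc _ k2
  rw [mul_inv_cancel_left₀ hc0, add_sub_cancel] at e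
  obtain ⟨k5, k6⟩ := not_nu.1 (hH2 y hy i)
  have k7 : z / y = 1 := eq_one_of_nu (hl i) (by
    convert nu_mul (sub_mem k3 (hH1 y hy i)) k6 using 1
    field_simp
    ring) (by rw [div_pow, e, div_self (pow_ne_zero _ k5)])
  rw [div_eq_one_iff_eq k5] at k7
  exact hζ1 (eq_one_of_nu (hl j) (by simpa [k7] using sub_mem (hH1 y hy j) k4) hζ)

lemma FI.up {l : ℕ} (h : FI {x : F | x ≠ 0} (PW F l)) (u : Ultrafilter F) :
    FI {x : Up u | x ≠ 0} (PW (Up u) l) := by
  obtain ⟨κ, _, χ, hχ⟩ := h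
  choose r hr using cl_surj (u := u)
  choose χ' hχ' using fun w : Up u => Ultrafilter.eventually_exists_iff.1
    (Eventually.of_forall (f := u) fun t => exists_eq' (a' := χ (r w t)))
  refine ⟨κ, ‹_›, χ', fun x hx y hy e => ⟨div_ne_zero hx hy, ?_⟩⟩
  have h1 : ∀ᶠ t in u, ∃ z, r x t / r y t = z ^ l := by
    filter_upwards [hχ' x, hχ' y, cl_ne.1 (show cl u (r x) ≠ cl u 0 by rwa [hr]),
      cl_ne.1 (show cl u (r y) ≠ cl u 0 by rwa [hr])] with t k1 k2 k3 k4
    exact (hχ _ k3 _ k4 (k1.trans (e.trans k2.symm))).2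
  obtain ⟨z, hz⟩ := h1.choice
  exact ⟨cl u z, by rw [← hr x, ← hr y]; exact Germ.coe_eq.2 hz⟩

/-- The topology of a definable subgroup of finite index is a definable V-topology. -/
theorem exists_vgauge (S : NS F) [Infinite F] {T : Set F} (hT : MG T) (hP : S.U T)
    (hf : FI {x : F | x ≠ 0} T) {q : F} (hq0 : q ≠ 0) (hq : q ∉ T)
    (hh : (∃ p : ℕ, p.Prime ∧ (p : F) = 0) ∨ ∃ (l : ℕ) (ζ : F), ζ ^ l = 1 ∧ ζ ≠ 1 ∧ (l : F) ≠ 0 ∧
      FI {x : F | x ≠ 0} (PW F l)) : ∃ V, S.U V ∧ Gauge V ∧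
      (∃ c : F, c ≠ 0 ∧ ∀ x ∈ V, 1 + c * x ∈ T) ∧ ∃ g : F, g ≠ 0 ∧ ∀ x, x ∈ V ∨ g * x⁻¹ ∈ V := by
  have nd : ∃ᶠ z in nb T, z ≠ 0 := nondiscrete mg_ne hf fun G hG => by
    obtain ⟨w, hw⟩ := ((hG.image fun x => -x⁻¹).insert 0).exists_notMem
    refine ⟨w, fun h => hw (Or.inl h), fun x hx h => hw (Or.inr ⟨x, hx, ?_⟩)⟩
    have h0 : x ≠ 0 := fun e => by simp [e] at h
    field_simp
    linear_combination -h
  have d : Dat S T {x | x ≠ 0} := by
    refine ⟨hT, mg_ne, hf, ⟨_, hP, fun _ _ => Iff.rfl⟩, ⟨{z | 1 + z ∈ T},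
      hP.app ((NS.const _).add (NS.proj _)), (nb_ev 1).mono fun z h => by rwa [one_mul] at h,
      fun z h => h⟩, ⟨q, hq0, hq⟩, nd, fun X hX => ?_⟩
    obtain ⟨c, hc, c', hc', h⟩ := (hX.infinite hT nd).nontrivial
    have h0 := sub_ne_zero.2 h.symm
    let α := (q - 1) / (c' - c)
    refine ⟨{X ∩ {x | α * x + (1 - α * c) ∈ T},
      X ∩ {x | α / q * x + (1 - α * c) / q ∈ T}}, Set.toFinite _, ?_, fun y => ?_⟩
    · rintro _ (rfl | rfl)
      · exact ⟨hX.1.inter (hT.op_aff _ _), ⟨c, hc, by simpa using hT.one⟩, Set.inter_subset_left⟩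
      · refine ⟨hX.1.inter (hT.op_aff _ _), ⟨c', hc', ?_⟩, Set.inter_subset_left⟩
        change _ ∈ T
        convert hT.one using 1
        simp only [α]
        field_simp
        ring
    have key : ∀ Y : Set F, y ∉ Y → ∀ x ∈ Y, ∀ x' ∈ Y, (x - y) / (x' - y) ∈ {x : F | x ≠ 0} :=
      fun Y hy x hx x' hx' => div_ne_zero (sub_ne_zero.2 (ne_of_mem_of_not_mem hx hy))
        (sub_ne_zero.2 (ne_of_mem_of_not_mem hx' hy))
    by_cases hy : α * y + (1 - α * c) ∈ T
    · refine ⟨_, Or.inr rfl, key _ fun h => hq ?_⟩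
      have h1 : (α * y + (1 - α * c)) / q ∈ T := by
        rw [add_div, ← div_mul_eq_mul_div]
        exact h.2
      have h2 := hT.div hy h1
      rwa [div_div_cancel₀ (hT.ne hy)] at h2
    · exact ⟨_, Or.inl rfl, key _ fun h => hy h.2⟩
  obtain ⟨V, h1, hV, h2⟩ := d.gauge
  refine ⟨V, h1, hV, h2, ?_⟩
  obtain ⟨u, hu⟩ := hV.exists_uf
  obtain ⟨ι, _, O, hO⟩ := hV.exists_places (u := u)
  refine (hV.dichotomy hu hO).resolve_right fun hI => ?_
  have := Infinite.of_injective _ (dg u).injective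
  have h3 : cl u id ≠ 0 := cl_ne.2 ((hu 0).mono fun t h => h.1)
  have h4 := (hV.small_iff hu hO (cl u id)).1 fun h =>
    (hu h).mono fun t ht => (mul_comm t h ▸ ht.2 : h * t ∈ V)
  have h5 : ∀ x, (∀ i, x ∈ O i) → cl u id * x ∈ st u V := fun x hx => by
    have h5 := (hV.small_iff hu hO _).2 (fun i => nu_mul (h4 i) (hx i)) 1
    rwa [map_one, one_mul] at h5
  have h6 : ∀ x ∈ st u V, ∀ i, x ∈ O i := fun x hx => (hO.mem _).1 (hV.st_mem hx)
  rcases hh with ⟨p, hp, h0⟩ | ⟨l, ζ, hζ, hζ1, hl, hf'⟩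
  · exact no_idem (S.up u) hp (by rw [← map_natCast (dg u), h0, map_zero]) (h1.up u) h3 h5 h6 h3 h4
      hI
  obtain ⟨i, j, hij⟩ := hI.indep
  refine no_indep (S.up u) O (fun i h => not_nu.2 ⟨h3, h ▸ trivial⟩ (h4 i)) (h1.up u) h3
    h5 h6 (ζ := dg u ζ)
    (by rw [← map_pow, hζ, map_one]) (fun h => hζ1 ((dg u).injective (h.trans (map_one _).symm)))
    (fun i => ?_) (hf'.up u) hij
  rw [← map_natCast (dg u)]
  exact not_nu.2 ⟨(map_ne_zero _).2 hl, map_inv₀ (dg u) _ ▸ (hO.mem _).1 (hV.dg_mem _) i⟩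

lemma U_PW (S : NS F) (p : ℕ) : S.U (PW F p) := S.and (S.not (NS.eq (NS.proj _) (NS.const _)))
  (NS.ex1 (P := fun v y => v () = y ^ p) (NS.eq (NS.proj _) ((NS.proj _).pow p)))

end Pool.Agent.MP_829a8f_lc.H33

end MrgPart3

-- ======== part 4: formerly Pool.Agent.MP_829a8f_lc.h33.Res
section MrgPart4

/-!
Structures on finite extensions and residue fields; two incomparable valuation rings cannot both be
definable up to a unit of their join.
-/

namespace Pool.Agent.MP_829a8f_lc.H33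

open IsLocalRing

theorem exists_ext {K : Type} [Field K] (S : NS K) (L : Type) [Field L] [Algebra K L]
    [FiniteDimensional K L] : ∃ S' : NS L, (∀ D, S.U D → S'.U (algebraMap K L '' D)) ∧
      ∀ D, S'.U D → S.U (algebraMap K L ⁻¹' D) := by
  let v := Module.finBasis K L
  have e1 : ∀ (w : Fin (Module.finrank K L) → K) (c : K),
      algebraMap K L c = v.equivFun.symm w ↔ ∀ i, c * v.repr 1 i = w i := by
    intro w c
    rw [LinearEquiv.eq_symm_apply, Algebra.algebraMap_eq_smul_one, map_smul, funext_iff]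
    rfl
  let I : Interp S L (Fin (Module.finrank K L)) :=
    { X := fun _ => True
      π := v.equivFun.symm
      hX := NS.tru
      surj := fun y => ⟨v.equivFun y, trivial, v.equivFun.symm_apply_apply y⟩
      add := NS.congr (NS.all fun i => NS.eq ((NS.proj (0, i)).add (NS.proj (1, i)))
        (NS.proj (2, i))) fun w => by
          rw [← map_add, v.equivFun.symm.injective.eq_iff, funext_iff]
          exact and_iff_right fun _ => trivial
      mul := NS.congr (NS.all fun k => NS.eq (NS.Fn.sum Finset.univ fun i => NS.Fn.sum Finset.univ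
        fun j => ((NS.proj (0, i)).mul (NS.proj (1, j))).mul (NS.const (v.repr (v i * v j) k)))
        (NS.proj (2, k))) fun w => by
          rw [LinearEquiv.eq_symm_apply, funext_iff, and_iff_right fun _ => trivial]
          simp [Finset.sum_mul_sum, mul_assoc, mul_left_comm] }
  refine ⟨I.ns, fun D hD => I.U_iff.2 (NS.congr (NS.ex1 (P := fun w c => c ∈ D ∧
    ∀ i, c * v.repr 1 i = w i) (S.and (hD.app (NS.proj _)) (NS.all fun i => NS.eq
      ((NS.proj _).mul (NS.const _)) (NS.proj _)))) fun w => ?_), fun D hD => NS.congr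
      (NS.comp (g := fun i w => w () * v.repr 1 i) (I.U_iff.1 hD)
      fun i => (NS.proj _).mul (NS.const _)) fun w => ?_⟩
  · exact (and_iff_right trivial).trans (exists_congr fun c => and_congr_right fun _ => e1 w c)
  · rw [Set.mem_preimage, (e1 _ _).2 fun _ => rfl]
    exact (and_iff_right trivial).symm

variable {L : Type} [Field L]

lemma res_eq {W : ValuationSubring L} {x y : W} :
    residue W x = residue W y ↔ (x : L) - y ∈ W.nonunits := by
  rw [← sub_eq_zero, ← map_sub, residue_eq_zero_iff, ← W.coe_mem_nonunits_iff]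
  rfl

lemma NS.U.nu {S : NS L} {W : ValuationSubring L} (h : S.U W) : S.U W.nonunits :=
  NS.congr (NS.or (NS.eq (NS.proj ()) (NS.const 0)) (S.not (h.app (NS.proj ()).inv)))
    fun _ => W.mem_nonunits_iff_or

theorem exists_res (S : NS L) {W : ValuationSubring L} (hW : S.U W) :
    ∃ S' : NS (ResidueField W), ∀ D, S.U D → S'.U {z | ∃ x : W, (x : L) ∈ D ∧ residue W x = z} := by
  classical
  let π : (Unit → L) → ResidueField W := fun w => if h : w () ∈ W then residue W ⟨_, h⟩ else 0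
  have hπ : ∀ (w : Unit → L) (h : w () ∈ W), π w = residue W ⟨_, h⟩ := fun w h => dif_pos h
  let I : Interp S (ResidueField W) Unit :=
    { X := fun w => w () ∈ W
      π := π
      hX := hW
      surj := fun y => by
        obtain ⟨x, rfl⟩ := residue_surjective y
        exact ⟨fun _ => x, x.2, hπ (fun _ => x) x.2⟩
      add := NS.congr (S.and (NS.all fun a => hW.app (NS.proj (a, ()))) (hW.nu.app
        (((NS.proj (0, ())).add (NS.proj (1, ()))).sub (NS.proj (2, ()))))) fun w =>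
          and_congr_right fun h => by
            rw [hπ (fun i => w (0, i)) (h 0), hπ (fun i => w (1, i)) (h 1),
              hπ (fun i => w (2, i)) (h 2), ← map_add, res_eq]
            rfl
      mul := NS.congr (S.and (NS.all fun a => hW.app (NS.proj (a, ()))) (hW.nu.app
        (((NS.proj (0, ())).mul (NS.proj (1, ()))).sub (NS.proj (2, ()))))) fun w =>
          and_congr_right fun h => by
            rw [hπ (fun i => w (0, i)) (h 0), hπ (fun i => w (1, i)) (h 1),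
              hπ (fun i => w (2, i)) (h 2), ← map_mul, res_eq]
            rfl }
  refine ⟨I.ns, fun D hD => I.U_iff.2 ?_⟩
  have h1 : S.D fun w : Unit → L => w () ∈ W ∧ ∃ x, x ∈ W ∧ x ∈ D ∧ x - w () ∈ W.nonunits :=
    S.and hW (NS.ex1 (P := fun w x => x ∈ W ∧ x ∈ D ∧ x - w () ∈ W.nonunits)
      (S.and (hW.app (NS.proj _)) (S.and (hD.app (NS.proj _))
      (hW.nu.app ((NS.proj _).sub (NS.proj _))))))
  refine NS.congr h1 fun w => and_congr_right fun h => ?_
  change π w ∈ _ ↔ _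
  rw [hπ w h]
  constructor
  · rintro ⟨x, k1, k2⟩
    exact ⟨x, x.2, k1, res_eq.1 k2⟩
  · rintro ⟨x, k1, k2, k3⟩
    exact ⟨⟨x, k1⟩, k2, res_eq.2 k3⟩

/-- The image of a finer valuation ring in the residue field. -/
def resV (W O : ValuationSubring L) (h : O ≤ W) : ValuationSubring (ResidueField W) where
  carrier := {z | ∃ x : W, (x : L) ∈ O ∧ residue W x = z}
  zero_mem' := ⟨0, zero_mem O, map_zero _⟩
  one_mem' := ⟨1, one_mem O, map_one _⟩
  add_mem' := fun ⟨x, hx, e⟩ ⟨y, hy, e'⟩ => ⟨x + y, add_mem hx hy, by rw [map_add, e, e']⟩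
  mul_mem' := fun ⟨x, hx, e⟩ ⟨y, hy, e'⟩ => ⟨x * y, mul_mem hx hy, by rw [map_mul, e, e']⟩
  neg_mem' := fun ⟨x, hx, e⟩ => ⟨-x, neg_mem hx, by rw [map_neg, e]⟩
  mem_or_inv_mem' z := by
    obtain ⟨x, rfl⟩ := residue_surjective z
    by_cases hx : (x : L) ∈ O
    · exact Or.inl ⟨x, hx, rfl⟩
    have h1 := (O.mem_or_inv_mem x).resolve_left hx
    refine Or.inr ⟨⟨_, h h1⟩, h1, eq_inv_of_mul_eq_one_left ?_⟩
    rw [← map_mul, ← map_one (residue W)]
    exact congrArg _ (Subtype.ext (inv_mul_cancel₀ fun e => hx (e ▸ zero_mem O)))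

lemma mem_resV {W O : ValuationSubring L} {h : O ≤ W} {x : W} :
    residue W x ∈ resV W O h ↔ (x : L) ∈ O :=
  ⟨fun ⟨y, hy, e⟩ => by
    simpa using sub_mem hy (nu_le (ValuationSubring.nonunits_le_nonunits.2 h (res_eq.1 e))),
    fun hx => ⟨x, hx, rfl⟩⟩

lemma res_ne {W : ValuationSubring L} {x : W} : residue W x ≠ 0 ↔ (x : L) ∉ W.nonunits := by
  rw [Ne, residue_eq_zero_iff, W.coe_mem_nonunits_iff]

lemma infinite_of_ne_top {O : ValuationSubring L} (h : O ≠ ⊤) : Infinite L := by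
  obtain ⟨x, hx⟩ := exists_not_mem h
  by_contra hf
  have := not_infinite_iff_finite.1 hf
  obtain ⟨n, hn, e⟩ := isOfFinOrder_iff_pow_eq_one.1
    (isOfFinOrder_of_finite (Units.mk0 x fun e => hx (e ▸ zero_mem O)))
  refine hx (mem_of_pow hn.ne' ?_)
  rw [show x ^ n = 1 by simpa using congrArg Units.val e]
  exact one_mem O

lemma FI.res {l : ℕ} (hl : l ≠ 0) (h : FI {x : L | x ≠ 0} (PW L l)) (W : ValuationSubring L) :
    FI {x : ResidueField W | x ≠ 0} (PW _ l) := by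
  obtain ⟨κ, _, χ, hχ⟩ := h
  choose r hr using residue_surjective (R := W)
  refine ⟨κ, ‹_›, fun z => χ (r z), fun x hx y hy e => ⟨div_ne_zero hx hy, ?_⟩⟩
  obtain ⟨h1, -⟩ := not_nu.1 (res_ne.1 (hr x ▸ hx))
  obtain ⟨h2, h3⟩ := not_nu.1 (res_ne.1 (hr y ▸ hy))
  obtain ⟨-, z, hz⟩ := hχ _ h1 _ h2 e
  have h4 : z ∈ W := mem_of_pow hl (by
    rw [← hz, div_eq_mul_inv]
    exact mul_mem (r x).2 h3)
  refine ⟨residue W ⟨z, h4⟩, ?_⟩
  rw [div_eq_iff hy, ← hr x, ← hr y, ← map_pow, ← map_mul]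
  exact congrArg _ (Subtype.ext ((div_eq_iff h2).1 hz))

lemma mul_mem_add {O O' : ValuationSubring L} {x y : L} (hx : x ∈ O) (hy : y ∈ O') :
    ∃ w ∈ O, x * y - w ∈ O' := by
  by_cases h : y ∈ O
  · exact ⟨_, mul_mem hx h, by simp⟩
  by_cases h' : x ∈ O'
  · exact ⟨0, zero_mem _, by simpa using mul_mem h' hy⟩
  have key : ∀ {O : ValuationSubring L} {x y : L}, x ∈ O → y ∉ O →
      x + y ≠ 0 ∧ x * x * y / (x + y) ∈ O := by
    intro O x y hx hy
    have h0 : y ≠ 0 := fun e => hy (e ▸ zero_mem O)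
    obtain ⟨h1, h2⟩ := not_nu.1 (not_nu_of_sub (y := x * y⁻¹ + 1) one_nu (by
      simpa using nu_mul' hx (O.inv_mem_nonunits_iff.2 (Or.inr hy))))
    have e : x + y = (x * y⁻¹ + 1) * y := by field_simp
    rw [e]
    refine ⟨mul_ne_zero h1 h0, ?_⟩
    rw [mul_div_mul_right _ _ h0, div_eq_mul_inv]
    exact mul_mem (mul_mem hx hx) h2
  refine ⟨_, (key hx h).2, ?_⟩
  convert (key hy h').2 using 1
  have := (key hx h).1
  rw [add_comm y]
  field_simp
  ring

/-- The join of two valuation rings is their sum. -/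
def sumV (O O' : ValuationSubring L) : ValuationSubring L where
  carrier := {x | ∃ w ∈ O, x - w ∈ O'}
  zero_mem' := ⟨0, zero_mem _, by simp⟩
  one_mem' := ⟨1, one_mem _, by simp⟩
  add_mem' := fun ⟨x, hx, e⟩ ⟨y, hy, e'⟩ =>
    ⟨x + y, add_mem hx hy, by rw [add_sub_add_comm]; exact add_mem e e'⟩
  mul_mem' := fun {a b} ⟨x, hx, e⟩ ⟨y, hy, e'⟩ => by
    obtain ⟨s, hs, hs'⟩ := mul_mem_add hx e'
    obtain ⟨t, ht, ht'⟩ := mul_mem_add hy e
    refine ⟨x * y + s + t, add_mem (add_mem (mul_mem hx hy) hs) ht, ?_⟩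
    convert add_mem (add_mem hs' ht') (mul_mem e e') using 1
    ring
  neg_mem' := fun ⟨x, hx, e⟩ => ⟨-x, neg_mem hx, by rw [neg_sub_neg, ← neg_sub]; exact neg_mem e⟩
  mem_or_inv_mem' x := (O.mem_or_inv_mem x).imp (fun h => ⟨_, h, by simp⟩) fun h => ⟨_, h, by simp⟩

theorem no_incomp (S : NS L) (O : Bool → ValuationSubring L) (hO : ∀ b, ¬ O (!b) ≤ O b)
    (R : Bool → Set L) (hR : ∀ b, S.U (R b)) {a : L} (ha : a ≠ 0) (h1 : ∀ b, ∀ x ∈ O b, x ∈ R b)
    (h2 : ∀ b, ∀ x ∈ R b, a * x ∈ O b) (h3 : ∀ W, (∀ b, O b ≤ W) → a⁻¹ ∈ W) {l : ℕ} {ζ : L}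
    (hζ : ζ ^ l = 1) (hζ1 : ζ ≠ 1) (hl : ∀ b, (l : L) ∉ (O b).nonunits)
    (hf : FI {x : L | x ≠ 0} (PW L l)) : False := by
  let W := sumV (O true) (O false)
  have hW : ∀ b, O b ≤ W := Bool.forall_bool.2
    ⟨fun x hx => ⟨0, zero_mem _, by simpa using hx⟩, fun x hx => ⟨x, hx, by simp⟩⟩
  have hl0 : l ≠ 0 := fun h => hl true (by simp [h])
  have h4 : ∀ b, ∀ x ∈ R b, x ∈ W := fun b x hx => by
    simpa [ha] using mul_mem (h3 W hW) (hW b (h2 b x hx))
  have hWd : S.U W := NS.congr (NS.ex1 (P := fun v y => y ∈ R true ∧ v () - y ∈ R false)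
    (S.and ((hR _).app (NS.proj _)) ((hR _).app ((NS.proj _).sub (NS.proj _))))) fun v =>
      ⟨fun ⟨w, k1, k2⟩ => ⟨w, h1 _ _ k1, h1 _ _ k2⟩, fun ⟨w, k1, k2⟩ => by
        simpa using add_mem (h4 _ _ k2) (h4 _ _ k1)⟩
  obtain ⟨S', hS'⟩ := exists_res S hWd
  have haW : a ∈ W := by simpa using hW _ (h2 true 1 (h1 _ _ (one_mem _)))
  have hζW : ζ ∈ W := mem_of_pow hl0 (hζ ▸ one_mem W)
  have hlW : (l : L) ∉ W.nonunits :=
    mt (ValuationSubring.nonunits_le_nonunits.2 (hW true) ·) (hl true)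
  have h5 : ∀ b, resV W (O b) (hW b) ≠ ⊤ := fun b e =>
    hO b fun x hx => (mem_resV (h := hW b) (x := ⟨x, hW _ hx⟩)).1 (by rw [e]; trivial)
  have := infinite_of_ne_top (h5 true)
  refine no_indep S' (fun b => resV W (O b) (hW b)) h5 (hS' {x | ∀ b, x / a ∈ R b}
    (NS.all fun b => (hR b).app ((NS.proj _).div (NS.const _)))) (a := residue W ⟨a, haW⟩)
    (res_ne.2 (not_nu.2 ⟨ha, h3 W hW⟩)) (fun z hz => ?_) ?_ (ζ := residue W ⟨ζ, hζW⟩) ?_
    (fun e => ?_) (fun b => ?_) (hf.res hl0 W) (i := true) (j := false) fun z => ?_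
  · obtain ⟨x, rfl⟩ := residue_surjective z
    exact ⟨⟨a, haW⟩ * x, fun b => by simpa [ha] using h1 b _ (mem_resV.1 (hz b)), map_mul _ _ _⟩
  · rintro _ ⟨x, hx, rfl⟩ b
    exact mem_resV.2 (by simpa [mul_div_cancel₀ _ ha] using h2 b _ (hx b))
  · rw [← map_pow, ← map_one (residue W)]
    exact congrArg _ (Subtype.ext hζ)
  · exact hζ1 (eq_one_of_nu hlW (res_eq.1 (e.trans (map_one _).symm)) hζ)
  · obtain ⟨k1, k2⟩ := not_nu.1 (hl b)
    rw [← map_natCast (residue W)]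
    refine not_nu.2 ⟨res_ne.2 (by simpa using hlW), ⟨_, hW b k2⟩, k2,
      eq_inv_of_mul_eq_one_left ?_⟩
    rw [← map_mul, ← map_one (residue W)]
    exact congrArg _ (Subtype.ext (by simpa using inv_mul_cancel₀ k1))
  · obtain ⟨x, rfl⟩ := residue_surjective z
    obtain ⟨w, k1, k2⟩ := x.2
    exact ⟨residue W ⟨w, hW _ k1⟩, mem_resV.2 k1, by rw [← map_sub]; exact mem_resV.2 k2⟩

end Pool.Agent.MP_829a8f_lc.H33

end MrgPart4

-- ======== part 5: formerly Pool.Agent.MP_829a8f_lc.h33.Ext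
section MrgPart5

/-!
Uniqueness of the extension of a valuation ring that is definable up to scaling, and Hensel's lemma.
-/

namespace Pool.Agent.MP_829a8f_lc.H33

open IsLocalRing Polynomial Finset

variable {K L : Type} [Field K] [Field L] [Algebra K L] {O : ValuationSubring K}

lemma over_mem {W : ValuationSubring L} (h : W.comap (algebraMap K L) = O) {x : K} :
    algebraMap K L x ∈ W ↔ x ∈ O := by rw [← h, ValuationSubring.mem_comap]

lemma over_nu {W : ValuationSubring L} (h : W.comap (algebraMap K L) = O) {x : K} :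
    algebraMap K L x ∈ W.nonunits ↔ x ∈ O.nonunits := by
  rw [← not_iff_not, not_nu, not_nu, ← map_inv₀, over_mem h, _root_.map_ne_zero]

lemma exists_over {x : L} (hx : ¬ IsIntegral O x) :
    ∃ W : ValuationSubring L, W.comap (algebraMap K L) = O ∧ x ∉ W := by
  have hx0 : x ≠ 0 := fun h => hx (h ▸ isIntegral_zero)
  let := invertibleOfNonzero hx0
  let B := Algebra.adjoin O {x⁻¹}
  let y : B.toSubring := ⟨x⁻¹, Algebra.subset_adjoin rfl⟩
  have : (maximalIdeal O).map (algebraMap _ B) + .span {y} ≠ ⊤ := fun eq => hx <|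
    have ⟨q, hq, hqx⟩ := Algebra.exists_aeval_invOf_eq_zero_of_idealMap_adjoin_sup_span_eq_top _ _
      (maximalIdeal.isMaximal O).ne_top eq
    have H : IsUnit q.leadingCoeff := of_not_not fun h => by simpa using sub_mem h hq
    ⟨.C H.unit⁻¹.1 * q, by simp [Polynomial.Monic], by simpa using .inr hqx⟩
  obtain ⟨V, hV, hV'⟩ := Ideal.image_subset_nonunits_valuationSubring (A := B.toSubring) _ this
  refine ⟨V, le_antisymm (fun a ha => ?_) fun a ha => hV (B.algebraMap_mem ⟨a, ha⟩),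
    (V.inv_mem_nonunits_iff.mp <|
      hV' ⟨_, le_add_self (α := Ideal B) (Ideal.subset_span rfl), rfl⟩).resolve_left hx0⟩
  by_contra ha'
  obtain ⟨b, hb⟩ := O.mem_nonunits_iff_exists_mem_maximalIdeal.1
    (O.inv_mem_nonunits_iff.2 (Or.inr ha'))
  have h2 : algebraMap K L a⁻¹ ∈ V.nonunits :=
    hV' ⟨_, le_self_add (α := Ideal B) (Ideal.mem_map_of_mem _ hb), rfl⟩
  rw [map_inv₀, V.inv_mem_nonunits_iff, map_eq_zero] at h2
  exact h2.elim (fun h => ha' (h ▸ zero_mem O)) fun h => h ha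

lemma exists_pow {W : ValuationSubring L} (h : W.comap (algebraMap K L) = O) {y : L}
    (hi : IsIntegral K y) (hy : y ∈ W.nonunits) :
    ∃ N, ∃ c ∈ O.nonunits, ∃ w ∈ W, y ^ N = algebraMap K L c * w ∧ w⁻¹ ∈ W := by
  by_cases h0 : y = 0
  · exact ⟨1, 0, zero_mem _, 0, zero_mem _, by simp [h0]⟩
  let t : ℕ → L := fun i => algebraMap K L ((minpoly K y).coeff i) * y ^ i
  have key : ∀ i j, i < j → W.valuation (t i) = W.valuation (t j) → t j ≠ 0 →
      ∃ N, ∃ c ∈ O.nonunits, ∃ w ∈ W, y ^ N = algebraMap K L c * w ∧ w⁻¹ ∈ W := by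
    intro i j hij e hj
    obtain ⟨r, rfl⟩ := Nat.exists_eq_add_of_lt hij
    have hi : t i ≠ 0 := fun h => hj (by simpa [h] using e.symm)
    have h1 := left_ne_zero_of_mul hi
    have h2 := left_ne_zero_of_mul hj
    have hj' : W.valuation (t (i + r + 1)) ≠ 0 := by simpa using hj
    refine ⟨r + 1, (minpoly K y).coeff i / (minpoly K y).coeff (i + r + 1), (over_nu h).1 ?_,
      t (i + r + 1) / t i, ?_, ?_, ?_⟩
    · convert nu_mul hy (mul_mem (pow_mem (nu_le hy) r) ((W.valuation_le_one_iff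
        (t i / t (i + r + 1))).1 (by rw [map_div₀, e, div_self hj']))) using 1
      simp only [t, map_div₀]
      field_simp
      ring
    · rw [← W.valuation_le_one_iff, map_div₀, e, div_self hj']
    · simp only [t, map_div₀]
      field_simp
      ring
    · rw [← W.valuation_le_one_iff, inv_div, map_div₀, e, div_self hj']
  obtain ⟨i, hi1, hi2⟩ := exists_max_image (range ((minpoly K y).natDegree + 1))
    (fun i => W.valuation (t i)) nonempty_range_add_one
  have h1 : t i ≠ 0 := fun e => by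
    have := hi2 _ (self_mem_range_succ _)
    simp [e, t, (minpoly.monic hi).coeff_natDegree, h0] at this
  by_contra hc
  have h2 := W.valuation.map_sum_eq_of_lt hi1 (f := t) fun j hj => by
    obtain ⟨k1, k2⟩ := mem_sdiff.1 hj
    refine lt_of_le_of_ne (hi2 j k1) fun e => hc ?_
    rcases lt_or_gt_of_ne (mt mem_singleton.2 k2) with k | k
    · exact key j i k e h1
    · exact key i j k e.symm fun k3 => h1 (by simpa [k3] using e.symm)
  have h3 := minpoly.aeval K y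
  rw [aeval_eq_sum_range] at h3
  simp only [Algebra.smul_def] at h3
  rw [h3, map_zero] at h2
  exact h1 (by simpa using h2.symm)

lemma over_eq [Algebra.IsAlgebraic K L] {W W' : ValuationSubring L}
    (h : W.comap (algebraMap K L) = O) (h' : W'.comap (algebraMap K L) = O) (hle : W ≤ W') :
    W = W' := by
  refine le_antisymm hle (ValuationSubring.nonunits_le_nonunits.1 fun y hy => ?_)
  obtain ⟨N, c, hc, w, hw, e, -⟩ := exists_pow h (Algebra.IsIntegral.isIntegral y) hy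
  by_contra h1
  exact not_nu_prod (range N) (fun _ _ => h1)
    (by simpa [e] using nu_mul ((over_nu h').2 hc) (hle hw))

lemma finite_over [FiniteDimensional K L] :
    Finite {W : ValuationSubring L // W.comap (algebraMap K L) = O} := by
  classical
  by_contra hf
  have := not_finite_iff_infinite.1 hf
  let W : Fin (Module.finrank K L + 1) → _ := fun j => Infinite.natEmbedding
    {W : ValuationSubring L // W.comap (algebraMap K L) = O} j
  choose e he using fun j => approx (fun j => (W j).1) (fun _ => 1) (fun _ => one_ne_zero)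
    (fun _ => one_mem _) (fun i j hij h => hij (Fin.ext ((Infinite.natEmbedding _).injective
      (Subtype.ext (over_eq (W i).2 (W j).2 h))))) (fun _ _ _ => by simp)
    (fun i => if i = j then 1 else 0) fun i => by split_ifs <;> simp
  have h1 : LinearIndependent K e := Fintype.linearIndependent_iff.2 fun c hc => by
    obtain ⟨j, -, hj⟩ := exists_max_image univ (fun j => O.valuation (c j)) univ_nonempty
    by_cases h0 : c j = 0
    · exact fun i => by simpa [h0] using hj i (mem_univ _)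
    exfalso
    have h2 : ∑ i, algebraMap K L (c i / c j) * (e i - if j = i then 1 else 0) = -1 := by
      simp only [mul_sub, sum_sub_distrib, mul_ite, mul_one, mul_zero, sum_ite_eq, mem_univ,
        if_true, div_self h0, map_one]
      simp only [← Algebra.smul_def, div_eq_inv_mul, mul_smul, ← smul_sum, hc, smul_zero, zero_sub]
    refine one_nu (O := (W j).1) (neg_mem_iff.1 (h2 ▸ sum_mem fun i _ => nu_mul'
      ((over_mem (W j).2).2 ?_) ?_))
    · rw [← O.valuation_le_one_iff, map_div₀]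
      exact div_le_one_of_le₀ (hj i (mem_univ _)) zero_le
    · simpa only [map_one, ValuationSubring.mem_nonunits_iff] using he i j
  simpa using h1.fintype_card_le_finrank

/-- Uniqueness of the extension. -/
theorem uniq_ext (S : NS K) [FiniteDimensional K L] {D : Set K} (hD : S.U D) {a : K} (ha : a ≠ 0)
    (h1 : ∀ x ∈ O, a * x ∈ D) (h2 : ∀ x ∈ D, x ∈ O) (rad : ∀ y ∈ O.nonunits, ∃ k, y ^ k / a ∈ O)
    {l : ℕ} {ζ : L} (hζ : ζ ^ l = 1) (hζ1 : ζ ≠ 1) (hl : (l : K) ∉ O.nonunits)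
    (hf : FI {x : L | x ≠ 0} (PW L l)) {W₁ W₂ : ValuationSubring L}
    (k₁ : W₁.comap (algebraMap K L) = O) (k₂ : W₂.comap (algebraMap K L) = O) : W₁ = W₂ := by
  classical
  by_contra hne
  obtain ⟨S', hS', -⟩ := exists_ext S L
  let ι := {W : ValuationSubring L // W.comap (algebraMap K L) = O}
  have : Finite ι := finite_over
  cases nonempty_fintype ι
  have ha' : algebraMap K L a ≠ 0 := (_root_.map_ne_zero _).2 ha
  have haO : a ∈ O := by simpa using h2 _ (h1 1 (one_mem O))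
  generalize hA : algebraMap K L a = A at ha'
  have hAW : ∀ i : ι, A ∈ i.1 := fun i => hA ▸ (over_mem i.2).2 haO
  have hinc : ∀ i j : ι, i ≠ j → ¬ i.1 ≤ j.1 := fun i j hij h =>
    hij (Subtype.ext (over_eq i.2 j.2 h))
  have hun : ∀ i j : ι, i ≠ j → ∀ W, i.1 ≤ W → j.1 ≤ W → A⁻¹ ∈ W := by
    intro i j hij W hi hj
    obtain ⟨x, hx, hx'⟩ := SetLike.not_le_iff_exists.1 (hinc i j hij)
    obtain ⟨N, c, hc, w, hw, e, -⟩ := exists_pow j.2 (Algebra.IsIntegral.isIntegral x⁻¹)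
      (j.1.inv_mem_nonunits_iff.2 (Or.inr hx'))
    obtain ⟨k, hk⟩ := rad c hc
    have h0 : x ≠ 0 := fun h => hx' (h ▸ zero_mem _)
    convert mul_mem (pow_mem (mul_mem (hj hw) (pow_mem (hi hx) N)) k)
      (hj ((over_mem j.2).2 hk)) using 1
    rw [map_div₀, map_pow, hA, mul_div_assoc', ← mul_pow, mul_right_comm, mul_comm w, ← e,
      ← mul_pow, inv_mul_cancel₀ h0, one_pow, one_pow, one_div]
  let n := Module.finrank K L
  let E : Set L := {x | ∃ c : Fin n → L, (∀ i, c i ∈ algebraMap K L '' D) ∧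
    (A * x) ^ n + ∑ i, c i * (A * x) ^ (i : ℕ) = 0}
  have hE : S'.U E := NS.ex' (P := fun v (c : Fin n → L) => (∀ i, c i ∈ algebraMap K L '' D) ∧
    (A * v ()) ^ n + ∑ i, c i * (A * v ()) ^ (i : ℕ) = 0) (S'.and
    (NS.all fun i => (hS' D hD).app (NS.proj _)) (NS.eq ((((NS.const _).mul (NS.proj _)).pow _).add
      (NS.Fn.sum _ fun i => (NS.proj _).mul (((NS.const _).mul (NS.proj _)).pow _))) (NS.const _)))
  have hE1 : ∀ x, (∀ i : ι, x ∈ i.1) → x ∈ E := by
    intro x hx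
    have hi : IsIntegral O x := by
      by_contra h
      obtain ⟨W, k, k'⟩ := exists_over h
      exact k' (hx ⟨W, k⟩)
    have hd : (minpoly O x).natDegree ≤ n := by
      rw [← (minpoly.monic hi).natDegree_map (algebraMap O K),
        ← minpoly.isIntegrallyClosed_eq_field_fractions' K hi]
      exact minpoly.natDegree_le x
    let p := minpoly O x * X ^ (n - (minpoly O x).natDegree)
    have hp : p.Monic := (minpoly.monic hi).mul (monic_X_pow _)
    have hpd : p.natDegree = n := by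
      rw [(minpoly.monic hi).natDegree_mul (monic_X_pow _), natDegree_X_pow]
      omega
    have h3 : aeval x p = 0 := by simp [p]
    rw [aeval_eq_sum_range, sum_range_succ, hp.coeff_natDegree, hpd, sum_range, one_smul] at h3
    refine ⟨fun i => algebraMap K L (a * (a ^ (n - i - 1) * p.coeff i)),
      fun i => ⟨_, h1 _ (mul_mem (pow_mem haO _) (p.coeff i).2), rfl⟩, ?_⟩
    rw [← mul_zero (A ^ n), ← h3, mul_add, mul_sum, add_comm, mul_pow]
    congr 1
    refine sum_congr rfl fun i _ => ?_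
    have e : A ^ n = A * A ^ (n - i - 1) * A ^ (i : ℕ) := by
      rw [← pow_succ', ← pow_add]
      congr 1
      omega
    beta_reduce
    rw [e, map_mul, map_mul, map_pow, hA, Algebra.smul_def,
      IsScalarTower.algebraMap_apply O K L, ValuationSubring.algebraMap_apply]
    ring
  have hE2 : ∀ x ∈ E, ∀ i : ι, A * x ∈ i.1 := by
    rintro x ⟨c, hc, e⟩ j
    by_contra h
    generalize A * x = y at e h
    have h0 : y ≠ 0 := fun e => h (e ▸ zero_mem _)
    have h3 := j.1.inv_mem_nonunits_iff.2 (Or.inr h)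
    have h4 : ∑ i : Fin n, c i * (y⁻¹ ^ (n - i - 1) * y⁻¹) = -1 := by
      refine mul_left_cancel₀ (pow_ne_zero n h0) ?_
      rw [mul_neg, mul_one, neg_eq_of_add_eq_zero_right e, mul_sum]
      refine sum_congr rfl fun i _ => ?_
      have e : y ^ n = y ^ (n - i - 1) * y * y ^ (i : ℕ) := by
        rw [← pow_succ, ← pow_add]
        congr 1
        omega
      rw [e, inv_pow]
      field_simp
    refine one_nu (O := j.1) (neg_mem_iff.1 (h4 ▸ sum_mem fun i _ => nu_mul' ?_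
      (nu_mul' (pow_mem (nu_le h3) _) h3)))
    obtain ⟨d, hd, e⟩ := hc i
    exact e ▸ (over_mem j.2).2 (h2 d hd)
  choose e he using fun J : Set ι => approx (fun i : ι => i.1) (fun _ => A) (fun _ => ha') hAW
    hinc (fun i j hij => hun i j hij _ le_sup_left le_sup_right)
    (fun i => if i ∈ J then 1 else 0) fun i => by split_ifs <;> simp
  have he' : ∀ J (i : ι), (e J - if i ∈ J then 1 else 0) / A ∈ i.1.nonunits := fun J i => by
    rw [ValuationSubring.mem_nonunits_iff, map_div₀, div_lt_one₀ (by simpa [zero_lt_iff])]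
    exact he J i
  have he'' : ∀ J (i : ι), (e J - if i ∈ J then 1 else 0) ∈ i.1.nonunits := fun J i => by
    simpa [ha'] using nu_mul (he' J i) (hAW i)
  let W : Bool → ι := fun b => cond b ⟨W₁, k₁⟩ ⟨W₂, k₂⟩
  have hW : ∀ b, W (!b) ≠ W b := Bool.forall_bool.2
    ⟨fun h => hne (congrArg Subtype.val h), fun h => hne (congrArg Subtype.val h).symm⟩
  refine no_incomp S' (fun b => (W b).1) (fun b => hinc _ _ (hW b))
    (fun b => {x | ∃ J : {J : Set ι // W b ∉ J}, 1 + e J * x ≠ 0 ∧ x / (1 + e J * x) ∈ E})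
    (fun b => NS.any fun J => S'.and (S'.not (NS.eq ((NS.const _).add
      ((NS.const _).mul (NS.proj _))) (NS.const _))) (hE.app ((NS.proj _).div
      ((NS.const _).add ((NS.const _).mul (NS.proj _)))))) ha' (fun b x hx => ?_) ?_
    (fun V hV => hun _ _ (hW true) V (hV _) (hV _)) hζ hζ1
    (fun b => by rwa [← map_natCast (algebraMap K L), over_nu (W b).2]) hf
  · have h3 : ∀ i : ι, x ∈ i.1 → 1 + e {i | x ∉ i.1} * x ∉ i.1.nonunits := fun i hi =>
      not_nu_of_sub one_nu (by simpa [hi] using nu_mul (he'' {i | x ∉ i.1} i) hi)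
    refine ⟨⟨{i | x ∉ i.1}, not_not.2 hx⟩, (not_nu.1 (h3 _ hx)).1, hE1 _ fun i => ?_⟩
    by_cases hi : x ∈ i.1
    · exact div_eq_mul_inv x _ ▸ mul_mem hi (not_nu.1 (h3 i hi)).2
    · have h0 : x ≠ 0 := fun e => hi (e ▸ zero_mem _)
      have h4 := (not_nu.1 (not_nu_of_sub (y := x⁻¹ + e {i | x ∉ i.1}) one_nu (by
        simpa [hi, add_sub_assoc] using add_mem (i.1.inv_mem_nonunits_iff.2 (Or.inr hi))
          (he'' {i | x ∉ i.1} i)))).2
      convert h4 using 1
      rw [← inv_div]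
      congr 1
      field_simp
  · rintro b x ⟨⟨J, hJ⟩, h3, h4⟩
    have h5 := hE2 _ h4 (W b)
    have h6 := nu_mul' h5 (he' J (W b))
    rw [if_neg hJ, sub_zero] at h6
    obtain ⟨h7, h8⟩ := not_nu.1 (not_nu_of_sub (y := 1 - A * (x / (1 + e J * x)) * (e J / A))
      one_nu (by simpa using neg_mem h6))
    convert mul_mem h5 h8 using 1
    rw [eq_mul_inv_iff_mul_eq₀ h7]
    simp only [mul_comm _ x] at h3 ⊢
    field_simp
    ring

/-- Hensel's lemma from the uniqueness of extensions to separable elements. -/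
theorem henselian_of_uniq (hO : O ≠ ⊤) (h : ∀ x : AlgebraicClosure K, IsSeparable K x →
    ∀ W W' : ValuationSubring (AlgebraicClosure K), W.comap (algebraMap K _) = O →
      W'.comap (algebraMap K _) = O → x ∈ W → x ∈ W') : HenselianLocalRing O := by
  refine ⟨fun f hf a₀ h1 h2 => ?_⟩
  obtain ⟨x₀, hx₀⟩ := exists_not_mem hO
  obtain ⟨W, hW, -⟩ := exists_over (O := O) (x := algebraMap K (AlgebraicClosure K) x₀) fun h => by
    obtain ⟨y, hy⟩ := IsIntegrallyClosed.isIntegral_iff.1 (isIntegral_algebraMap_iff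
      (algebraMap K (AlgebraicClosure K)).injective |>.1 h)
    exact hx₀ (hy ▸ y.2)
  let φ : O →+* W := (algebraMap O (AlgebraicClosure K)).codRestrict W fun x =>
    (over_mem hW).2 x.2
  have hφ : ∀ (p : O[X]) (y : W), ((p.map φ).eval y : W) = aeval (y : AlgebraicClosure K) p := by
    intro p y
    rw [eval_map, aeval_def]
    exact hom_eval₂ p φ W.subtype y
  have hφ' : ∀ x : O, algebraMap O (AlgebraicClosure K) x ∈ W.nonunits ↔ x ∈ maximalIdeal O :=
    fun x => (over_nu hW).trans O.coe_mem_nonunits_iff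
  obtain ⟨α, hα, hα'⟩ : ∃ α, aeval α f = 0 ∧
      α - algebraMap O (AlgebraicClosure K) a₀ ∈ W.nonunits := by
    by_contra hc
    push Not at hc
    have h3 := (hφ' _).2 h1
    rw [← aeval_algebraMap_apply_eq_algebraMap_eval, ← eval_map_algebraMap,
      (IsAlgClosed.splits _).eval_eq_prod_roots_of_monic (hf.map _)] at h3
    refine Multiset.prod_induction (· ∉ W.nonunits) _ (fun _ _ => not_nu_mul) one_nu
      (fun y hy => ?_) h3
    obtain ⟨r, hr, rfl⟩ := Multiset.mem_map.1 hy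
    rw [← neg_sub, neg_mem_iff]
    exact hc r (by simpa [eval_map_algebraMap] using (mem_roots (hf.map _).ne_zero).1 hr)
  have hmem : ∀ β, β - algebraMap O (AlgebraicClosure K) a₀ ∈ W.nonunits → β ∈ W := fun β h => by
    simpa using add_mem (nu_le h) (show algebraMap O (AlgebraicClosure K) a₀ ∈ W from (φ a₀).2)
  have h3 : aeval α (derivative f) ∉ W.nonunits := by
    obtain ⟨k, hk⟩ := sub_dvd_eval_sub ⟨α, hmem α hα'⟩ (φ a₀) ((derivative f).map φ)
    have h4 := congrArg W.subtype hk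
    simp only [map_sub, map_mul, ValuationSubring.coe_subtype, hφ] at h4
    refine not_nu_of_sub ?_ (h4 ▸ nu_mul hα' k.2)
    change aeval (algebraMap O (AlgebraicClosure K) a₀) _ ∉ _
    rw [aeval_algebraMap_apply_eq_algebraMap_eval, hφ']
    exact fun h => h h2
  have hi : IsIntegral K α := Algebra.IsIntegral.isIntegral α
  have hs : IsSeparable K α := by
    refine (separable_iff_derivative_ne_zero (minpoly.irreducible hi)).2 fun e => (not_nu.1 h3).1 ?_
    obtain ⟨g, hg⟩ := minpoly.dvd K α (p := f.map (algebraMap O K)) (by rwa [aeval_map_algebraMap])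
    rw [← aeval_map_algebraMap K, ← derivative_map, hg, derivative_mul, e]
    simp
  by_cases hb : α ∈ (⊥ : Subalgebra K (AlgebraicClosure K))
  · obtain ⟨a, rfl⟩ := Algebra.mem_bot.1 hb
    have h4 := (over_mem hW).1 (hmem _ hα')
    refine ⟨⟨a, h4⟩, (map_eq_zero_iff (algebraMap O (AlgebraicClosure K))
      ((algebraMap K _).injective.comp Subtype.val_injective)).1 ?_, (hφ' _).1 ?_⟩
    · rw [← aeval_algebraMap_apply_eq_algebraMap_eval]
      exact hα
    · rw [map_sub]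
      exact hα'
  exfalso
  obtain ⟨β, hβ, hc⟩ := (notMem_iff_exists_ne_and_isConjRoot hs (IsAlgClosed.splits _)).1 hb
  obtain ⟨σ, rfl⟩ := hc.exists_algEquiv
  have hβs : IsSeparable K (β - algebraMap K _ a₀) :=
    Field.isSeparable_sub (by rwa [IsSeparable, ← hc]) (isSeparable_algebraMap _)
  have hβ' : β - algebraMap O (AlgebraicClosure K) a₀ ∈ W.nonunits := by
    by_contra h4
    obtain ⟨h5, h6⟩ := not_nu.1 h4
    have h7 := h _ (Field.isSeparable_inv hβs) W (W.comap σ.toRingEquiv.toRingHom) hW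
      (by rw [← hW]; ext x; simp) h6
    refine not_nu.2 ⟨fun e => h5 (σ.injective ?_), ?_⟩ hα'
    · rw [map_zero, ← e, map_sub]
      exact congrArg _ (σ.commutes _)
    · have h8 : (σ β - algebraMap K (AlgebraicClosure K) a₀)⁻¹ ∈ W := by simpa using h7
      exact h8
  obtain ⟨k, hk⟩ := binomExpansion (f.map φ) ⟨_, hmem _ hα'⟩ (⟨β, hmem _ hβ'⟩ - ⟨_, hmem _ hα'⟩)
  have h4 := congrArg W.subtype hk
  simp only [add_sub_cancel, map_add, map_mul, map_pow, map_sub, ValuationSubring.coe_subtype, hφ,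
    derivative_map, hα] at h4
  have h5 : aeval β f = 0 := σ.injective (by
    rw [map_zero, ← hα, ← aeval_map_algebraMap K, ← aeval_map_algebraMap K (σ β),
      aeval_algHom_apply])
  have h6 : aeval (σ β) (derivative f) = -k * (β - σ β) :=
    mul_right_cancel₀ (sub_ne_zero.2 hβ.symm) (by linear_combination h5 - h4)
  exact h3 (h6 ▸ nu_mul' (neg_mem k.2) (by simpa using sub_mem hβ' hα'))

end Pool.Agent.MP_829a8f_lc.H33

end MrgPart5

-- marker of a merged file
example : 731051 + 6696 = 731051 + 6696 := rfl
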